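import Pool.Agent.SulK.Basic

/-!
# MP_109285_co, K-law, module Alpha: the functionals alpha and beta
-/

set_option autoImplicit false

namespace Pool.Agent.SulK

open Classical in
/-- The cap `X` minus the drops of the running minimum (cap `X`) of `f` at the vertices of `R` in
`[a, b]`. -/
noncomputable def af (f : ℤ → ℝ) (R : ℤ → Prop) (X : ℝ) (a b : ℤ) : ℝ :=
  X - ∑ t ∈ Finset.Icc a b, if R t then max 0 (mn f X a (t - 1) - f t) else 0

theorem af_base {f : ℤ → ℝ} {R : ℤ → Prop} {X : ℝ} {a b : ℤ} (h : b < a) : af f R X a b = X := by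
  unfold af
  rw [Finset.Icc_eq_empty (by omega), Finset.sum_empty, sub_zero]

open Classical in
theorem af_right {f : ℤ → ℝ} {R : ℤ → Prop} {X : ℝ} {a b : ℤ} (h : a ≤ b) :
    af f R X a b = af f R X a (b - 1) - if R b then max 0 (mn f X a (b - 1) - f b) else 0 := by
  unfold af
  have h1 : Finset.Icc a b = insert b (Finset.Icc a (b - 1)) := by
    ext t
    simp only [Finset.mem_Icc, Finset.mem_insert]
    omega
  rw [h1, Finset.sum_insert (by simp)]
  ring

theorem af_right_pos {f : ℤ → ℝ} {R : ℤ → Prop} {X : ℝ} {a b : ℤ} (h : a ≤ b) (hR : R b) :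
    af f R X a b = af f R X a (b - 1) - max 0 (mn f X a (b - 1) - f b) := by
  rw [af_right h, if_pos hR]

theorem af_right_neg {f : ℤ → ℝ} {R : ℤ → Prop} {X : ℝ} {a b : ℤ} (h : a ≤ b) (hR : ¬ R b) :
    af f R X a b = af f R X a (b - 1) := by
  rw [af_right h, if_neg hR, sub_zero]

theorem af_right_nodrop {f : ℤ → ℝ} {R : ℤ → Prop} {X : ℝ} {a b : ℤ} (h : a ≤ b)
    (hR : mn f X a (b - 1) ≤ f b) : af f R X a b = af f R X a (b - 1) := by
  rw [af_right h, max_eq_left (by linarith)]
  simp

theorem af_right_le {f : ℤ → ℝ} {R : ℤ → Prop} {X : ℝ} {a b : ℤ} (h : a ≤ b) :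
    af f R X a b ≤ af f R X a (b - 1) := by
  rw [af_right h]
  split_ifs
  · have := le_max_left 0 (mn f X a (b - 1) - f b)
    linarith
  · linarith

/-- Induction on the right end. -/
theorem Int_ind {P : ℤ → Prop} {a : ℤ} (h0 : ∀ b, b < a → P b)
    (h1 : ∀ b, a ≤ b → P (b - 1) → P b) : ∀ b, P b := by
  intro b
  rcases lt_or_ge b a with h | h
  · exact h0 b h
  · have h2 : ∀ n : ℕ, P (a - 1 + n) := by
      intro n
      induction n with
      | zero => exact h0 _ (by push_cast; omega)
      | succ n ih =>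
        refine h1 _ (by push_cast; omega) ?_
        rw [show a - 1 + ((n + 1 : ℕ) : ℤ) - 1 = a - 1 + (n : ℤ) by push_cast; ring]
        exact ih
    have h3 := h2 (b - a + 1).toNat
    rw [Int.toNat_of_nonneg (by omega)] at h3
    rwa [show a - 1 + (b - a + 1) = b by ring] at h3

theorem af_anti {f : ℤ → ℝ} {R : ℤ → Prop} {X : ℝ} {a b b' : ℤ} (h : b ≤ b') :
    af f R X a b' ≤ af f R X a b := by
  have key : ∀ n : ℕ, af f R X a (b + n) ≤ af f R X a b := by
    intro n
    induction n with
    | zero => simp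
    | succ n ih =>
      refine le_trans ?_ ih
      rcases lt_or_ge (b + ((n + 1 : ℕ) : ℤ)) a with h1 | h1
      · rw [af_base h1, af_base (by push_cast at h1 ⊢; omega)]
      · have h2 := af_right_le (f := f) (R := R) (X := X) h1
        rwa [show b + ((n + 1 : ℕ) : ℤ) - 1 = b + (n : ℤ) by push_cast; ring] at h2
  have h1 := key (b' - b).toNat
  rwa [Int.toNat_of_nonneg (by omega), show b + (b' - b) = b' by ring] at h1

theorem af_le_cap {f : ℤ → ℝ} {R : ℤ → Prop} {X : ℝ} {a b : ℤ} : af f R X a b ≤ X := by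
  rcases lt_or_ge b a with h | h
  · rw [af_base h]
  · have := af_anti (f := f) (R := R) (X := X) (a := a) (b := a - 1) (b' := b) (by omega)
    rwa [af_base (b := a - 1) (by omega)] at this

theorem mn_le_af {f : ℤ → ℝ} {R : ℤ → Prop} {X : ℝ} {a : ℤ} :
    ∀ b : ℤ, mn f X a b ≤ af f R X a b := by
  refine Int_ind (a := a) (fun b h => ?_) (fun b h ih => ?_)
  · rw [mn_base h, af_base h]
  · rw [af_right h, mn_right h]
    split_ifs
    · rcases le_total (mn f X a (b - 1)) (f b) with h1 | h1
      · rw [min_eq_left h1, max_eq_left (by linarith)]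
        linarith
      · rw [min_eq_right h1, max_eq_right (by linarith)]
        linarith
    · have := min_le_left (mn f X a (b - 1)) (f b)
      linarith

theorem af_all {f : ℤ → ℝ} {R : ℤ → Prop} {X : ℝ} {a : ℤ} :
    ∀ b : ℤ, (∀ t, a ≤ t → t ≤ b → R t) → af f R X a b = mn f X a b := by
  refine Int_ind (a := a) (fun b h _ => ?_) (fun b h ih hR => ?_)
  · rw [mn_base h, af_base h]
  · rw [af_right_pos h (hR b h le_rfl), mn_right h, ih fun t h1 h2 => hR t h1 (by omega)]
    rcases le_total (mn f X a (b - 1)) (f b) with h1 | h1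
    · rw [min_eq_left h1, max_eq_left (by linarith)]
      ring
    · rw [min_eq_right h1, max_eq_right (by linarith)]
      ring

/-- Only the vertices of `R` below the cap matter. -/
theorem af_congr {f : ℤ → ℝ} {R R' : ℤ → Prop} {X : ℝ} {a : ℤ} :
    ∀ b : ℤ, (∀ t, a ≤ t → t ≤ b → f t < X → (R t ↔ R' t)) → af f R X a b = af f R' X a b := by
  classical
  refine Int_ind (a := a) (fun b h _ => ?_) (fun b h ih hR => ?_)
  · rw [af_base h, af_base h]
  · have ih' := ih fun t h1 h2 => hR t h1 (by omega)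
    rcases lt_or_ge (f b) X with h1 | h1
    · rw [af_right h, af_right h, ih']
      simp only [hR b h le_rfl h1]
    · have h2 : mn f X a (b - 1) ≤ f b := le_trans mn_le_cap h1
      rw [af_right_nodrop h h2, af_right_nodrop h h2, ih']

theorem af_mono_R {f : ℤ → ℝ} {R R' : ℤ → Prop} {X : ℝ} {a : ℤ} :
    ∀ b : ℤ, (∀ t, a ≤ t → t ≤ b → f t < X → R t → R' t) → af f R' X a b ≤ af f R X a b := by
  classical
  refine Int_ind (a := a) (fun b h _ => ?_) (fun b h ih hR => ?_)
  · rw [af_base h, af_base h]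
  · have ih' := ih fun t h1 h2 => hR t h1 (by omega)
    rcases lt_or_ge (f b) X with h1 | h1
    · rw [af_right h, af_right h]
      by_cases h2 : R b
      · rw [if_pos h2, if_pos (hR b h le_rfl h1 h2)]
        linarith
      · rw [if_neg h2]
        split_ifs
        · have := le_max_left 0 (mn f X a (b - 1) - f b)
          linarith
        · linarith
    · have h2 : mn f X a (b - 1) ≤ f b := le_trans mn_le_cap h1
      rw [af_right_nodrop h h2, af_right_nodrop h h2]
      exact ih'

theorem mn_mono_cap {f : ℤ → ℝ} {X X' : ℝ} {a b : ℤ} (h : X ≤ X') : mn f X a b ≤ mn f X' a b :=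
  le_mn (le_trans mn_le_cap h) fun _ h1 h2 => mn_le h1 h2

theorem mn_cap {f : ℤ → ℝ} {X X' : ℝ} {a b : ℤ} (h : X ≤ X') :
    mn f X a b = min X (mn f X' a b) := by
  apply le_antisymm
  · exact le_min mn_le_cap (mn_mono_cap h)
  · exact le_mn (min_le_left _ _) fun t h1 h2 => le_trans (min_le_right _ _) (mn_le h1 h2)

open Classical in
/-- `af - mn` is the sum of the drops outside `R`. -/
theorem af_sub_mn_right {f : ℤ → ℝ} {R : ℤ → Prop} {X : ℝ} {a b : ℤ} (h : a ≤ b) :
    af f R X a b - mn f X a b = af f R X a (b - 1) - mn f X a (b - 1) +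
      if R b then 0 else max 0 (mn f X a (b - 1) - f b) := by
  rw [af_right h, mn_right h]
  rcases le_total (mn f X a (b - 1)) (f b) with h1 | h1
  · rw [min_eq_left h1, max_eq_left (by linarith)]
    simp
  · rw [min_eq_right h1, max_eq_right (by linarith)]
    split_ifs <;> ring

/-- The auxiliary inequality behind `af_mono_cap`. -/
theorem af_mono_cap_aux {f : ℤ → ℝ} {R : ℤ → Prop} {X X' : ℝ} {a : ℤ} (hX : X ≤ X') :
    ∀ b : ℤ, af f R X a b - mn f X a b ≤ af f R X' a b - mn f X' a b := by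
  classical
  refine Int_ind (a := a) (fun b h => ?_) (fun b h ih => ?_)
  · rw [af_base h, af_base h, mn_base h, mn_base h]
    linarith
  · rw [af_sub_mn_right h, af_sub_mn_right h]
    have h1 := mn_mono_cap (f := f) (a := a) (b := b - 1) hX
    have h2 : max 0 (mn f X a (b - 1) - f b) ≤ max 0 (mn f X' a (b - 1) - f b) :=
      max_le_max le_rfl (by linarith)
    split_ifs
    · linarith
    · linarith

theorem af_mono_cap {f : ℤ → ℝ} {R : ℤ → Prop} {X X' : ℝ} {a b : ℤ} (hX : X ≤ X') :
    af f R X a b ≤ af f R X' a b := by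
  have h1 := af_mono_cap_aux (f := f) (R := R) (a := a) hX b
  have h2 := mn_mono_cap (f := f) (a := a) (b := b) hX
  linarith

/-- Comparison of two row sets: the levels which are dropped at `R' \ R` have measure at most `g`. -/
theorem af_compare_aux {f : ℤ → ℝ} {R R' : ℤ → Prop} {X g : ℝ} {a : ℤ} (hg : 0 ≤ g) :
    ∀ b : ℤ, (∀ t, a ≤ t → t ≤ b → R' t → ¬ R t → f t < X → X - f t ≤ g) →
      af f R X a b ≤ af f R' X a b + g ∧ af f R X a b ≤ af f R' X a b + (X - mn f X a b) := by
  classical
  refine Int_ind (a := a) (fun b h _ => ?_) (fun b h ih hR => ?_)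
  · rw [af_base h, af_base h, mn_base h]
    constructor <;> linarith
  · obtain ⟨h1, h2⟩ := ih fun t h1 h2 => hR t h1 (by omega)
    have hm : mn f X a (b - 1) ≤ X := mn_le_cap
    have hmb : mn f X a b ≤ mn f X a (b - 1) := by
      rw [mn_right h]
      exact min_le_left _ _
    rcases le_or_gt (mn f X a (b - 1)) (f b) with h3 | h3
    · rw [af_right_nodrop h h3, af_right_nodrop h h3]
      exact ⟨h1, by linarith⟩
    · have hmb' : mn f X a b = f b := by
        rw [mn_right h, min_eq_right h3.le]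
      rw [af_right h, af_right h, hmb', max_eq_right (by linarith)]
      by_cases h4 : R' b
      · by_cases h5 : R b
        · rw [if_pos h4, if_pos h5]
          constructor <;> linarith
        · rw [if_pos h4, if_neg h5]
          have h6 := hR b h le_rfl h4 h5 (by linarith)
          constructor <;> linarith
      · rw [if_neg h4]
        split_ifs
        · constructor <;> linarith
        · constructor <;> linarith

theorem af_compare {f : ℤ → ℝ} {R R' : ℤ → Prop} {X g : ℝ} {a b : ℤ} (hg : 0 ≤ g)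
    (h : ∀ t, a ≤ t → t ≤ b → R' t → ¬ R t → f t < X → X - f t ≤ g) :
    af f R X a b ≤ af f R' X a b + g := (af_compare_aux hg b h).1

theorem mn_left_nodrop {f : ℤ → ℝ} {X : ℝ} {a b : ℤ} (h : X ≤ f a) :
    mn f X a b = mn f X (a + 1) b := by
  rcases lt_or_ge b a with h1 | h1
  · rw [mn_base h1, mn_base (by omega)]
  · rw [mn_left h1, min_eq_left (le_trans mn_le_cap h)]

theorem af_left_nodrop {f : ℤ → ℝ} {R : ℤ → Prop} {X : ℝ} {a : ℤ} (hX : X ≤ f a) :
    ∀ b : ℤ, af f R X a b = af f R X (a + 1) b := by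
  classical
  refine Int_ind (a := a) (fun b h => ?_) (fun b h ih => ?_)
  · rw [af_base h, af_base (by omega)]
  · rcases eq_or_lt_of_le h with h1 | h1
    · subst h1
      rw [af_right_nodrop le_rfl (by rw [mn_base (by omega)]; exact hX), af_base (by omega),
        af_base (by omega)]
    · rw [af_right h, af_right (a := a + 1) (by omega), ih, mn_left_nodrop hX]

theorem mn_left_cap {f : ℤ → ℝ} {X : ℝ} {a b : ℤ} (h : a ≤ b) :
    mn f X a b = mn f (min X (f a)) (a + 1) b := by
  apply le_antisymm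
  · exact le_mn (le_min mn_le_cap (mn_le le_rfl h)) fun t h1 h2 => mn_le (by omega) h2
  · refine le_mn (le_trans mn_le_cap (min_le_left _ _)) fun t h1 h2 => ?_
    rcases lt_or_ge t (a + 1) with h3 | h3
    · have : t = a := by omega
      rw [this]
      exact le_trans mn_le_cap (min_le_right _ _)
    · exact mn_le h3 h2

theorem af_left_pos {f : ℤ → ℝ} {R : ℤ → Prop} {X : ℝ} {a : ℤ} (hR : R a) :
    ∀ b : ℤ, a ≤ b → af f R X a b = af f R (min X (f a)) (a + 1) b := by
  classical
  refine Int_ind (a := a) (fun b h h' => absurd h' (by omega)) (fun b h ih _ => ?_)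
  rcases eq_or_lt_of_le h with h1 | h1
  · subst h1
    rw [af_right_pos le_rfl hR, af_base (by omega), af_base (by omega), mn_base (by omega)]
    rcases le_total X (f a) with h2 | h2
    · rw [min_eq_left h2, max_eq_left (by linarith)]
      ring
    · rw [min_eq_right h2, max_eq_right (by linarith)]
      ring
  · rw [af_right h, af_right (a := a + 1) (by omega), ih (by omega), mn_left_cap (by omega)]

/-- The last drop at a vertex of `R`. -/
theorem af_last {f : ℤ → ℝ} {R : ℤ → Prop} {X : ℝ} {a : ℤ} :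
    ∀ b : ℤ, a - 1 ≤ b → ∃ g, a - 1 ≤ g ∧ g ≤ b ∧ af f R X a g = af f R X a b ∧
      (g = a - 1 ∨ (R g ∧ f g < mn f X a (g - 1))) := by
  classical
  refine Int_ind (a := a) (fun b h h' => ?_) (fun b h ih _ => ?_)
  · exact ⟨b, h', le_rfl, rfl, Or.inl (by omega)⟩
  · obtain ⟨g, h1, h2, h3, h4⟩ := ih (by omega)
    by_cases h5 : R b ∧ f b < mn f X a (b - 1)
    · exact ⟨b, by omega, le_rfl, rfl, Or.inr h5⟩
    · refine ⟨g, h1, by omega, ?_, h4⟩
      rw [h3]
      by_cases h6 : R b
      · have h7 : mn f X a (b - 1) ≤ f b := by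
          by_contra hc
          exact h5 ⟨h6, not_le.1 hc⟩
        rw [af_right_nodrop h h7]
      · rw [af_right_neg h h6]

/-- `af` on a longer interval without drops. -/
theorem af_ext {f : ℤ → ℝ} {R : ℤ → Prop} {X : ℝ} {a b : ℤ} :
    ∀ b' : ℤ, b ≤ b' → (∀ t, b < t → t ≤ b' → mn f X a b ≤ f t) → af f R X a b' = af f R X a b := by
  classical
  intro b' h
  have key : ∀ n : ℕ, (∀ t, b < t → t ≤ b + n → mn f X a b ≤ f t) →
      af f R X a (b + n) = af f R X a b ∧ mn f X a (b + n) = mn f X a b := by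
    intro n
    induction n with
    | zero => intro _; simp
    | succ n ih =>
      intro hn
      obtain ⟨h1, h2⟩ := ih fun t ht1 ht2 => hn t ht1 (by push_cast; omega)
      have e : b + ((n + 1 : ℕ) : ℤ) - 1 = b + (n : ℤ) := by push_cast; ring
      have h3 := hn (b + ((n + 1 : ℕ) : ℤ)) (by push_cast; omega) le_rfl
      rcases lt_or_ge (b + ((n + 1 : ℕ) : ℤ)) a with h4 | h4
      · rw [af_base h4, mn_base h4, af_base (by push_cast at h4 ⊢; omega),
          mn_base (by push_cast at h4 ⊢; omega)]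
        exact ⟨rfl, rfl⟩
      · rw [af_right_nodrop h4 (by rw [e, h2]; exact h3), mn_right h4, e, h1, h2]
        exact ⟨rfl, min_eq_left h3⟩
  intro h5
  have h6 := (key (b' - b).toNat (by rw [Int.toNat_of_nonneg (by omega), show b + (b' - b) = b' by ring]; exact h5)).1
  rwa [Int.toNat_of_nonneg (by omega), show b + (b' - b) = b' by ring] at h6

/-! ### Rows and columns -/

/-- `alpha^(p, e; X)`: row of `p`, cap `X`. -/
noncomputable def Al (x z : ℤ → ℝ) (p e : ℤ) (X : ℝ) : ℝ :=
  af x (fun t => t = p ∨ G x z p t) X p e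

/-- `beta^(s, q; Z)`: column of `q`, cap `Z`. -/
noncomputable def Be (x z : ℤ → ℝ) (s q : ℤ) (Z : ℝ) : ℝ := Al (rv z) (rv x) (-q) (-s) Z

noncomputable def al (x z : ℤ → ℝ) (s e : ℤ) : ℝ := Al x z s e (x s)

noncomputable def be (x z : ℤ → ℝ) (s e : ℤ) : ℝ := Be x z s e (z e)

/-- The measured slack of a window. -/
noncomputable def D (x z : ℤ → ℝ) (s e : ℤ) : ℝ := x e + z s - al x z s e - be x z s e

theorem Al_rv (x z : ℤ → ℝ) (p e : ℤ) (X : ℝ) : Al (rv z) (rv x) (-e) (-p) X = Be x z p e X := rfl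

theorem Be_rv (x z : ℤ → ℝ) (s q : ℤ) (Z : ℝ) : Be (rv z) (rv x) (-q) (-s) Z = Al x z s q Z := by
  unfold Be
  rw [rv_rv, rv_rv, neg_neg, neg_neg]

theorem al_rv (x z : ℤ → ℝ) (s e : ℤ) : al (rv z) (rv x) (-e) (-s) = be x z s e := by
  unfold al be
  rw [Al_rv, rv_neg]

theorem be_rv (x z : ℤ → ℝ) (s e : ℤ) : be (rv z) (rv x) (-e) (-s) = al x z s e := by
  unfold al be
  rw [Be_rv, rv_neg]

theorem D_rv (x z : ℤ → ℝ) (s e : ℤ) : D (rv z) (rv x) (-e) (-s) = D x z s e := by
  unfold D
  rw [al_rv, be_rv, rv_neg, rv_neg]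
  ring

end Pool.Agent.SulK
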