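import Pool.Agent.Sul.Fin

/-!
# MP_109285_co (Sullivan), ratio form, module Avg1: expectations along the walk

Truncation, the expectation of `π (g j) / π (g i)`, cliques.
-/

set_option autoImplicit false

open Finset

namespace Pool.Agent.SulK

open Pool.Agent.Sul

variable {V : Type} [Fintype V]

/-- A function of the first `m + 1` states. -/
theorem Ex_trunc {K : V → V → ℝ} (hK : ∀ v w, 0 ≤ K v w) (hrow : ∀ v, ∑ w, K v w = 1) (m : ℕ) :
    ∀ (n : ℕ) (v : V) (F : (ℕ → V) → ℝ), m ≤ n →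
      (∀ g g' : ℕ → V, (∀ i, i ≤ m → g i = g' i) → F g = F g') → Ex K n v F = Ex K m v F := by
  induction m with
  | zero =>
    intro n v F _ hF
    rw [Ex_congr hK n v F (fun _ => F (fun _ => v)) (fun g hg _ => hF g _ fun i hi => by
      have : i = 0 := by omega
      rw [this, hg])]
    exact Ex_const hrow n v _
  | succ m ih =>
    intro n v F hmn hF
    obtain ⟨n', rfl⟩ : ∃ n', n = n' + 1 := ⟨n - 1, by omega⟩
    show ∑ w, K v w * Ex K n' w (fun g => F (cons v g)) =
      ∑ w, K v w * Ex K m w (fun g => F (cons v g))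
    refine sum_congr rfl fun w _ => ?_
    rw [ih n' w (fun g => F (cons v g)) (by omega) fun g g' hgg => hF _ _ fun i hi => ?_]
    rcases i with _ | i
    · rfl
    · show g i = g' i
      exact hgg i (by omega)

theorem Ep_trunc {K : V → V → ℝ} {π : V → ℝ} (h : Chain K π) (m n : ℕ) (hmn : m ≤ n)
    (F : (ℕ → V) → ℝ) (hF : ∀ g g' : ℕ → V, (∀ i, i ≤ m → g i = g' i) → F g = F g') :
    Ep K π n F = Ep K π m F := by
  unfold Ep
  exact sum_congr rfl fun v _ => by rw [Ex_trunc h.knn h.row m n v F hmn hF]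

theorem Ex_nonneg {K : V → V → ℝ} (hK : ∀ v w, 0 ≤ K v w) (n : ℕ) (v : V) (F : (ℕ → V) → ℝ)
    (hF : ∀ g, 0 ≤ F g) : 0 ≤ Ex K n v F := by
  induction n generalizing v F with
  | zero => exact hF _
  | succ n ih =>
    show 0 ≤ ∑ w, K v w * Ex K n w (fun g => F (cons v g))
    exact sum_nonneg fun w _ => mul_nonneg (hK v w) (ih w _ fun g => hF _)

/-- Column sums. -/
theorem Ex_col {K : V → V → ℝ} (hK : ∀ v w, 0 ≤ K v w) (hrow : ∀ v, ∑ w, K v w = 1) (b : ℝ)
    (hb : ∀ w, ∑ v, K v w ≤ b) (hb0 : 0 ≤ b) (ψ : V → ℝ) (hψ : ∀ v, 0 ≤ ψ v) (l : ℕ) :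
    ∀ n, l ≤ n → ∑ v, Ex K n v (fun g => ψ (g l)) ≤ b ^ l * ∑ v, ψ v := by
  induction l with
  | zero =>
    intro n _
    rw [pow_zero, one_mul]
    exact le_of_eq (sum_congr rfl fun v _ => Ex_head hK hrow n v ψ)
  | succ l ih =>
    intro n hn
    obtain ⟨n', rfl⟩ : ∃ n', n = n' + 1 := ⟨n - 1, by omega⟩
    calc ∑ v, Ex K (n' + 1) v (fun g => ψ (g (l + 1)))
        = ∑ v, ∑ w, K v w * Ex K n' w (fun g => ψ (g l)) := rfl
      _ = ∑ w, (∑ v, K v w) * Ex K n' w (fun g => ψ (g l)) := by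
          rw [sum_comm]
          exact sum_congr rfl fun w _ => by rw [sum_mul]
      _ ≤ ∑ w, b * Ex K n' w (fun g => ψ (g l)) :=
          sum_le_sum fun w _ => mul_le_mul_of_nonneg_right (hb w)
            (Ex_nonneg hK n' w _ fun g => hψ _)
      _ = b * ∑ w, Ex K n' w (fun g => ψ (g l)) := by rw [mul_sum]
      _ ≤ b * (b ^ l * ∑ v, ψ v) := mul_le_mul_of_nonneg_left (ih n' (by omega)) hb0
      _ = b ^ (l + 1) * ∑ v, ψ v := by ring

/-- The expected ratio of stationary weights. -/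
theorem Ep_ratio {K : V → V → ℝ} {π : V → ℝ} (h : Chain K π) (b : ℝ)
    (hb : ∀ w, ∑ v, K v w ≤ b) (hb0 : 0 ≤ b) (i l N : ℕ) (hN : i + l ≤ N) :
    Ep K π N (fun g => π (g (i + l)) / π (g i)) ≤ b ^ l := by
  obtain ⟨n, rfl⟩ : ∃ n, N = i + n := ⟨N - i, by omega⟩
  have h1 := Ep_shift h i n (fun g => π (g l) / π (g 0))
  have h2 : Ep K π (i + n) (fun g => π (g (i + l)) / π (g i)) =
      Ep K π n (fun g => π (g l) / π (g 0)) := by
    rw [← h1]
    rfl
  rw [h2]
  have h3 : ∀ v, π v * Ex K n v (fun g => π (g l) / π (g 0)) ≤ Ex K n v (fun g => π (g l)) := by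
    intro v
    have h4 : Ex K n v (fun g => π (g l) / π (g 0)) = Ex K n v (fun g => (1 / π v) * π (g l)) :=
      Ex_congr h.knn n v _ _ fun g hg _ => by
        rw [hg]
        ring
    rw [h4, Ex_mul_left]
    have h5 := Ex_nonneg h.knn n v (fun g => π (g l)) fun g => h.pnn _
    rcases (h.pnn v).eq_or_lt with h0 | h0
    · rw [← h0]
      simpa using h5
    · rw [← mul_assoc, mul_one_div_cancel h0.ne', one_mul]
  unfold Ep
  refine (sum_le_sum fun v _ => h3 v).trans ?_
  refine (Ex_col h.knn h.row b hb hb0 π h.pnn l n (by omega)).trans ?_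
  rw [h.psum, mul_one]

/-- Column sums of the backward step. -/
theorem Kb_col (adj : V → V → Prop) (d D : ℝ) (hd : 0 < d) (hdeg : ∀ v, d ≤ dg adj v)
    (hD : ∀ w, ({v | adj w v}.ncard : ℝ) ≤ D * d) (w : V) : ∑ v, Kb adj v w ≤ D := by
  classical
  have h1 : ∀ v, Kb adj v w ≤ (if adj w v then (1 : ℝ) else 0) * (1 / d) := by
    intro v
    unfold Kb
    split_ifs
    · rw [one_mul]
      exact one_div_le_one_div_of_le hd (hdeg v)
    · simp
  refine (sum_le_sum fun v _ => h1 v).trans ?_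
  rw [← sum_mul]
  have h2 : ∑ v, (if adj w v then (1 : ℝ) else 0) = ({v | adj w v}.ncard : ℝ) := by
    rw [Set.ncard_eq_toFinset_card', Finset.sum_boole]
    congr 2
    ext v
    simp
  rw [h2, mul_one_div, div_le_iff₀ hd]
  exact hD w

/-- A step up of the stationary weight. -/
theorem prob_up (adj : V → V → Prop) (π : V → ℝ) (h : Chain (Kb adj) π) (b : ℝ) (hb0 : 0 < b)
    (hb : ∀ w, ∑ v, Kb adj v w ≤ b) (T : ℝ) (i N : ℕ) (hN : i + 1 ≤ N) :
    Ep (Kb adj) π N (fun g => ind (Real.log (π (g i)) + (Real.log b + T) <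
      Real.log (π (g (i + 1))))) ≤ Real.exp (-T) := by
  have h1 := Ep_markov h N
    (fun g => Real.log (π (g i)) + (Real.log b + T) < Real.log (π (g (i + 1))))
    (fun g => π (g (i + 1)) / π (g i)) (1 / (b * Real.exp T)) (by positivity)
    (fun g _ _ => div_nonneg (h.pnn _) (h.pnn _))
    (by
      intro g hg0 hgs hlt
      have p1 := pi_pos h N g hg0 hgs i (by omega)
      have p2 := pi_pos h N g hg0 hgs (i + 1) hN
      have h2 := Real.exp_le_exp.2 hlt.le
      rw [Real.exp_add, Real.exp_add, Real.exp_log p1, Real.exp_log hb0, Real.exp_log p2] at h2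
      rw [one_div, ← div_eq_inv_mul, div_div, le_div_iff₀ (by positivity)]
      linarith)
  refine h1.trans ?_
  have h3 := Ep_ratio h b hb hb0.le i 1 N hN
  rw [pow_one] at h3
  calc 1 / (b * Real.exp T) * Ep (Kb adj) π N (fun g => π (g (i + 1)) / π (g i))
      ≤ 1 / (b * Real.exp T) * b := mul_le_mul_of_nonneg_left h3 (by positivity)
    _ = Real.exp (-T) := by
        rw [Real.exp_neg]
        field_simp

/-- Interval cliques, with the maximal in-degree. -/
theorem clique_prob' (adj : V → V → Prop) (has : ∀ x y, adj x y → ¬ adj y x) (π : V → ℝ)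
    (h : Chain (Kb adj) π) (d Δ : ℝ) (hd : 0 < d) (hdeg : ∀ v, d ≤ dg adj v)
    (hΔ : ∀ v, dg adj v ≤ Δ) (i k W : ℕ) (hi : i + k + 1 ≤ W) :
    Ep (Kb adj) π W (fun g => ind (∀ a b, i ≤ a → a < b → b ≤ i + k + 1 → adj (g b) (g a))) ≤
      Δ / (2 ^ k * d) := by
  classical
  obtain ⟨n, rfl⟩ : ∃ n, W = i + n := ⟨W - i, by omega⟩
  have h1 := Ep_shift h i n
    (fun g => ind (∀ a b, a < b → b ≤ k + 1 → adj (g b) (g a)))
  have e : (fun g : ℕ → V => ind (∀ a b, i ≤ a → a < b → b ≤ i + k + 1 → adj (g b) (g a))) =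
      fun g => (fun g' : ℕ → V => ind (∀ a b, a < b → b ≤ k + 1 → adj (g' b) (g' a)))
        (fun j => g (i + j)) := by
    funext g
    show ind _ = ind _
    congr 1
    apply propext
    constructor
    · intro hh a b hab hb
      exact hh (i + a) (i + b) (by omega) (by omega) (by omega)
    · intro hh a b ha hab hb
      have h2 : adj (g (i + (b - i))) (g (i + (a - i))) := hh (a - i) (b - i) (by omega) (by omega)
      have e1 : i + (a - i) = a := by omega
      have e2 : i + (b - i) = b := by omega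
      rw [e1, e2] at h2
      exact h2
  rw [e, h1]
  show ∑ v, π v * Ex (Kb adj) n v _ ≤ _
  have h3 : ∀ v, π v * Ex (Kb adj) n v
      (fun g => ind (∀ a b, a < b → b ≤ k + 1 → adj (g b) (g a))) ≤
      π v * (Δ / (2 ^ k * d)) := by
    intro v
    refine mul_le_mul_of_nonneg_left ?_ (h.pnn v)
    have h4 := clique_aux adj has d hd hdeg k n (by omega) v (univ.filter (fun u => adj u v))
      (fun w hw => (mem_filter.1 hw).2)
    have h5 : ((univ.filter (fun u => adj u v)).card : ℝ) / (2 ^ k * d) ≤ Δ / (2 ^ k * d) := by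
      rw [← p3_dg_eq_card adj v]
      exact div_le_div_of_nonneg_right (hΔ v) (by positivity)
    refine le_trans ?_ (h4.trans h5)
    refine Ex_mono (p3_Kb_nonneg adj) n v _ _ fun g hg _ => p3_ind_mono ?_
    intro hh
    refine ⟨fun j h1j hjm => ?_, fun a b _ hab hb => hh a b hab hb⟩
    rw [mem_filter]
    refine ⟨mem_univ _, ?_⟩
    have h7 := hh 0 j (by omega) hjm
    rwa [hg] at h7
  calc ∑ v, π v * Ex (Kb adj) n v (fun g => ind (∀ a b, a < b → b ≤ k + 1 → adj (g b) (g a)))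
      ≤ ∑ v, π v * (Δ / (2 ^ k * d)) := sum_le_sum fun v _ => h3 v
    _ = Δ / (2 ^ k * d) := by rw [← sum_mul, h.psum, one_mul]

end Pool.Agent.SulK
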