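import Pool.Agent.SulK.End2

/-!
# MP_109285_co (Sullivan), ratio form, module Avg2: the window lemma with one-sided control of `y`

`y` may fall, but it is bounded below by `y 0 - c` and its steps up are at most `ρ`.
-/

set_option autoImplicit false

open Finset

namespace Pool.Agent.SulK

open Pool.Agent.Sul

theorem count_up (P : ℕ → Prop) (y : ℕ → ℝ) (c₁ ρ α₁ κ₀ : ℝ) (W : ℕ) (hc₁ : 0 ≤ c₁) (hρ : 0 ≤ ρ)
    (hα₁ : 0 ≤ α₁) (hκ₀ : 0 ≤ κ₀)
    (hS : ∀ a m, 1 ≤ a → 1 ≤ m → a + m ≤ W → (∀ v, a ≤ v → v < a + m → P v) →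
      c₁ * m + (y (a + m) - y (a - 1)) ≤ α₁)
    (hA : ∀ a m, 1 ≤ a → a + m ≤ W → (∀ v, a ≤ v → v < a + m → ¬ P v) → (m : ℝ) ≤ κ₀)
    (hup : ∀ t, t < W → y (t + 1) - y t ≤ ρ) (n : ℕ) :
    1 ≤ n → n ≤ W →
      ((n = 1 ∨ ¬ P (n - 1)) → c₁ * ((n : ℝ) - 1) + (y (n - 1) - y 0) ≤
        (starts P n).card * ((c₁ + ρ) * κ₀ + α₁) + (c₁ + ρ) * κ₀) ∧
      ((2 ≤ n ∧ P (n - 1)) → c₁ * ((n : ℝ) - 1) + (y n - y 0) ≤
        (starts P n).card * ((c₁ + ρ) * κ₀ + α₁)) := by
  classical
  have hκ : 0 ≤ (c₁ + ρ) * κ₀ := by positivity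
  have hupm : ∀ m t, t + m ≤ W → y (t + m) - y t ≤ ρ * m := by
    intro m
    induction m with
    | zero => intro t _; simp
    | succ m ih =>
      intro t ht
      have h1 := ih t (by omega)
      have h2 := hup (t + m) (by omega)
      have e : t + (m + 1) = t + m + 1 := by omega
      rw [e]
      push_cast
      linarith
  induction n using Nat.strong_induction_on with
  | _ n ih =>
    intro h1 hW
    have hcard0 : (0 : ℝ) ≤ (starts P n).card * ((c₁ + ρ) * κ₀ + α₁) := by positivity
    rcases Nat.eq_or_lt_of_le h1 with h2 | h2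
    · subst h2
      refine ⟨fun _ => ?_, fun h => absurd h.1 (by omega)⟩
      have e : (1 : ℕ) - 1 = 0 := rfl
      rw [e]
      push_cast
      linarith
    · -- the block of `n - 1`
      have hex : ∃ a, 1 ≤ a ∧ a ≤ n - 1 ∧ ∀ v, a ≤ v → v < n → (P v ↔ P (n - 1)) := by
        refine ⟨n - 1, by omega, le_rfl, fun v hv1 hv2 => ?_⟩
        have : v = n - 1 := by omega
        rw [this]
      obtain ⟨a, ha⟩ : ∃ a, a = Nat.find hex := ⟨_, rfl⟩
      have hspec := Nat.find_spec hex
      rw [← ha] at hspec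
      obtain ⟨ha1, ha2, ha3⟩ := hspec
      have hprev : a = 1 ∨ ¬ (P (a - 1) ↔ P (n - 1)) := by
        by_contra hc
        push Not at hc
        obtain ⟨hc1, hc2⟩ := hc
        have hlt : a - 1 < Nat.find hex := by omega
        refine Nat.find_min hex hlt ⟨by omega, by omega, fun v hv1 hv2 => ?_⟩
        rcases Nat.eq_or_lt_of_le hv1 with h3 | h3
        · rw [← h3]
          exact hc2
        · exact ha3 v (by omega) hv2
      obtain ⟨i1, i2⟩ := ih a (by omega) ha1 (by omega)
      have hmono : ((starts P a).card : ℝ) ≤ (starts P n).card := by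
        exact_mod_cast Finset.card_le_card (starts_mono P (show a ≤ n by omega))
      have hna : (a : ℝ) + ((n - a : ℕ) : ℝ) = n := by
        have : a + (n - a) = n := by omega
        exact_mod_cast this
      have han : a + (n - a) = n := by omega
      by_cases hP : P (n - 1)
      · refine ⟨fun h => ?_, fun _ => ?_⟩
        · rcases h with h | h
          · omega
          · exact absurd hP h
        · have hlen := hS a (n - a) ha1 (by omega) (by omega)
            (fun v hv1 hv2 => (ha3 v hv1 (by omega)).2 hP)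
          rw [han] at hlen
          have hPa : P a := (ha3 a le_rfl (by omega)).2 hP
          have hpa : a = 1 ∨ ¬ P (a - 1) := by
            rcases hprev with h3 | h3
            · exact Or.inl h3
            · right
              intro h4
              exact h3 ⟨fun _ => hP, fun _ => h4⟩
          have hst : (starts P a).card + 1 ≤ (starts P n).card := by
            have hna' : a ∉ starts P a := by
              unfold starts
              simp
            rw [← Finset.card_insert_of_notMem hna']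
            refine Finset.card_le_card ?_
            intro v hv
            rw [Finset.mem_insert] at hv
            rcases hv with hv | hv
            · subst hv
              unfold starts
              simp only [Finset.mem_filter, Finset.mem_Ico]
              exact ⟨⟨ha1, by omega⟩, hPa, hpa⟩
            · exact starts_mono P (show a ≤ n by omega) hv
          have hst' : ((starts P a).card : ℝ) + 1 ≤ (starts P n).card := by exact_mod_cast hst
          have hmul := mul_le_mul_of_nonneg_right hst'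
            (show (0 : ℝ) ≤ (c₁ + ρ) * κ₀ + α₁ by positivity)
          have h5 := i1 hpa
          have h6 : c₁ * ((n : ℝ) - 1) = c₁ * ((a : ℝ) - 1) + c₁ * ((n - a : ℕ) : ℝ) := by
            rw [← hna]
            ring
          rw [h6]
          linarith
      · refine ⟨fun _ => ?_, fun h => absurd h.2 hP⟩
        have hlen := hA a (n - a) ha1 (by omega)
          (fun v hv1 hv2 h3 => hP ((ha3 v hv1 (by omega)).1 h3))
        have hmul := mul_le_mul_of_nonneg_right hmono
          (show (0 : ℝ) ≤ (c₁ + ρ) * κ₀ + α₁ by positivity)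
        have hκm : (c₁ + ρ) * ((n - a : ℕ) : ℝ) ≤ (c₁ + ρ) * κ₀ :=
          mul_le_mul_of_nonneg_left hlen (by positivity)
        have h6 : c₁ * ((n : ℝ) - 1) = c₁ * ((a : ℝ) - 1) + c₁ * ((n - a : ℕ) : ℝ) := by
          rw [← hna]
          ring
        rcases Nat.eq_or_lt_of_le ha1 with h7 | h7
        · -- the first block
          have h8 := hupm (n - 1) 0 (by omega)
          rw [zero_add] at h8
          have h9 : ((n - 1 : ℕ) : ℝ) = ((n - a : ℕ) : ℝ) := by rw [← h7]
          rw [h9] at h8
          have ha1' : (a : ℝ) = 1 := by exact_mod_cast h7.symm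
          rw [h6, ha1']
          linarith
        · have h5 : P (a - 1) := by
            rcases hprev with h3 | h3
            · omega
            · by_contra h4
              exact h3 ⟨fun h => absurd h h4, fun h => absurd h hP⟩
          have h8 := i2 ⟨by omega, h5⟩
          have h9 := hupm (n - 1 - a) a (by omega)
          have e : a + (n - 1 - a) = n - 1 := by omega
          rw [e] at h9
          have h10 : ρ * ((n - 1 - a : ℕ) : ℝ) ≤ ρ * ((n - a : ℕ) : ℝ) := by
            refine mul_le_mul_of_nonneg_left ?_ hρ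
            exact_mod_cast (show n - 1 - a ≤ n - a by omega)
          rw [h6]
          linarith

variable {A : ℕ → ℕ → Prop} {x y : ℕ → ℝ} {M T : ℝ} {W : ℕ}

theorem SysN.srun_key (h : SysN A x y M T W) (a m : ℕ) (ha : 1 ≤ a)
    (ham : a + m ≤ W) (hv : ∀ v, a ≤ v → v < a + m → ¬ A (v - 1) (v + 1)) :
    ∀ j, 3 * j ≤ m + 1 →
      x (a - 1) - y (a - 1) + 2 * M * j ≤ x (a - 1 + 3 * j) - y (a - 1 + 3 * j) := by
  intro j
  induction j with
  | zero =>
    intro _
    simp
  | succ j ih =>
    intro hj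
    have i1 := ih (by omega)
    have b1 := h.bad (a + 3 * j) (by omega) (by omega) (hv _ (by omega) (by omega))
    have b2 := h.bad (a + 3 * j + 1) (by omega) (by omega) (hv _ (by omega) (by omega))
    have e1 := b1 (a + 3 * j - 1) le_rfl (by omega)
    have e2 := b2 (a + 3 * j + 1) (by omega) (by omega)
    have f1 : a + 3 * j - 1 + 1 = a + 3 * j := by omega
    have f2 : a + 3 * j + 1 - 1 = a + 3 * j := by omega
    have f3 : a + 3 * j - 1 = a - 1 + 3 * j := by omega
    have f4 : a + 3 * j + 1 + 1 = a - 1 + 3 * (j + 1) := by omega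
    rw [f1, f3] at e1
    rw [f2, f4] at e2
    push_cast
    linarith

/-- The window lemma, `M = 20`, `T = 1`. -/
theorem SysN.window2 (h : SysN A x y 20 1 W) (hW : 1 ≤ W) (k : ℕ) (Rx ρ c θ : ℝ) (hRx : 0 ≤ Rx)
    (hρ : 0 ≤ ρ) (hx : ∀ i j, i ≤ W → j ≤ W → x i - x j ≤ Rx)
    (hup : ∀ t, t < W → y (t + 1) - y t ≤ ρ) (hlow : ∀ t, t ≤ W → y 0 - y t ≤ c)
    (hc : ∀ i, i + k + 1 ≤ W → ¬ ∀ a b, i ≤ a → a < b → b ≤ i + k + 1 → A a b)
    (hθ : ((starts (fun v => ¬ A (v - 1) (v + 1)) W).card : ℝ) ≤ θ) :
    40 / 3 * ((W : ℝ) - 1) ≤ θ * ((40 / 3 + ρ) * (k + 1) + (Rx + 2 * ρ + 40 / 3)) +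
      (40 / 3 + ρ) * (k + 1) + c := by
  have hk : (0 : ℝ) ≤ (k : ℝ) + 1 := by positivity
  have hc0 : 0 ≤ c := by
    have := hlow 0 (Nat.zero_le _)
    linarith
  obtain ⟨h1, h2⟩ := count_up (fun v => ¬ A (v - 1) (v + 1)) y (40 / 3) ρ
    (Rx + 2 * ρ + 40 / 3) (k + 1) W (by norm_num) hρ (by positivity) hk
    (by
      intro a m ha hm ham hv
      have hj := h.srun_key a m ha ham hv ((m + 1) / 3) (by omega)
      have hxx := hx (a - 1 + 3 * ((m + 1) / 3)) (a - 1) (by omega) (by omega)
      have h3 : (m : ℝ) - 1 ≤ 3 * (((m + 1) / 3 : ℕ) : ℝ) := by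
        have : m ≤ 3 * ((m + 1) / 3) + 1 := by omega
        have h4 : (m : ℝ) ≤ 3 * (((m + 1) / 3 : ℕ) : ℝ) + 1 := by exact_mod_cast this
        linarith
      have hup2 : y (a + m) - y (a - 1 + 3 * ((m + 1) / 3)) ≤ 2 * ρ := by
        have h5 : a + m = a - 1 + 3 * ((m + 1) / 3) ∨ a + m = a - 1 + 3 * ((m + 1) / 3) + 1 ∨
            a + m = a - 1 + 3 * ((m + 1) / 3) + 1 + 1 := by omega
        rcases h5 with h5 | h5 | h5
        · rw [h5]
          linarith
        · rw [h5]
          have := hup (a - 1 + 3 * ((m + 1) / 3)) (by omega)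
          linarith
        · rw [h5]
          have h6 := hup (a - 1 + 3 * ((m + 1) / 3)) (by omega)
          have h7 := hup (a - 1 + 3 * ((m + 1) / 3) + 1) (by omega)
          linarith
      linarith)
    (by
      intro a m ha ham hv
      have h3 : m ≤ k + 1 := by
        by_contra hcon
        push Not at hcon
        refine hc a (by omega) fun i j hi hij hj => ?_
        exact h.arun (by norm_num) (by norm_num) a m ha ham (fun v h1 h2 => not_not.1 (hv v h1 h2))
          (j - i) i j hi hij (by omega) (by omega)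
      exact_mod_cast h3) hup W hW le_rfl
  have hκ : 0 ≤ (40 / 3 + ρ) * ((k : ℝ) + 1) := by positivity
  have hmul := mul_le_mul_of_nonneg_right hθ
    (show (0 : ℝ) ≤ (40 / 3 + ρ) * ((k : ℝ) + 1) + (Rx + 2 * ρ + 40 / 3) by positivity)
  by_cases hP : 2 ≤ W ∧ ¬ A (W - 1 - 1) (W - 1 + 1)
  · have h3 := h2 hP
    have h4 := hlow W le_rfl
    linarith
  · have h3 : W = 1 ∨ ¬ ¬ A (W - 1 - 1) (W - 1 + 1) := by
      by_cases hW1 : W = 1
      · exact Or.inl hW1
      · right
        intro h4
        exact hP ⟨by omega, h4⟩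
    have h4 := h1 h3
    have h5 := hlow (W - 1) (by omega)
    linarith

end Pool.Agent.SulK
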