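import Pool.Agent.SulK.End2
import Pool.Agent.Sul.GM

/-!
# MP_109285_co (Sullivan), end of the K-law proof, module End3: from the law to the theorem

`LawN` is the K-law in the normalisation gain `20`, tolerance `1`.
-/

set_option autoImplicit false

open Finset

namespace Pool.Agent.SulK

open Pool.Agent.Sul

/-- The K-law for the closure `Gc x y 20`: the number of maximal runs of type S vertices in `(0, W)`
is at most `(x_W - min x) + (y_0 - min y)`. -/
def LawN : Prop :=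
  ∀ (x y : ℕ → ℝ) (W : ℕ), 1 ≤ W → SysN (Gc x y 20) x y 20 1 W → ∀ B₁ B₂ : ℝ,
    (∀ i, i ≤ W → x W - x i ≤ B₁) → (∀ i, i ≤ W → y 0 - y i ≤ B₂) →
    ((starts (fun v => ¬ Gc x y 20 (v - 1) (v + 1)) W).card : ℝ) ≤ B₁ + B₂

/-- The closure is contained in every system. -/
theorem SysN.closure {A : ℕ → ℕ → Prop} {x y : ℕ → ℝ} {M T : ℝ} {W : ℕ} (h : SysN A x y M T W) :
    ∀ i j, Gc x y M i j → j ≤ W → A i j := by
  intro i j hg
  induction hg with
  | unit i => exact fun hW => h.unit i (by omega)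
  | right i j hg hb ih =>
    intro hW
    rcases h.right i j (Gc.lt hg) hW (ih (by omega)) with h1 | h1
    · exact h1
    · exact absurd h1 hb
  | left i j hg hb ih =>
    intro hW
    rcases h.left i j (Gc.lt hg) hW (ih hW) with h1 | h1
    · exact h1
    · exact absurd h1 hb

/-- The closure is a system itself. -/
theorem SysN.toGc {A : ℕ → ℕ → Prop} {x y : ℕ → ℝ} {M T : ℝ} {W : ℕ} (h : SysN A x y M T W) :
    SysN (Gc x y M) x y M T W := by
  refine ⟨fun i _ => Gc.unit i, fun i j _ _ hg => ?_, fun i j _ _ hg => ?_,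
    fun i j hij hj hg l hl1 hl2 => h.feas i j hij hj (h.closure i j hg hj) l hl1 hl2⟩
  · by_cases hb : Bad x y M i (j + 1)
    · exact Or.inr hb
    · exact Or.inl (Gc.right i j hg hb)
  · by_cases hb : Bad x y M i j
    · exact Or.inr hb
    · exact Or.inl (Gc.left i j hg hb)

theorem SysN.scale {A : ℕ → ℕ → Prop} {x y : ℕ → ℝ} {δ : ℝ} {W : ℕ} (hδ : 0 < δ)
    (h : SysN A x y (20 * δ) δ W) : SysN A (fun i => x i / δ) (fun i => y i / δ) 20 1 W := by
  have hb : ∀ i j, Bad x y (20 * δ) i j → Bad (fun i => x i / δ) (fun i => y i / δ) 20 i j := by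
    intro i j hb l h1 h2
    have h3 := hb l h1 h2
    have e1 : x l / δ + y (l + 1) / δ + 20 = (x l + y (l + 1) + 20 * δ) / δ := by
      field_simp
    have e2 : x j / δ + y i / δ = (x j + y i) / δ := by
      field_simp
    show x l / δ + y (l + 1) / δ + 20 ≤ x j / δ + y i / δ
    rw [e1, e2]
    exact div_le_div_of_nonneg_right h3 hδ.le
  refine ⟨h.unit, fun i j h1 h2 h3 => ?_, fun i j h1 h2 h3 => ?_, fun i j h1 h2 h3 l h4 h5 => ?_⟩
  · rcases h.right i j h1 h2 h3 with h4 | h4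
    · exact Or.inl h4
    · exact Or.inr (hb _ _ h4)
  · rcases h.left i j h1 h2 h3 with h4 | h4
    · exact Or.inl h4
    · exact Or.inr (hb _ _ h4)
  · have h6 := h.feas i j h1 h2 h3 l h4 h5
    have e1 : x l / δ + y (l + 1) / δ = (x l + y (l + 1)) / δ := by
      field_simp
    have e2 : x i / δ + y j / δ + 1 = (x i + y j + δ) / δ := by
      field_simp
    show x l / δ + y (l + 1) / δ ≤ x i / δ + y j / δ + 1
    rw [e1, e2]
    exact div_le_div_of_nonneg_right h6 hδ.le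

/-- The choice of the parameters. -/
theorem params (R : ℝ) (hR : 0 ≤ R) : ∃ (W k : ℕ) (δ : ℝ), 1 ≤ W ∧ 2 ≤ δ ∧
    Real.log (8 * ((W : ℝ) + 1) ^ 3) ≤ δ ∧ Real.log (4 * ((W : ℝ) + 1)) ≤ δ ∧
    4 * ((W : ℝ) + 1) * Real.exp R ≤ 2 ^ k ∧
    1 + (1 + R) * (3 * (1 + R) / 40 + 1 + (k + 1)) + (k + 1) < (W : ℝ) ∧
    Real.exp (21 * δ) ≤ (10 * (1 + R)) ^ 126 := by
  obtain ⟨u, hu⟩ : ∃ u, u = 1 + R := ⟨_, rfl⟩
  have hu1 : 1 ≤ u := by linarith
  have huu : 1 ≤ u ^ 2 := one_le_pow₀ hu1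
  obtain ⟨W, hW⟩ : ∃ W : ℕ, W = ⌈40 * u ^ 2⌉₊ := ⟨_, rfl⟩
  have hW1 : 40 * u ^ 2 ≤ (W : ℝ) := by rw [hW]; exact Nat.le_ceil _
  have hW2 : (W : ℝ) < 40 * u ^ 2 + 1 := by
    rw [hW]
    exact Nat.ceil_lt_add_one (by positivity)
  have hW3 : (W : ℝ) + 1 ≤ 42 * u ^ 2 := by linarith
  have hW4 : (40 : ℝ) ≤ W := by linarith
  have hWn : 1 ≤ W := by
    have : (1 : ℝ) ≤ W := by linarith
    exact_mod_cast this
  set l : ℝ := Real.log 2 with hl
  have hl1 : (0.6931471803 : ℝ) < l := Real.log_two_gt_d9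
  have hl2 : l < (0.6931471808 : ℝ) := Real.log_two_lt_d9
  have hl0 : 0 < l := by linarith
  obtain ⟨δ, hδ⟩ : ∃ δ, δ = Real.log (8 * ((W : ℝ) + 1) ^ 3) := ⟨_, rfl⟩
  have hexp : Real.exp δ = 8 * ((W : ℝ) + 1) ^ 3 := by
    rw [hδ, Real.exp_log (by positivity)]
  have hlog4 : Real.log (4 * ((W : ℝ) + 1)) ≤ 8 * l + 2 * (u - 1) := by
    have h1 : 4 * ((W : ℝ) + 1) ≤ 2 ^ 8 * u ^ 2 := by linarith
    have h2 := Real.log_le_log (by positivity) h1
    have e : Real.log (2 ^ 8 * u ^ 2) = 8 * l + 2 * Real.log u := by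
      rw [Real.log_mul (by positivity) (by positivity), Real.log_pow, Real.log_pow]
      push_cast
      ring
    have h3 := Real.log_le_sub_one_of_pos (show (0 : ℝ) < u by linarith)
    linarith
  obtain ⟨k, hk⟩ : ∃ k : ℕ, k = ⌈(Real.log (4 * ((W : ℝ) + 1)) + R) / l⌉₊ := ⟨_, rfl⟩
  have hlog40 : 0 ≤ Real.log (4 * ((W : ℝ) + 1)) := Real.log_nonneg (by linarith)
  have hk1 : (Real.log (4 * ((W : ℝ) + 1)) + R) / l ≤ k := by rw [hk]; exact Nat.le_ceil _
  have hk2 : (k : ℝ) < (Real.log (4 * ((W : ℝ) + 1)) + R) / l + 1 := by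
    rw [hk]
    exact Nat.ceil_lt_add_one (by positivity)
  have hk3 : (k : ℝ) ≤ 9 + 5 * (u - 1) := by
    have h1 : (Real.log (4 * ((W : ℝ) + 1)) + R) / l ≤ 8 + 5 * (u - 1) := by
      rw [div_le_iff₀ hl0]
      have h2 : 3 * (u - 1) ≤ 5 * (u - 1) * l := by nlinarith
      have e : R = u - 1 := by linarith
      rw [e]
      nlinarith
    linarith
  refine ⟨W, k, δ, hWn, ?_, hδ.ge, ?_, ?_, ?_, ?_⟩
  · rw [hδ]
    have h1 : (2 : ℝ) ^ 3 ≤ 8 * ((W : ℝ) + 1) ^ 3 := by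
      have : (1 : ℝ) ≤ ((W : ℝ) + 1) ^ 3 := one_le_pow₀ (by linarith)
      linarith
    have h2 := Real.log_le_log (by norm_num) h1
    rw [Real.log_pow] at h2
    push_cast at h2
    linarith
  · rw [hδ]
    refine Real.log_le_log (by positivity) ?_
    have h1 : (1 : ℝ) ≤ (W : ℝ) + 1 := by linarith
    have h2 : ((W : ℝ) + 1) * 1 ≤ ((W : ℝ) + 1) * ((W : ℝ) + 1) ^ 2 :=
      mul_le_mul_of_nonneg_left (one_le_pow₀ h1) (by linarith)
    have h3 : ((W : ℝ) + 1) * ((W : ℝ) + 1) ^ 2 = ((W : ℝ) + 1) ^ 3 := by ring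
    linarith
  · have h1 : Real.log (4 * ((W : ℝ) + 1)) + R ≤ k * l := by
      rwa [div_le_iff₀ hl0] at hk1
    have h2 := Real.exp_le_exp.2 h1
    rw [Real.exp_add, Real.exp_log (by positivity)] at h2
    refine h2.trans (le_of_eq ?_)
    rw [hl, Real.exp_nat_mul, Real.exp_log (by norm_num)]
  · rw [← hu]
    have h1 : u ≤ u ^ 2 := by nlinarith
    have h2 : u * (3 * u / 40 + 1 + ((k : ℝ) + 1)) ≤ u * (3 * u / 40 + 1 + (10 + 5 * (u - 1))) :=
      mul_le_mul_of_nonneg_left (by linarith) (by linarith)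
    nlinarith
  · rw [← hu]
    have h1 : Real.exp (21 * δ) = (2 * ((W : ℝ) + 1)) ^ 63 := by
      have e : (21 : ℝ) * δ = ((21 : ℕ) : ℝ) * δ := by norm_num
      rw [e, Real.exp_nat_mul, hexp]
      ring
    have h2 : (10 * u) ^ 126 = (100 * u ^ 2) ^ 63 := by
      have e : (100 : ℝ) * u ^ 2 = (10 * u) ^ 2 := by ring
      rw [e, ← pow_mul]
    rw [h1, h2]
    exact pow_le_pow_left₀ (by positivity) (by linarith) _

theorem final (law : LawN) (n : ℕ) (adj : Fin n → Fin n → Prop) (hn : 0 < n)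
    (has : ∀ x y, adj x y → ¬ adj y x) (d : ℝ) (hd : 0 < d)
    (hdeg : ∀ v, d ≤ ({u | adj u v}.ncard : ℝ)) :
    ∃ v, ({u | adj u v}.ncard : ℝ) ≤ (10 * (1 + Real.log (n / d))) ^ 126 *
      ({w | w ≠ v ∧ ¬ adj v w ∧ ∃ u, adj v u ∧ adj u w}.ncard : ℝ) := by
  have : Nonempty (Fin n) := ⟨⟨0, hn⟩⟩
  have hn' : (0 : ℝ) < n := by exact_mod_cast hn
  have hdn : d ≤ n := by
    refine (hdeg ⟨0, hn⟩).trans ?_
    have h1 : ({u | adj u ⟨0, hn⟩} : Set (Fin n)).ncard ≤ (Set.univ : Set (Fin n)).ncard :=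
      Set.ncard_le_ncard (Set.subset_univ _) Set.finite_univ
    rw [Set.ncard_univ, Nat.card_eq_fintype_card, Fintype.card_fin] at h1
    exact_mod_cast h1
  have hnd : 1 ≤ (n : ℝ) / d := by rwa [one_le_div hd]
  have hR : 0 ≤ Real.log (n / d) := Real.log_nonneg hnd
  obtain ⟨R, hRdef⟩ : ∃ R, R = Real.log (n / d) := ⟨_, rfl⟩
  rw [← hRdef] at hR ⊢
  obtain ⟨W, k, δ, hW1, hδ2, hδ8, hδ4, hk, hW, hexp⟩ := params R hR
  have hδ0 : 0 < δ := by linarith
  by_contra hcon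
  push Not at hcon
  have hγ : ∀ v, n2 adj v ≤ Real.exp (-((20 + 1) * δ)) * dg adj v := by
    intro v
    have h1 : (10 * (1 + R)) ^ 126 * n2 adj v < dg adj v := hcon v
    have hn2 : 0 ≤ n2 adj v := Nat.cast_nonneg _
    have h2 : Real.exp (21 * δ) * n2 adj v ≤ dg adj v :=
      (mul_le_mul_of_nonneg_right hexp hn2).trans h1.le
    have h3 : Real.exp (-((20 + 1) * δ)) * (Real.exp (21 * δ) * n2 adj v) ≤
        Real.exp (-((20 + 1) * δ)) * dg adj v :=
      mul_le_mul_of_nonneg_left h2 (Real.exp_pos _).le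
    rw [← mul_assoc, ← Real.exp_add] at h3
    have e : -((20 + 1) * δ) + 21 * δ = 0 := by ring
    rw [e, Real.exp_zero, one_mul] at h3
    exact h3
  obtain ⟨A, x, y, hsys, hcl, hrange⟩ := exists_sys adj has d hd hdeg δ 20 W k hδ8
    (by
      rw [Fintype.card_fin]
      have h1 : (n : ℝ) / d = Real.exp R := by
        rw [hRdef, Real.exp_log (by positivity)]
      rw [h1]
      exact hk) hγ
  rw [Fintype.card_fin] at hrange
  have hlogn : R = Real.log n - Real.log d := by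
    rw [hRdef, Real.log_div hn'.ne' hd.ne']
  have hs0 := hsys.scale hδ0
  have hs := hs0.toGc
  have hx : ∀ i j, i ≤ W → j ≤ W → x i / δ - x j / δ ≤ R / δ := by
    intro i j hi hj
    rw [← sub_div]
    refine div_le_div_of_nonneg_right ?_ hδ0.le
    have h1 := hrange i hi
    have h2 := hrange j hj
    linarith
  have hy : ∀ i j, i ≤ W → j ≤ W → y i / δ - y j / δ ≤ (R + δ) / δ := by
    intro i j hi hj
    rw [← sub_div]
    refine div_le_div_of_nonneg_right ?_ hδ0.le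
    have h1 := hrange i hi
    have h2 := hrange j hj
    linarith
  have hB : R / δ + (R + δ) / δ ≤ 1 + R := by
    have e : R / δ + (R + δ) / δ = 2 * R / δ + 1 := by
      field_simp
      ring
    rw [e]
    have : 2 * R / δ ≤ R := by
      rw [div_le_iff₀ hδ0]
      nlinarith
    linarith
  have hlaw := law (fun i => x i / δ) (fun i => y i / δ) W hW1 hs (R / δ) ((R + δ) / δ)
    (fun i hi => hx W i le_rfl hi) (fun i hi => hy 0 i (Nat.zero_le _) hi)
  have hwin := hs.window (by norm_num) (by norm_num) k (1 + R) (1 + R) (by linarith)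
    (by
      intro i j hi hj
      have h1 := hx i j hi hj
      have h2 := hy j i hj hi
      show x i / δ - y i / δ - (x j / δ - y j / δ) ≤ 1 + R
      linarith)
    (by
      intro i hi hall
      refine hcl i hi fun a b h1 h2 h3 => ?_
      exact hs0.closure a b (hall a b h1 h2 h3) (by omega)) (by linarith)
  have e : (3 : ℝ) * (1 + R) / (2 * 20) = 3 * (1 + R) / 40 := by ring
  rw [e] at hwin
  linarith

end Pool.Agent.SulK
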