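import Pool.Agent.SulK.DS
import Pool.Agent.SulK.End3

/-!
# MP_109285_co (Sullivan), end of the K-law proof, module End4: from `ℤ` to `ℕ`

`law` (module DS) implies `LawN` (module End3).
-/

set_option autoImplicit false

open Finset

namespace Pool.Agent.SulK

/-- Extension to `ℤ`. -/
def zx (x : ℕ → ℝ) : ℤ → ℝ := fun i => x i.toNat

theorem zx_cast (x : ℕ → ℝ) (i : ℕ) : zx x (i : ℤ) = x i := by
  simp [zx]

theorem bad_zx (x y : ℕ → ℝ) (i j : ℕ) :
    Bad (zx x) (zx y) (i : ℤ) (j : ℤ) ↔ Pool.Agent.Sul.Bad x y 20 i j := by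
  constructor
  · intro h k h1 h2
    have h3 := h (k : ℤ) (by omega) (by omega)
    have e : ((k : ℤ) + 1) = ((k + 1 : ℕ) : ℤ) := by push_cast; rfl
    rw [e, zx_cast, zx_cast, zx_cast, zx_cast] at h3
    exact h3
  · intro h k h1 h2
    obtain ⟨m, rfl⟩ : ∃ m : ℕ, k = (m : ℤ) := ⟨k.toNat, by omega⟩
    have h3 := h m (by omega) (by omega)
    have e : ((m : ℤ) + 1) = ((m + 1 : ℕ) : ℤ) := by push_cast; rfl
    rw [e, zx_cast, zx_cast, zx_cast, zx_cast]
    exact h3

theorem G_zx_aux (x y : ℕ → ℝ) (I J : ℤ) (h : G (zx x) (zx y) I J) :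
    0 ≤ I → Pool.Agent.Sul.Gc x y 20 I.toNat J.toNat := by
  induction h with
  | unit i =>
    intro hi
    have e : (i + 1).toNat = i.toNat + 1 := by omega
    rw [e]
    exact Pool.Agent.Sul.Gc.unit _
  | right i j hg hb ih =>
    intro hi
    have hlt := hg.lt
    have e : (j + 1).toNat = j.toNat + 1 := by omega
    rw [e]
    refine Pool.Agent.Sul.Gc.right _ _ (ih hi) fun hb' => hb ?_
    have h1 := (bad_zx x y i.toNat (j.toNat + 1)).2 hb'
    have e1 : ((i.toNat : ℕ) : ℤ) = i := by omega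
    have e2 : ((j.toNat + 1 : ℕ) : ℤ) = j + 1 := by omega
    rwa [e1, e2] at h1
  | left i j hg hb ih =>
    intro hi
    have hlt := hg.lt
    have e : (i + 1).toNat = i.toNat + 1 := by omega
    have h0 := ih (by omega)
    rw [e] at h0
    refine Pool.Agent.Sul.Gc.left _ _ h0 fun hb' => hb ?_
    have h1 := (bad_zx x y i.toNat j.toNat).2 hb'
    have e1 : ((i.toNat : ℕ) : ℤ) = i := by omega
    have e2 : ((j.toNat : ℕ) : ℤ) = j := by omega
    rwa [e1, e2] at h1

theorem G_zx (x y : ℕ → ℝ) (i j : ℕ) :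
    G (zx x) (zx y) (i : ℤ) (j : ℤ) ↔ Pool.Agent.Sul.Gc x y 20 i j := by
  constructor
  · intro h
    have h1 := G_zx_aux x y _ _ h (by omega)
    simpa using h1
  · intro h
    induction h with
    | unit i =>
      push_cast
      exact G.unit _
    | right i j hg hb ih =>
      have h1 := G.right _ _ ih (fun hb' => hb ?_)
      · push_cast
        exact h1
      · refine (bad_zx x y i (j + 1)).1 ?_
        push_cast
        exact hb'
    | left i j hg hb ih =>
      push_cast at ih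
      exact G.left _ _ ih fun hb' => hb ((bad_zx x y i j).1 hb')

theorem lawN : LawN := by
  classical
  intro x y W hW hs B₁ B₂ h1 h2
  have hf : Feas (zx x) (zx y) ((0 : ℕ) : ℤ) (W : ℤ) := by
    intro i j hi hj hg k hk1 hk2
    obtain ⟨i', rfl⟩ : ∃ m : ℕ, i = (m : ℤ) := ⟨i.toNat, by omega⟩
    obtain ⟨k', rfl⟩ : ∃ m : ℕ, k = (m : ℤ) := ⟨k.toNat, by omega⟩
    obtain ⟨j', rfl⟩ : ∃ m : ℕ, j = (m : ℤ) := ⟨j.toNat, by omega⟩
    have hlt := hg.lt
    have h3 := hs.feas i' j' (by omega) (by omega) ((G_zx x y i' j').1 hg) k' (by omega) (by omega)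
    have e : ((k' : ℤ) + 1) = ((k' + 1 : ℕ) : ℤ) := by push_cast; rfl
    rw [e, zx_cast, zx_cast, zx_cast, zx_cast]
    exact h3
  have hlaw := law (zx x) (zx y) ((0 : ℕ) : ℤ) (W : ℤ) (by omega) hf
  -- the slack
  have hD : D (zx x) (zx y) ((0 : ℕ) : ℤ) (W : ℤ) ≤ B₁ + B₂ := by
    have ha : x W - B₁ ≤ al (zx x) (zx y) ((0 : ℕ) : ℤ) (W : ℤ) := by
      unfold al Al
      refine le_trans ?_ (mn_le_af _)
      refine le_mn ?_ fun t ht1 ht2 => ?_
      · rw [zx_cast]
        have := h1 0 (Nat.zero_le _)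
        linarith
      · obtain ⟨m, rfl⟩ : ∃ m : ℕ, t = (m : ℤ) := ⟨t.toNat, by omega⟩
        rw [zx_cast]
        have := h1 m (by omega)
        linarith
    have hb : y 0 - B₂ ≤ be (zx x) (zx y) ((0 : ℕ) : ℤ) (W : ℤ) := by
      unfold be Be Al
      refine le_trans ?_ (mn_le_af _)
      refine le_mn ?_ fun t ht1 ht2 => ?_
      · rw [zx_cast]
        have := h2 W le_rfl
        linarith
      · obtain ⟨m, hm⟩ : ∃ m : ℕ, -t = (m : ℤ) := ⟨(-t).toNat, by omega⟩
        unfold rv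
        rw [hm, zx_cast]
        have := h2 m (by omega)
        linarith
    unfold D
    rw [zx_cast, zx_cast]
    linarith
  -- the number of runs
  have hth : (starts (fun v => ¬ Pool.Agent.Sul.Gc x y 20 (v - 1) (v + 1)) W).card ≤
      th (zx x) (zx y) ((0 : ℕ) : ℤ) (W : ℤ) := by
    have htS : ∀ v : ℕ, 1 ≤ v →
        (tS (zx x) (zx y) (v : ℤ) ↔ ¬ Pool.Agent.Sul.Gc x y 20 (v - 1) (v + 1)) := by
      intro v hv
      unfold tS
      have e1 : (v : ℤ) - 1 = ((v - 1 : ℕ) : ℤ) := by omega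
      have e2 : (v : ℤ) + 1 = ((v + 1 : ℕ) : ℤ) := by push_cast; rfl
      rw [e1, e2, G_zx]
    unfold th starts
    refine Finset.card_le_card_of_injOn (fun v : ℕ => (v : ℤ)) (fun v hv => ?_)
      (fun a _ b _ hab => by simpa using hab)
    simp only [Finset.coe_filter, Finset.mem_Ico, Set.mem_ofPred_eq, Finset.mem_Ioo] at hv ⊢
    obtain ⟨⟨hv1, hv2⟩, hv3, hv4⟩ := hv
    refine ⟨⟨by omega, by omega⟩, (htS v hv1).2 hv3, ?_⟩
    rcases hv4 with hv4 | hv4
    · left
      subst hv4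
      rfl
    · rcases Nat.eq_or_lt_of_le hv1 with h5 | h5
      · left
        omega
      · right
        have e1 : (v : ℤ) - 1 = ((v - 1 : ℕ) : ℤ) := by omega
        rw [e1, htS (v - 1) (by omega)]
        exact hv4
  have h3 : ((starts (fun v => ¬ Pool.Agent.Sul.Gc x y 20 (v - 1) (v + 1)) W).card : ℝ) ≤
      (th (zx x) (zx y) ((0 : ℕ) : ℤ) (W : ℤ) : ℝ) := by exact_mod_cast hth
  linarith

end Pool.Agent.SulK
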