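import Pool.Agent.SulK.Avg1
import Pool.Agent.SulK.Avg2
import Pool.Agent.SulK.End4

/-!
# MP_109285_co (Sullivan), ratio form, module Avg3: averaging over stationary windows

`f a = min of y on [a, a + W]` decreases by `c δ` from `a = 0` to `a = W` outside an event of
probability `ε`, its increase has an exponential tail, and its expectation does not change.
-/

set_option autoImplicit false

open Finset

namespace Pool.Agent.SulK

open Pool.Agent.Sul

variable {V : Type} [Fintype V]

/-! ### Linearity and monotonicity -/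

theorem Ex_add (K : V → V → ℝ) (n : ℕ) (v : V) (F G : (ℕ → V) → ℝ) :
    Ex K n v (fun g => F g + G g) = Ex K n v F + Ex K n v G := by
  induction n generalizing v F G with
  | zero => rfl
  | succ n ih =>
    show ∑ w, K v w * Ex K n w (fun g => F (cons v g) + G (cons v g)) =
      ∑ w, K v w * Ex K n w (fun g => F (cons v g)) + ∑ w, K v w * Ex K n w (fun g => G (cons v g))
    rw [← sum_add_distrib]
    refine sum_congr rfl fun w _ => ?_
    rw [ih w (fun g => F (cons v g)) (fun g => G (cons v g))]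
    ring

theorem Ep_add (K : V → V → ℝ) (π : V → ℝ) (n : ℕ) (F G : (ℕ → V) → ℝ) :
    Ep K π n (fun g => F g + G g) = Ep K π n F + Ep K π n G := by
  unfold Ep
  rw [← sum_add_distrib]
  exact sum_congr rfl fun v _ => by rw [Ex_add]; ring

theorem Ep_mul_left (K : V → V → ℝ) (π : V → ℝ) (n : ℕ) (c : ℝ) (F : (ℕ → V) → ℝ) :
    Ep K π n (fun g => c * F g) = c * Ep K π n F := by
  unfold Ep
  rw [mul_sum]
  exact sum_congr rfl fun v _ => by rw [Ex_mul_left]; ring

theorem Ep_sum (K : V → V → ℝ) (π : V → ℝ) (n : ℕ) {ι : Type} (s : Finset ι)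
    (F : ι → (ℕ → V) → ℝ) :
    Ep K π n (fun g => ∑ e ∈ s, F e g) = ∑ e ∈ s, Ep K π n (F e) := by
  unfold Ep
  rw [sum_comm]
  refine sum_congr rfl fun v _ => ?_
  rw [Ex_sum, mul_sum]

theorem Ep_const {K : V → V → ℝ} {π : V → ℝ} (h : Chain K π) (n : ℕ) (c : ℝ) :
    Ep K π n (fun _ => c) = c := by
  unfold Ep
  rw [sum_congr rfl fun v _ => by rw [Ex_const h.row], ← sum_mul, h.psum, one_mul]

theorem Ep_mono {K : V → V → ℝ} {π : V → ℝ} (h : Chain K π) (n : ℕ) (F G : (ℕ → V) → ℝ)
    (hFG : ∀ g : ℕ → V, 0 < π (g 0) → (∀ i, i < n → 0 < K (g i) (g (i + 1))) → F g ≤ G g) :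
    Ep K π n F ≤ Ep K π n G := by
  unfold Ep
  refine sum_le_sum fun v _ => ?_
  rcases (h.pnn v).eq_or_lt with h0 | h0
  · rw [← h0, zero_mul, zero_mul]
  · exact mul_le_mul_of_nonneg_left
      (Ex_mono h.knn n v F G fun g hg hs => hFG g (by rw [hg]; exact h0) hs) h0.le

theorem Ep_union {K : V → V → ℝ} {π : V → ℝ} (h : Chain K π) (n : ℕ) {ι : Type} (s : Finset ι)
    (B : ι → (ℕ → V) → Prop) :
    Ep K π n (fun g => ind (∃ e ∈ s, B e g)) ≤ ∑ e ∈ s, Ep K π n (fun g => ind (B e g)) := by
  classical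
  rw [← Ep_sum]
  refine Ep_mono h n _ _ fun g _ _ => ?_
  have hnn : ∀ e ∈ s, 0 ≤ ind (B e g) := fun e _ => by
    unfold ind
    split_ifs
    · exact zero_le_one
    · exact le_rfl
  by_cases hc : ∃ e ∈ s, B e g
  · obtain ⟨e, he, hb⟩ := hc
    have h1 : ind (∃ e ∈ s, B e g) = ind (B e g) := by
      unfold ind
      rw [if_pos ⟨e, he, hb⟩, if_pos hb]
    rw [h1]
    exact Finset.single_le_sum (f := fun e => ind (B e g)) hnn he
  · have h1 : ind (∃ e ∈ s, B e g) = 0 := by
      unfold ind
      rw [if_neg hc]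
    rw [h1]
    exact Finset.sum_nonneg hnn

/-! ### The minimum over a window -/

/-- The minimum of `log π` on `[0, W]`. -/
noncomputable def fmin (π : V → ℝ) (W : ℕ) (g : ℕ → V) : ℝ :=
  (range (W + 1)).inf' ⟨0, by simp⟩ (fun t => Real.log (π (g t)))

omit [Fintype V] in
theorem fmin_le (π : V → ℝ) (W : ℕ) (g : ℕ → V) (t : ℕ) (ht : t ≤ W) :
    fmin π W g ≤ Real.log (π (g t)) := by
  unfold fmin
  exact Finset.inf'_le _ (by simp only [mem_range]; omega)

omit [Fintype V] in
theorem fmin_attained (π : V → ℝ) (W : ℕ) (g : ℕ → V) :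
    ∃ s, s ≤ W ∧ fmin π W g = Real.log (π (g s)) := by
  unfold fmin
  obtain ⟨s, hs, he⟩ := Finset.exists_mem_eq_inf' (s := range (W + 1)) ⟨0, by simp⟩
    (fun t => Real.log (π (g t)))
  simp only [mem_range] at hs
  exact ⟨s, by omega, he⟩

omit [Fintype V] in
/-- The good event implies that the minimum falls. -/
theorem fall (adj : V → V → Prop) (has : ∀ x y, adj x y → ¬ adj y x) (π : V → ℝ)
    (g : ℕ → V) (δ c R ρ : ℝ) (W k : ℕ) (hW : 1 ≤ W) (hδ : 0 < δ) (hR : 0 ≤ R) (hρ : 0 ≤ ρ)
    (hstep : ∀ i, i < 2 * W → adj (g (i + 1)) (g i))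
    (hS : ∀ i l j, i ≤ l → l < j → j ≤ 2 * W → g i ≠ g j → ¬ adj (g j) (g i) →
      (∃ u, adj (g j) u ∧ adj u (g i)) →
      Real.log (dg adj (g l)) + Real.log (π (g (l + 1))) + 20 * δ ≤
        Real.log (dg adj (g j)) + Real.log (π (g i)))
    (hA : ∀ i l j, i ≤ l → l < j → j ≤ 2 * W → adj (g j) (g i) →
      Real.log (dg adj (g l)) + Real.log (π (g (l + 1))) ≤
        Real.log (dg adj (g i)) + Real.log (π (g j)) + δ)
    (hup : ∀ i, i < 2 * W → Real.log (π (g (i + 1))) ≤ Real.log (π (g i)) + ρ * δ)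
    (hcl : ∀ i, i + k + 1 ≤ 2 * W → ¬ ∀ a b, i ≤ a → a < b → b ≤ i + k + 1 → adj (g b) (g a))
    (hx : ∀ i j, i ≤ 2 * W → j ≤ 2 * W →
      Real.log (dg adj (g i)) - Real.log (dg adj (g j)) ≤ R)
    (hnum : (R / δ + c) * ((40 / 3 + ρ) * (k + 1) + (R / δ + 2 * ρ + 40 / 3)) +
      (40 / 3 + ρ) * (k + 1) + c < 40 / 3 * ((W : ℝ) - 1)) (hc : 0 ≤ c) :
    fmin π W (fun i => g (W + i)) ≤ fmin π W g - c * δ := by
  by_contra hcon
  push Not at hcon
  obtain ⟨s, hs, hmin⟩ := fmin_attained π W g
  have hy : ∀ t, t ≤ W → Real.log (π (g s)) - Real.log (π (g (s + t))) ≤ c * δ := by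
    intro t ht
    rcases Nat.lt_or_ge (s + t) (W + 1) with h1 | h1
    · have h2 := fmin_le π W g (s + t) (by omega)
      have h3 : 0 ≤ c * δ := by positivity
      rw [hmin] at h2
      linarith
    · have h2 := fmin_le π W (fun i => g (W + i)) (s + t - W) (by omega)
      have e : W + (s + t - W) = s + t := by omega
      simp only [e] at h2
      rw [hmin] at hcon
      linarith
  -- the system on `[s, s + W]`
  have hsys : SysN (fun i j => adj (g (s + j)) (g (s + i)))
      (fun i => Real.log (dg adj (g (s + i)))) (fun i => Real.log (π (g (s + i)))) (20 * δ) δ W := by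
    refine ⟨fun i hi => ?_, fun i j hij hj hAij => ?_, fun i j hij hj hAij => ?_,
      fun i j hij hj hAij l hl1 hl2 => ?_⟩
    · have := hstep (s + i) (by omega)
      rwa [add_assoc] at this
    · by_cases hc1 : adj (g (s + (j + 1))) (g (s + i))
      · exact Or.inl hc1
      · right
        intro l hl1 hl2
        have hstj := hstep (s + j) (by omega)
        rw [add_assoc] at hstj
        have h3 := hS (s + i) (s + l) (s + (j + 1)) (by omega) (by omega) (by omega)
          (by
            intro he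
            rw [he] at hAij
            exact has _ _ hAij hstj) hc1 ⟨g (s + j), hstj, hAij⟩
        rw [add_assoc s l 1] at h3
        exact h3
    · by_cases hc1 : adj (g (s + j)) (g (s + i))
      · exact Or.inl hc1
      · right
        intro l hl1 hl2
        have hsti := hstep (s + i) (by omega)
        rw [add_assoc] at hsti
        have h3 := hS (s + i) (s + l) (s + j) (by omega) (by omega) (by omega)
          (by
            intro he
            rw [← he] at hAij
            exact has _ _ hAij hsti) hc1 ⟨g (s + (i + 1)), hAij, hsti⟩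
        rw [add_assoc s l 1] at h3
        exact h3
    · have h3 := hA (s + i) (s + l) (s + j) (by omega) (by omega) (by omega) hAij
      rw [add_assoc s l 1] at h3
      exact h3
  have hs0 := hsys.scale hδ
  have hs1 := hs0.toGc
  have hxx : ∀ i j, i ≤ W → j ≤ W →
      Real.log (dg adj (g (s + i))) / δ - Real.log (dg adj (g (s + j))) / δ ≤ R / δ := by
    intro i j hi hj
    rw [← sub_div]
    exact div_le_div_of_nonneg_right (hx _ _ (by omega) (by omega)) hδ.le
  have hyy : ∀ t, t ≤ W →
      Real.log (π (g (s + 0))) / δ - Real.log (π (g (s + t))) / δ ≤ c := by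
    intro t ht
    rw [← sub_div, div_le_iff₀ hδ, add_zero]
    exact hy t ht
  have hlaw := lawN _ _ W hW hs1 (R / δ) c (fun i hi => hxx W i le_rfl hi) hyy
  have hwin := hs1.window2 hW k (R / δ) ρ c (R / δ + c) (by positivity) hρ hxx
    (by
      intro t ht
      rw [← sub_div, div_le_iff₀ hδ]
      have h3 := hup (s + t) (by omega)
      rw [add_assoc s t 1] at h3
      linarith) hyy
    (by
      intro i hi hall
      refine hcl (s + i) (by omega) fun a b h1 h2 h3 => ?_
      have h4 := hs0.closure (a - s) (b - s) (hall (a - s) (b - s) (by omega) (by omega) (by omega))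
        (by omega)
      have e1 : s + (a - s) = a := by omega
      have e2 : s + (b - s) = b := by omega
      simp only [e1, e2] at h4
      exact h4) hlaw
  linarith

end Pool.Agent.SulK
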