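import Pool.Agent.SulK.Avg3

/-!
# MP_109285_co (Sullivan), ratio form, module Avg4: the contradiction from stationarity
-/

set_option autoImplicit false

open Finset

namespace Pool.Agent.SulK

open Pool.Agent.Sul

variable {V : Type} [Fintype V]

theorem ratio_contra (adj : V → V → Prop) [Nonempty V] (has : ∀ x y, adj x y → ¬ adj y x)
    (d K b : ℝ) (hd : 0 < d) (hdeg : ∀ v, d ≤ dg adj v) (hΔ : ∀ v, dg adj v ≤ K * d) (hK : 1 ≤ K)
    (hb : ∀ w, ∑ v, Kb adj v w ≤ b) (hb1 : 1 ≤ b) (δ ε τ c ρ : ℝ) (W k : ℕ) (hW : 1 ≤ W)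
    (hδ : 0 < δ) (hε : 0 < ε) (hρ : ρ = Real.log b / δ + 1)
    (h1 : 8 * (2 * (W : ℝ) + 1) ^ 3 * Real.exp (-δ) ≤ ε)
    (h2 : 4 * (2 * (W : ℝ) + 1) * K ≤ ε * 2 ^ k)
    (h3 : (Real.log K / δ + c) * ((40 / 3 + ρ) * (k + 1) + (Real.log K / δ + 2 * ρ + 40 / 3)) +
      (40 / 3 + ρ) * (k + 1) + c < 40 / 3 * ((W : ℝ) - 1)) (hc : 0 ≤ c) (hτ : 0 ≤ τ)
    (h4 : (c * δ + τ) * ε + Real.exp (-τ) * (((W : ℝ) + 1) * b ^ W) < c * δ)
    (hγ : ∀ v, n2 adj v ≤ Real.exp (-(21 * δ)) * dg adj v) : False := by
  classical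
  have hpos : ∀ v, 0 < dg adj v := fun v => lt_of_lt_of_le hd (hdeg v)
  obtain ⟨π, h⟩ := exists_chain adj hpos
  have hb0 : 0 < b := by linarith
  have hlogb : 0 ≤ Real.log b := Real.log_nonneg hb1
  have hlogK : 0 ≤ Real.log K := Real.log_nonneg hK
  have hρ0 : 0 ≤ ρ := by rw [hρ]; positivity
  obtain ⟨N, hN⟩ : ∃ N, N = 2 * W := ⟨_, rfl⟩
  have hNr : (N : ℝ) + 1 = 2 * (W : ℝ) + 1 := by rw [hN]; push_cast; ring
  -- the index sets
  set s1 : Finset (ℕ × ℕ × ℕ) :=
    (Finset.range (N + 1) ×ˢ (Finset.range (N + 1) ×ˢ Finset.range (N + 1))).filter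
      (fun e => e.1 ≤ e.2.1 ∧ e.2.1 < e.2.2) with hs1
  set s4 : Finset ℕ := (Finset.range (N + 1)).filter (fun i => i + k + 1 ≤ N) with hs4
  set B1 : ℕ × ℕ × ℕ → (ℕ → V) → Prop := fun e g =>
    (g e.1 ≠ g e.2.2 ∧ ¬ adj (g e.2.2) (g e.1) ∧ ∃ u, adj (g e.2.2) u ∧ adj u (g e.1)) ∧
      Real.log (dg adj (g e.2.2)) + Real.log (π (g e.1)) <
        Real.log (dg adj (g e.2.1)) + Real.log (π (g (e.2.1 + 1))) + 20 * δ with hB1
  set B2 : ℕ × ℕ × ℕ → (ℕ → V) → Prop := fun e g =>
    adj (g e.2.2) (g e.1) ∧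
      Real.log (dg adj (g e.1)) + Real.log (π (g e.2.2)) + δ <
        Real.log (dg adj (g e.2.1)) + Real.log (π (g (e.2.1 + 1))) with hB2
  set B3 : ℕ → (ℕ → V) → Prop := fun i g =>
    Real.log (π (g i)) + (Real.log b + δ) < Real.log (π (g (i + 1))) with hB3
  set B4 : ℕ → (ℕ → V) → Prop := fun i g =>
    ∀ a b, i ≤ a → a < b → b ≤ i + k + 1 → adj (g b) (g a) with hB4
  have hcard1 : (s1.card : ℝ) ≤ (2 * (W : ℝ) + 1) ^ 3 := by
    have h1 : s1.card ≤ (N + 1) * ((N + 1) * (N + 1)) := by
      refine (Finset.card_filter_le _ _).trans ?_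
      rw [Finset.card_product, Finset.card_product, Finset.card_range]
    have h2 : (s1.card : ℝ) ≤ (((N + 1) * ((N + 1) * (N + 1)) : ℕ) : ℝ) := by exact_mod_cast h1
    refine h2.trans (le_of_eq ?_)
    push_cast
    rw [hNr]
    ring
  have hmul1 : (2 * (W : ℝ) + 1) ^ 3 * Real.exp (-δ) ≤ ε / 8 := by linarith
  have S1 : ∑ e ∈ s1, Ep (Kb adj) π N (fun g => ind (B1 e g)) ≤ ε / 8 := by
    calc ∑ e ∈ s1, Ep (Kb adj) π N (fun g => ind (B1 e g)) ≤ ∑ _e ∈ s1, Real.exp (-δ) := by
          refine Finset.sum_le_sum fun e he => ?_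
          simp only [hs1, Finset.mem_filter, Finset.mem_product, Finset.mem_range] at he
          have h1 := prob_second adj π h hpos (Real.exp (-(21 * δ))) (20 * δ)
            hγ e.1 e.2.1 e.2.2 N he.2.1 he.2.2 (by omega)
          refine h1.trans (le_of_eq ?_)
          rw [← Real.exp_add]
          congr 1
          ring
      _ = s1.card * Real.exp (-δ) := by rw [Finset.sum_const, nsmul_eq_mul]
      _ ≤ (2 * (W : ℝ) + 1) ^ 3 * Real.exp (-δ) :=
          mul_le_mul_of_nonneg_right hcard1 (Real.exp_pos _).le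
      _ ≤ ε / 8 := hmul1
  have S2 : ∑ e ∈ s1, Ep (Kb adj) π N (fun g => ind (B2 e g)) ≤ ε / 8 := by
    calc ∑ e ∈ s1, Ep (Kb adj) π N (fun g => ind (B2 e g)) ≤ ∑ _e ∈ s1, Real.exp (-δ) := by
          refine Finset.sum_le_sum fun e he => ?_
          simp only [hs1, Finset.mem_filter, Finset.mem_product, Finset.mem_range] at he
          exact prob_arc adj π h hpos δ e.1 e.2.1 e.2.2 N he.2.1 he.2.2 (by omega)
      _ = s1.card * Real.exp (-δ) := by rw [Finset.sum_const, nsmul_eq_mul]
      _ ≤ (2 * (W : ℝ) + 1) ^ 3 * Real.exp (-δ) :=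
          mul_le_mul_of_nonneg_right hcard1 (Real.exp_pos _).le
      _ ≤ ε / 8 := hmul1
  have S3 : ∑ e ∈ Finset.range N, Ep (Kb adj) π N (fun g => ind (B3 e g)) ≤ ε / 8 := by
    calc ∑ e ∈ Finset.range N, Ep (Kb adj) π N (fun g => ind (B3 e g))
        ≤ ∑ _e ∈ Finset.range N, Real.exp (-δ) := by
          refine Finset.sum_le_sum fun e he => ?_
          simp only [Finset.mem_range] at he
          exact prob_up adj π h b hb0 hb δ e N (by omega)
      _ = (N : ℝ) * Real.exp (-δ) := by
          rw [Finset.sum_const, nsmul_eq_mul, Finset.card_range]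
      _ ≤ (2 * (W : ℝ) + 1) ^ 3 * Real.exp (-δ) := by
          refine mul_le_mul_of_nonneg_right ?_ (Real.exp_pos _).le
          rw [← hNr]
          have h5 : (1 : ℝ) ≤ (N : ℝ) + 1 := by
            have : (0 : ℝ) ≤ N := Nat.cast_nonneg _
            linarith
          have h6 : ((N : ℝ) + 1) * 1 ≤ ((N : ℝ) + 1) * ((N : ℝ) + 1) ^ 2 :=
            mul_le_mul_of_nonneg_left (one_le_pow₀ h5) (by linarith)
          have h7 : ((N : ℝ) + 1) * ((N : ℝ) + 1) ^ 2 = ((N : ℝ) + 1) ^ 3 := by ring
          linarith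
      _ ≤ ε / 8 := hmul1
  have S4 : ∑ e ∈ s4, Ep (Kb adj) π N (fun g => ind (B4 e g)) ≤ ε / 4 := by
    have h5 : K * d / (2 ^ k * d) = K / 2 ^ k := by
      field_simp
    calc ∑ e ∈ s4, Ep (Kb adj) π N (fun g => ind (B4 e g)) ≤ ∑ _e ∈ s4, K / 2 ^ k := by
          refine Finset.sum_le_sum fun e he => ?_
          simp only [hs4, Finset.mem_filter, Finset.mem_range] at he
          rw [← h5]
          exact clique_prob' adj has π h d (K * d) hd hdeg hΔ e k N he.2
      _ = s4.card * (K / 2 ^ k) := by rw [Finset.sum_const, nsmul_eq_mul]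
      _ ≤ (2 * (W : ℝ) + 1) * (K / 2 ^ k) := by
          refine mul_le_mul_of_nonneg_right ?_ (by positivity)
          rw [← hNr]
          have h1 : s4.card ≤ N + 1 := (Finset.card_filter_le _ _).trans
            (le_of_eq (Finset.card_range _))
          exact_mod_cast h1
      _ ≤ ε / 4 := by
          rw [mul_div_assoc', div_le_iff₀ (by positivity)]
          linarith
  -- the bad event
  set s := (s1.disjSum s1).disjSum ((Finset.range N).disjSum s4) with hs
  set B : ((ℕ × ℕ × ℕ) ⊕ (ℕ × ℕ × ℕ)) ⊕ (ℕ ⊕ ℕ) → (ℕ → V) → Prop :=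
    Sum.elim (Sum.elim B1 B2) (Sum.elim B3 B4) with hB
  have hP : Ep (Kb adj) π N (fun g => ind (∃ e ∈ s, B e g)) ≤ ε := by
    refine (Ep_union h N s B).trans ?_
    rw [hs, Finset.sum_disjSum, Finset.sum_disjSum, Finset.sum_disjSum]
    simp only [hB, Sum.elim_inl, Sum.elim_inr]
    linarith
  -- the pointwise inequality
  have hpt : ∀ g : ℕ → V, 0 < π (g 0) → (∀ i, i < N → 0 < Kb adj (g i) (g (i + 1))) →
      fmin π W (fun i => g (W + i)) ≤ (fmin π W g + (-(c * δ))) +
        ((c * δ + τ) * ind (∃ e ∈ s, B e g) +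
          Real.exp (-τ) * ∑ t ∈ range (W + 1), π (g W) / π (g t)) := by
    intro g hg0 hgs
    have hcd : 0 ≤ c * δ := by positivity
    have hsum0 : 0 ≤ Real.exp (-τ) * ∑ t ∈ range (W + 1), π (g W) / π (g t) :=
      mul_nonneg (Real.exp_pos _).le (Finset.sum_nonneg fun t _ => div_nonneg (h.pnn _) (h.pnn _))
    by_cases hbad : ∃ e ∈ s, B e g
    · have hind : ind (∃ e ∈ s, B e g) = 1 := by
        unfold ind
        rw [if_pos hbad]
      rw [hind]
      obtain ⟨t, ht, hmin⟩ := fmin_attained π W g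
      have h5 := fmin_le π W (fun i => g (W + i)) 0 (Nat.zero_le _)
      simp only [add_zero] at h5
      have p1 := pi_pos h N g hg0 hgs W (by omega)
      have p2 := pi_pos h N g hg0 hgs t (by omega)
      have h6 : Real.exp (-τ) * (π (g W) / π (g t)) ≤
          Real.exp (-τ) * ∑ t ∈ range (W + 1), π (g W) / π (g t) := by
        refine mul_le_mul_of_nonneg_left ?_ (Real.exp_pos _).le
        exact Finset.single_le_sum (f := fun t => π (g W) / π (g t))
          (fun t _ => div_nonneg (h.pnn _) (h.pnn _)) (by simp only [mem_range]; omega)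
      have h7 : Real.exp (-τ) * (π (g W) / π (g t)) =
          Real.exp (Real.log (π (g W)) - Real.log (π (g t)) - τ) := by
        rw [Real.exp_sub, Real.exp_sub, Real.exp_log p1, Real.exp_log p2, Real.exp_neg]
        ring
      have h8 := Real.add_one_le_exp (Real.log (π (g W)) - Real.log (π (g t)) - τ)
      rw [← h7] at h8
      rw [hmin]
      linarith
    · have hgood : ∀ e ∈ s, ¬ B e g := fun e he hbe => hbad ⟨e, he, hbe⟩
      have G1 : ∀ e ∈ s1, ¬ B1 e g := fun e he =>
        hgood (Sum.inl (Sum.inl e)) (by simp [hs, he])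
      have G2 : ∀ e ∈ s1, ¬ B2 e g := fun e he =>
        hgood (Sum.inl (Sum.inr e)) (by simp [hs, he])
      have G3 : ∀ e ∈ Finset.range N, ¬ B3 e g := fun e he => by
        have h5 := hgood (Sum.inr (Sum.inl e)) (by
          rw [hs, Finset.inr_mem_disjSum, Finset.inl_mem_disjSum]
          exact he)
        exact h5
      have G4 : ∀ e ∈ s4, ¬ B4 e g := fun e he =>
        hgood (Sum.inr (Sum.inr e)) (by simp [hs, he])
      have hm1 : ∀ i l j, i ≤ l → l < j → j ≤ N → (i, l, j) ∈ s1 := by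
        intro i l j h1 h2 h3
        simp only [hs1, Finset.mem_filter, Finset.mem_product, Finset.mem_range]
        omega
      have hstep : ∀ i, i < N → adj (g (i + 1)) (g i) := by
        intro i hi
        have h1 := hgs i hi
        unfold Kb at h1
        by_contra hc
        rw [if_neg hc] at h1
        exact lt_irrefl _ h1
      have hfall := fall adj has π g δ c (Real.log K) ρ W k hW hδ hlogK hρ0
        (fun i hi => hstep i (by omega))
        (by
          intro i l j hil hlj hj h5 h6 h7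
          have h8 := G1 (i, l, j) (hm1 i l j hil hlj (by omega))
          by_contra hc
          push Not at hc
          exact h8 ⟨⟨h5, h6, h7⟩, hc⟩)
        (by
          intro i l j hil hlj hj hA
          have h8 := G2 (i, l, j) (hm1 i l j hil hlj (by omega))
          by_contra hc
          push Not at hc
          exact h8 ⟨hA, hc⟩)
        (by
          intro i hi
          have h8 := G3 i (by
            simp only [Finset.mem_range]
            omega)
          have h9 : ρ * δ = Real.log b + δ := by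
            rw [hρ]
            field_simp
          rw [h9]
          exact not_lt.1 h8)
        (by
          intro i hi hA
          have h8 := G4 i (by
            simp only [hs4, Finset.mem_filter, Finset.mem_range]
            omega)
          exact h8 hA)
        (by
          intro i j _ _
          have h5 := Real.log_le_log (hpos (g i)) (hΔ (g i))
          rw [Real.log_mul (by linarith) hd.ne'] at h5
          have h6 := Real.log_le_log hd (hdeg (g j))
          linarith) h3 hc
      have hind : ind (∃ e ∈ s, B e g) = 0 := by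
        unfold ind
        rw [if_neg hbad]
      rw [hind]
      linarith
  have hE := Ep_mono h N _ _ hpt
  rw [Ep_add, Ep_add, Ep_add, Ep_mul_left, Ep_mul_left, Ep_sum, Ep_const h] at hE
  have e1 : Ep (Kb adj) π N (fun g => fmin π W (fun i => g (W + i))) =
      Ep (Kb adj) π W (fmin π W) := by
    have e2 : N = W + W := by omega
    rw [e2]
    exact Ep_shift h W W (fmin π W)
  have e2 : Ep (Kb adj) π N (fun g => fmin π W g) = Ep (Kb adj) π W (fmin π W) := by
    refine Ep_trunc h W N (by omega) (fmin π W) fun g g' hgg => ?_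
    unfold fmin
    refine Finset.inf'_congr _ rfl fun t ht => ?_
    simp only [mem_range] at ht
    rw [hgg t (by omega)]
  rw [e1, e2] at hE
  have e3 : ∑ t ∈ range (W + 1), Ep (Kb adj) π N (fun g => π (g W) / π (g t)) ≤
      ((W : ℝ) + 1) * b ^ W := by
    calc ∑ t ∈ range (W + 1), Ep (Kb adj) π N (fun g => π (g W) / π (g t))
        ≤ ∑ _t ∈ range (W + 1), b ^ W := by
          refine Finset.sum_le_sum fun t ht => ?_
          simp only [mem_range] at ht
          have h5 := Ep_ratio h b hb hb0.le t (W - t) N (by omega)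
          have e4 : t + (W - t) = W := by omega
          rw [e4] at h5
          exact h5.trans (pow_le_pow_right₀ hb1 (by omega))
      _ = ((W : ℝ) + 1) * b ^ W := by
          rw [Finset.sum_const, nsmul_eq_mul, Finset.card_range]
          push_cast
          ring
  have e4 : Real.exp (-τ) * ∑ t ∈ range (W + 1), Ep (Kb adj) π N (fun g => π (g W) / π (g t)) ≤
      Real.exp (-τ) * (((W : ℝ) + 1) * b ^ W) :=
    mul_le_mul_of_nonneg_left e3 (Real.exp_pos _).le
  have e5 : (c * δ + τ) * Ep (Kb adj) π N (fun g => ind (∃ e ∈ s, B e g)) ≤ (c * δ + τ) * ε :=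
    mul_le_mul_of_nonneg_left hP (by positivity)
  linarith

end Pool.Agent.SulK
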