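import Pool.Agent.SulK.Defs

/-!
# MP_109285_co, K-law, module Basic: the closure, maxima over gaps, minima, reversal
-/

set_option autoImplicit false

namespace Pool.Agent.SulK

/-! ### Closure -/

theorem G.lt {x z : ℤ → ℝ} {i j : ℤ} (h : G x z i j) : i < j := by
  induction h with
  | unit i => omega
  | right i j _ _ ih => omega
  | left i j _ _ ih => omega

theorem not_bad_of_G {x z : ℤ → ℝ} {i j : ℤ} (h : G x z i j) (hij : i + 1 < j) : ¬ Bad x z i j := by
  cases h with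
  | unit => omega
  | right _ _ _ hb => exact hb
  | left _ _ _ hb => exact hb

theorem G_or_bad_right {x z : ℤ → ℝ} {i j : ℤ} (h : G x z i (j - 1)) :
    G x z i j ∨ Bad x z i j := by
  by_cases hb : Bad x z i j
  · exact Or.inr hb
  · left
    have h1 := G.right i (j - 1) h
    rw [sub_add_cancel] at h1
    exact h1 hb

theorem G_or_bad_left {x z : ℤ → ℝ} {i j : ℤ} (h : G x z (i + 1) j) :
    G x z i j ∨ Bad x z i j := by
  by_cases hb : Bad x z i j
  · exact Or.inr hb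
  · exact Or.inl (G.left i j h hb)

/-- The first vertex beyond `a` which is not seen by `s`. -/
theorem first_unseen {x z : ℤ → ℝ} {s a b : ℤ} (h0 : G x z s a)
    (h : ∃ t, a ≤ t ∧ t ≤ b ∧ ¬ G x z s t) :
    ∃ T, a < T ∧ T ≤ b ∧ (∀ t, a ≤ t → t < T → G x z s t) ∧ ¬ G x z s T ∧ Bad x z s T := by
  classical
  obtain ⟨t, h1, h2, h3⟩ := h
  have hex : ∃ n : ℕ, ¬ G x z s (a + n) ∧ a + n ≤ b := ⟨(t - a).toNat, by
    rw [Int.toNat_of_nonneg (by omega)]
    rw [show a + (t - a) = t by ring]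
    exact ⟨h3, h2⟩⟩
  obtain ⟨hn1, hn2⟩ := Nat.find_spec hex
  have hmin := fun m (hm : m < Nat.find hex) => Nat.find_min hex hm
  set n := Nat.find hex with hn
  have hn0 : n ≠ 0 := by
    intro h0'
    rw [h0'] at hn1
    apply hn1
    simpa using h0
  have hall : ∀ t, a ≤ t → t < a + n → G x z s t := by
    intro t ht1 ht2
    have h4 := hmin (t - a).toNat (by omega)
    rw [Int.toNat_of_nonneg (by omega), show a + (t - a) = t by ring] at h4
    by_contra h5
    exact h4 ⟨h5, by omega⟩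
  refine ⟨a + n, by omega, hn2, hall, hn1, ?_⟩
  rcases G_or_bad_right (hall (a + n - 1) (by omega) (by omega)) with h6 | h6
  · exact absurd h6 hn1
  · exact h6

/-- The last vertex of `[a, b]` which does not see `g`. -/
theorem last_nonseer {x z : ℤ → ℝ} {a b g : ℤ}
    (h0 : b + 1 = g ∨ G x z (b + 1) g) (h : ∃ t, a ≤ t ∧ t ≤ b ∧ ¬ G x z t g) :
    ∃ u, a ≤ u ∧ u ≤ b ∧ (∀ t, u < t → t ≤ b → G x z t g) ∧ ¬ G x z u g ∧ Bad x z u g := by
  classical
  obtain ⟨t, h1, h2, h3⟩ := h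
  have hex : ∃ n : ℕ, ¬ G x z (b - n) g ∧ a ≤ b - n := ⟨(b - t).toNat, by
    rw [Int.toNat_of_nonneg (by omega)]
    rw [show b - (b - t) = t by ring]
    exact ⟨h3, h1⟩⟩
  obtain ⟨hn1, hn2⟩ := Nat.find_spec hex
  have hmin := fun m (hm : m < Nat.find hex) => Nat.find_min hex hm
  set n := Nat.find hex with hn
  have hall : ∀ t, b - n < t → t ≤ b → G x z t g := by
    intro t ht1 ht2
    have h4 := hmin (b - t).toNat (by omega)
    rw [Int.toNat_of_nonneg (by omega), show b - (b - t) = t by ring] at h4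
    by_contra h5
    exact h4 ⟨h5, by omega⟩
  refine ⟨b - n, hn2, by omega, hall, hn1, ?_⟩
  have h7 : b - n + 1 = g ∨ G x z (b - n + 1) g := by
    rcases Nat.eq_zero_or_pos n with h8 | h8
    · rw [h8]
      simpa using h0
    · exact Or.inr (hall _ (by omega) (by omega))
  rcases h7 with h7 | h7
  · exfalso
    apply hn1
    rw [← h7]
    exact G.unit _
  · rcases G_or_bad_left h7 with h6 | h6
    · exact absurd h6 hn1
    · exact h6

theorem Feas.mono {x z : ℤ → ℝ} {p q p' q' : ℤ} (h : Feas x z p q) (hp : p ≤ p') (hq : q' ≤ q) :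
    Feas x z p' q' :=
  fun i j hi hj => h i j (by omega) (by omega)

/-! ### Reversal -/

theorem rv_rv (f : ℤ → ℝ) : rv (rv f) = f := by
  funext i
  simp [rv]

theorem rv_neg (f : ℤ → ℝ) (i : ℤ) : rv f (-i) = f i := by
  simp [rv]

theorem bad_rv_aux {x z : ℤ → ℝ} {i j : ℤ} (h : Bad x z i j) : Bad (rv z) (rv x) (-j) (-i) := by
  intro k h1 h2
  have h3 := h (-k - 1) (by omega) (by omega)
  rw [show -k - 1 + 1 = -k by ring] at h3
  simp only [rv, neg_neg]
  rw [show -(k + 1) = -k - 1 by ring]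
  linarith

theorem bad_rv {x z : ℤ → ℝ} {i j : ℤ} : Bad (rv z) (rv x) (-j) (-i) ↔ Bad x z i j := by
  refine ⟨fun h => ?_, bad_rv_aux⟩
  have h1 := bad_rv_aux h
  rwa [rv_rv, rv_rv, neg_neg, neg_neg] at h1

theorem G_rv_aux {x z : ℤ → ℝ} {i j : ℤ} (h : G x z i j) : G (rv z) (rv x) (-j) (-i) := by
  induction h with
  | unit i =>
    have h1 := G.unit (x := rv z) (z := rv x) (-(i + 1))
    rwa [show -(i + 1) + 1 = -i by ring] at h1
  | right i j h hb ih =>
    refine G.left (-(j + 1)) (-i) ?_ ?_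
    · rwa [show -(j + 1) + 1 = -j by ring]
    · rwa [bad_rv]
  | left i j h hb ih =>
    have h1 := G.right (x := rv z) (z := rv x) (-j) (-(i + 1)) ih
    rw [show -(i + 1) + 1 = -i by ring] at h1
    exact h1 (by rwa [bad_rv])

theorem G_rv {x z : ℤ → ℝ} {i j : ℤ} : G (rv z) (rv x) (-j) (-i) ↔ G x z i j := by
  refine ⟨fun h => ?_, G_rv_aux⟩
  have h1 := G_rv_aux h
  rwa [rv_rv, rv_rv, neg_neg, neg_neg] at h1

theorem feas_rv_aux {x z : ℤ → ℝ} {p q : ℤ} (h : Feas x z p q) : Feas (rv z) (rv x) (-q) (-p) := by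
  intro i j hi hj hG k h1 h2
  have h3 := h (-j) (-i) (by omega) (by omega)
    (by rw [← G_rv (x := x) (z := z), neg_neg, neg_neg]; exact hG) (-k - 1) (by omega) (by omega)
  rw [show -k - 1 + 1 = -k by ring] at h3
  simp only [rv]
  rw [show -(k + 1) = -k - 1 by ring]
  linarith

theorem feas_rv {x z : ℤ → ℝ} {p q : ℤ} : Feas (rv z) (rv x) (-q) (-p) ↔ Feas x z p q := by
  refine ⟨fun h => ?_, feas_rv_aux⟩
  have h1 := feas_rv_aux h
  rwa [rv_rv, rv_rv, neg_neg, neg_neg] at h1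

theorem tS_rv {x z : ℤ → ℝ} {t : ℤ} : tS (rv z) (rv x) (-t) ↔ tS x z t := by
  unfold tS
  rw [show -t - 1 = -(t + 1) by ring, show -t + 1 = -(t - 1) by ring, G_rv]

/-! ### Gaps -/

/-- The value of the gap `m | m + 1`. -/
noncomputable def w (x z : ℤ → ℝ) (m : ℤ) : ℝ := x m + z (m + 1)

/-- The maximum of the gap values in `[i, j)`. -/
noncomputable def W (x z : ℤ → ℝ) (i j : ℤ) : ℝ := (Finset.Ico i j).fold max (w x z i) (w x z)

theorem le_W {x z : ℤ → ℝ} {i j k : ℤ} (h1 : i ≤ k) (h2 : k < j) : w x z k ≤ W x z i j := by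
  unfold W
  rw [Finset.le_fold_max]
  exact Or.inr ⟨k, by simp [h1, h2], le_rfl⟩

theorem W_le {x z : ℤ → ℝ} {i j : ℤ} {B : ℝ} (hij : i < j)
    (h : ∀ k, i ≤ k → k < j → w x z k ≤ B) : W x z i j ≤ B := by
  unfold W
  rw [Finset.fold_max_le]
  refine ⟨h i le_rfl hij, fun k hk => ?_⟩
  rw [Finset.mem_Ico] at hk
  exact h k hk.1 hk.2

theorem W_mono {x z : ℤ → ℝ} {i j i' j' : ℤ} (h1 : i' ≤ i) (hij : i < j) (h2 : j ≤ j') :
    W x z i j ≤ W x z i' j' :=
  W_le hij fun _ h3 h4 => le_W (by omega) (by omega)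

theorem bad_W {x z : ℤ → ℝ} {i j : ℤ} (h : Bad x z i j) (hij : i < j) :
    W x z i j + 20 ≤ x j + z i := by
  have : W x z i j ≤ x j + z i - 20 := W_le hij fun k h1 h2 => by
    have := h k h1 h2
    unfold w
    linarith
  linarith

theorem bad_of_W {x z : ℤ → ℝ} {i j : ℤ} (h : W x z i j + 20 ≤ x j + z i) : Bad x z i j := by
  intro k h1 h2
  have h3 := le_W (x := x) (z := z) h1 h2
  unfold w at h3
  linarith

theorem feas_W {x z : ℤ → ℝ} {p q i j : ℤ} (hf : Feas x z p q) (hi : p ≤ i) (hj : j ≤ q)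
    (hG : G x z i j) : W x z i j ≤ x i + z j + 1 :=
  W_le hG.lt fun k h1 h2 => by
    have := hf i j hi hj hG k h1 h2
    unfold w
    linarith

theorem w_rv (x z : ℤ → ℝ) (m : ℤ) : w (rv z) (rv x) m = w x z (-m - 1) := by
  unfold w rv
  rw [show -(m + 1) = -m - 1 by ring, show -m - 1 + 1 = -m by ring]
  ring

theorem W_rv {x z : ℤ → ℝ} {i j : ℤ} (hij : i < j) : W (rv z) (rv x) (-j) (-i) = W x z i j := by
  apply le_antisymm
  · refine W_le (by omega) fun k h1 h2 => ?_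
    rw [w_rv]
    exact le_W (by omega) (by omega)
  · refine W_le hij fun k h1 h2 => ?_
    have h3 := le_W (x := rv z) (z := rv x) (i := -j) (j := -i) (k := -k - 1) (by omega) (by omega)
    rw [w_rv, show -(-k - 1) - 1 = k by ring] at h3
    exact h3

/-! ### Minima with a cap -/

/-- The minimum of the cap `X` and of `f` on `[a, b]`. -/
noncomputable def mn (f : ℤ → ℝ) (X : ℝ) (a b : ℤ) : ℝ := (Finset.Icc a b).fold min X f

theorem mn_base {f : ℤ → ℝ} {X : ℝ} {a b : ℤ} (h : b < a) : mn f X a b = X := by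
  unfold mn
  rw [Finset.Icc_eq_empty (by omega), Finset.fold_empty]

theorem mn_le_cap {f : ℤ → ℝ} {X : ℝ} {a b : ℤ} : mn f X a b ≤ X := by
  unfold mn
  rw [Finset.fold_min_le]
  exact Or.inl le_rfl

theorem mn_le {f : ℤ → ℝ} {X : ℝ} {a b t : ℤ} (h1 : a ≤ t) (h2 : t ≤ b) : mn f X a b ≤ f t := by
  unfold mn
  rw [Finset.fold_min_le]
  exact Or.inr ⟨t, by simp [h1, h2], le_rfl⟩

theorem le_mn {f : ℤ → ℝ} {X B : ℝ} {a b : ℤ} (hX : B ≤ X) (h : ∀ t, a ≤ t → t ≤ b → B ≤ f t) :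
    B ≤ mn f X a b := by
  unfold mn
  rw [Finset.le_fold_min]
  refine ⟨hX, fun t ht => ?_⟩
  rw [Finset.mem_Icc] at ht
  exact h t ht.1 ht.2

/-- The minimum is attained. -/
theorem mn_attained (f : ℤ → ℝ) (X : ℝ) (a b : ℤ) :
    mn f X a b = X ∨ ∃ t, a ≤ t ∧ t ≤ b ∧ f t = mn f X a b := by
  by_contra hcon
  push Not at hcon
  obtain ⟨h1, h2⟩ := hcon
  have hX : mn f X a b < X := lt_of_le_of_ne mn_le_cap h1
  have h3 : ∀ t ∈ Finset.Icc a b, mn f X a b < f t := by
    intro t ht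
    rw [Finset.mem_Icc] at ht
    exact lt_of_le_of_ne (mn_le ht.1 ht.2) (Ne.symm (h2 t ht.1 ht.2))
  have h4 : mn f X a b < mn f X a b := by
    conv_rhs => unfold mn
    rw [Finset.lt_fold_min]
    exact ⟨hX, h3⟩
  exact lt_irrefl _ h4

theorem mn_right {f : ℤ → ℝ} {X : ℝ} {a b : ℤ} (h : a ≤ b) :
    mn f X a b = min (mn f X a (b - 1)) (f b) := by
  apply le_antisymm
  · refine le_min (le_mn mn_le_cap fun t h1 h2 => mn_le h1 (by omega)) (mn_le h le_rfl)
  · refine le_mn (le_trans (min_le_left _ _) mn_le_cap) fun t h1 h2 => ?_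
    rcases lt_or_ge (b - 1) t with h3 | h3
    · have : t = b := by omega
      rw [this]
      exact min_le_right _ _
    · exact le_trans (min_le_left _ _) (mn_le h1 h3)

theorem mn_left {f : ℤ → ℝ} {X : ℝ} {a b : ℤ} (h : a ≤ b) :
    mn f X a b = min (mn f X (a + 1) b) (f a) := by
  apply le_antisymm
  · refine le_min (le_mn mn_le_cap fun t h1 h2 => mn_le (by omega) h2) (mn_le le_rfl h)
  · refine le_mn (le_trans (min_le_left _ _) mn_le_cap) fun t h1 h2 => ?_
    rcases lt_or_ge t (a + 1) with h3 | h3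
    · have : t = a := by omega
      rw [this]
      exact min_le_right _ _
    · exact le_trans (min_le_left _ _) (mn_le h3 h2)

theorem mn_rv (f : ℤ → ℝ) (X : ℝ) (a b : ℤ) : mn (rv f) X (-b) (-a) = mn f X a b := by
  apply le_antisymm
  · refine le_mn mn_le_cap fun t h1 h2 => ?_
    have := mn_le (f := rv f) (X := X) (a := -b) (b := -a) (t := -t) (by omega) (by omega)
    rwa [rv_neg] at this
  · refine le_mn mn_le_cap fun t h1 h2 => ?_
    exact mn_le (f := f) (X := X) (a := a) (b := b) (t := -t) (by omega) (by omega)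

end Pool.Agent.SulK
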