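import Pool.Agent.SulK.DS
import Pool.Agent.SulK.End3

/-!
# MP_109285_co (Sullivan), module Conn: the law for the closure on `ℕ`, and the theorem
-/

set_option autoImplicit false

namespace Pool.Agent.SulK

/-- Extension of a sequence to `ℤ`. -/
def ex (f : ℕ → ℝ) : ℤ → ℝ := fun i => f i.toNat

theorem ex_nat (f : ℕ → ℝ) (i : ℕ) : ex f (i : ℤ) = f i := by
  unfold ex
  rw [Int.toNat_natCast]

theorem bad_ex {x y : ℕ → ℝ} {i j : ℕ} :
    Bad (ex x) (ex y) (i : ℤ) (j : ℤ) ↔ Sul.Bad x y 20 i j := by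
  constructor
  · intro h k h1 h2
    have h3 := h (k : ℤ) (by omega) (by omega)
    rw [show (k : ℤ) + 1 = ((k + 1 : ℕ) : ℤ) by push_cast; ring, ex_nat, ex_nat, ex_nat, ex_nat] at h3
    exact h3
  · intro h k h1 h2
    obtain ⟨m, rfl⟩ : ∃ m : ℕ, k = m := ⟨k.toNat, by rw [Int.toNat_of_nonneg (by omega)]⟩
    have h3 := h m (by omega) (by omega)
    rw [show (m : ℤ) + 1 = ((m + 1 : ℕ) : ℤ) by push_cast; ring, ex_nat, ex_nat, ex_nat, ex_nat]
    exact h3

theorem G_of_Gc {x y : ℕ → ℝ} {i j : ℕ} (h : Sul.Gc x y 20 i j) :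
    G (ex x) (ex y) (i : ℤ) (j : ℤ) := by
  induction h with
  | unit i =>
    push_cast
    exact G.unit _
  | right i j h hb ih =>
    have h1 := G.right (i : ℤ) (j : ℤ) ih
    have e : (j : ℤ) + 1 = ((j + 1 : ℕ) : ℤ) := by push_cast; ring
    rw [e] at h1
    exact h1 (by rwa [bad_ex])
  | left i j h hb ih =>
    refine G.left (i : ℤ) (j : ℤ) ?_ (by rwa [bad_ex])
    push_cast at ih
    exact ih

theorem Gc_of_G_aux {x y : ℕ → ℝ} {p q : ℤ} (h : G (ex x) (ex y) p q) :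
    ∀ i j : ℕ, p = i → q = j → Sul.Gc x y 20 i j := by
  induction h with
  | unit p =>
    intro i j h1 h2
    have h3 : j = i + 1 := by omega
    subst h3
    exact Sul.Gc.unit i
  | right p q h hb ih =>
    intro i j h1 h2
    subst h1
    have hlt := h.lt
    obtain ⟨m, rfl⟩ : ∃ m : ℕ, q = m := ⟨q.toNat, by rw [Int.toNat_of_nonneg (by omega)]⟩
    have h3 : j = m + 1 := by omega
    subst h3
    refine Sul.Gc.right i m (ih i m rfl rfl) fun hb' => hb ?_
    have h4 := (bad_ex (x := x) (y := y) (i := i) (j := m + 1)).2 hb'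
    push_cast at h4
    exact h4
  | left p q h hb ih =>
    intro i j h1 h2
    subst h1 h2
    refine Sul.Gc.left i j (ih (i + 1) j (by push_cast; ring) rfl) fun hb' => hb ?_
    exact bad_ex.2 hb'

theorem G_ex {x y : ℕ → ℝ} {i j : ℕ} :
    G (ex x) (ex y) (i : ℤ) (j : ℤ) ↔ Sul.Gc x y 20 i j :=
  ⟨fun h => Gc_of_G_aux h i j rfl rfl, G_of_Gc⟩

theorem feas_ex {x y : ℕ → ℝ} {W : ℕ} (h : Sul.Feas x y 20 1 0 W) :
    Feas (ex x) (ex y) 0 W := by
  intro i j hi hj hG k h1 h2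
  obtain ⟨a, rfl⟩ : ∃ m : ℕ, i = m := ⟨i.toNat, by rw [Int.toNat_of_nonneg (by omega)]⟩
  obtain ⟨b, rfl⟩ : ∃ m : ℕ, j = m := ⟨j.toNat, by rw [Int.toNat_of_nonneg (by omega)]⟩
  obtain ⟨m, rfl⟩ : ∃ m : ℕ, k = m := ⟨k.toNat, by rw [Int.toNat_of_nonneg (by omega)]⟩
  rw [show (m : ℤ) + 1 = ((m + 1 : ℕ) : ℤ) by push_cast; ring, ex_nat, ex_nat, ex_nat, ex_nat]
  exact h a b (Nat.zero_le _) (by omega) (G_ex.1 hG) m (by omega) (by omega)

theorem tS_ex {x y : ℕ → ℝ} {v : ℕ} (hv : 1 ≤ v) :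
    tS (ex x) (ex y) (v : ℤ) ↔ ¬ Sul.Gc x y 20 (v - 1) (v + 1) := by
  unfold tS
  rw [show (v : ℤ) - 1 = ((v - 1 : ℕ) : ℤ) by omega, show (v : ℤ) + 1 = ((v + 1 : ℕ) : ℤ) by
    push_cast; ring, G_ex]

theorem card_starts {x y : ℕ → ℝ} {W : ℕ} :
    (starts (fun v => ¬ Sul.Gc x y 20 (v - 1) (v + 1)) W).card = th (ex x) (ex y) 0 W := by
  classical
  unfold starts th
  rw [← Finset.card_map ⟨fun n : ℕ => (n : ℤ), Nat.cast_injective⟩]
  congr 1
  ext t
  simp only [Finset.mem_map, Finset.mem_filter, Finset.mem_Ico, Function.Embedding.coeFn_mk,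
    Finset.mem_Ioo]
  constructor
  · rintro ⟨v, ⟨⟨h1, h2⟩, h3, h4⟩, rfl⟩
    refine ⟨⟨by omega, by omega⟩, (tS_ex h1).2 h3, ?_⟩
    rcases h4 with h4 | h4
    · left
      omega
    · rcases Nat.eq_or_lt_of_le h1 with h5 | h5
      · left
        omega
      · right
        rw [show (v : ℤ) - 1 = ((v - 1 : ℕ) : ℤ) by omega, tS_ex (by omega)]
        exact h4
  · rintro ⟨⟨h1, h2⟩, h3, h4⟩
    obtain ⟨v, rfl⟩ : ∃ m : ℕ, t = m := ⟨t.toNat, by rw [Int.toNat_of_nonneg (by omega)]⟩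
    refine ⟨v, ⟨⟨by omega, by omega⟩, (tS_ex (by omega)).1 h3, ?_⟩, rfl⟩
    rcases h4 with h4 | h4
    · left
      omega
    · rcases Nat.eq_or_lt_of_le (show 1 ≤ v by omega) with h5 | h5
      · left
        omega
      · right
        rw [show (v : ℤ) - 1 = ((v - 1 : ℕ) : ℤ) by omega, tS_ex (by omega)] at h4
        exact h4

/-- The law on `ℕ` for the closure. -/
theorem law_nat (x y : ℕ → ℝ) (W : ℕ) (hf : Sul.Feas x y 20 1 0 W) (B₁ B₂ : ℝ)
    (h1 : ∀ i, i ≤ W → x W - x i ≤ B₁) (h2 : ∀ i, i ≤ W → y 0 - y i ≤ B₂) :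
    ((starts (fun v => ¬ Sul.Gc x y 20 (v - 1) (v + 1)) W).card : ℝ) ≤ B₁ + B₂ := by
  rw [card_starts]
  refine (law (ex x) (ex y) 0 W (by omega) (feas_ex hf)).trans ?_
  have h3 : x W - B₁ ≤ al (ex x) (ex y) 0 W := le_al (by omega) fun t h4 h5 => by
    obtain ⟨m, rfl⟩ : ∃ m : ℕ, t = m := ⟨t.toNat, by rw [Int.toNat_of_nonneg (by omega)]⟩
    rw [ex_nat]
    have := h1 m (by omega)
    linarith
  have h4 : y 0 - B₂ ≤ be (ex x) (ex y) 0 W := by
    unfold be
    refine le_Be ?_ ?_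
    · rw [ex_nat]
      have := h2 W le_rfl
      linarith
    · intro t h4 h5
      obtain ⟨m, rfl⟩ : ∃ m : ℕ, t = m := ⟨t.toNat, by rw [Int.toNat_of_nonneg (by omega)]⟩
      rw [ex_nat]
      have := h2 m (by omega)
      linarith
  unfold D
  have e1 : ex x (W : ℤ) = x W := ex_nat x W
  have e2 : ex y (0 : ℤ) = y 0 := ex_nat y 0
  rw [e1, e2]
  linarith

open Pool.Agent.Sul in
/-- The theorem: polylogarithmic loss. -/
theorem main (n : ℕ) (adj : Fin n → Fin n → Prop) (hn : 0 < n)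
    (has : ∀ x y, adj x y → ¬ adj y x) (d : ℝ) (hd : 0 < d)
    (hdeg : ∀ v, d ≤ ({u | adj u v}.ncard : ℝ)) :
    ∃ v, ({u | adj u v}.ncard : ℝ) ≤ (10 * (1 + Real.log (n / d))) ^ 126 *
      ({w | w ≠ v ∧ ¬ adj v w ∧ ∃ u, adj v u ∧ adj u w}.ncard : ℝ) := by
  have : Nonempty (Fin n) := ⟨⟨0, hn⟩⟩
  have hn' : (0 : ℝ) < n := by exact_mod_cast hn
  have hdn : d ≤ n := by
    refine (hdeg ⟨0, hn⟩).trans ?_
    have h1 : ({u | adj u ⟨0, hn⟩} : Set (Fin n)).ncard ≤ (Set.univ : Set (Fin n)).ncard :=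
      Set.ncard_le_ncard (Set.subset_univ _) Set.finite_univ
    rw [Set.ncard_univ, Nat.card_eq_fintype_card, Fintype.card_fin] at h1
    exact_mod_cast h1
  have hnd : 1 ≤ (n : ℝ) / d := by rwa [one_le_div hd]
  have hR : 0 ≤ Real.log (n / d) := Real.log_nonneg hnd
  obtain ⟨R, hRdef⟩ : ∃ R, R = Real.log (n / d) := ⟨_, rfl⟩
  rw [← hRdef] at hR ⊢
  obtain ⟨W, k, δ, hW1, hδ2, hδ8, hδ4, hk, hW, hexp⟩ := params R hR
  have hδ0 : 0 < δ := by linarith
  by_contra hcon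
  push Not at hcon
  have hγ : ∀ v, n2 adj v ≤ Real.exp (-((20 + 1) * δ)) * dg adj v := by
    intro v
    have h1 : (10 * (1 + R)) ^ 126 * n2 adj v < dg adj v := hcon v
    have hn2 : 0 ≤ n2 adj v := Nat.cast_nonneg _
    have h2 : Real.exp (21 * δ) * n2 adj v ≤ dg adj v :=
      (mul_le_mul_of_nonneg_right hexp hn2).trans h1.le
    have h3 : Real.exp (-((20 + 1) * δ)) * (Real.exp (21 * δ) * n2 adj v) ≤
        Real.exp (-((20 + 1) * δ)) * dg adj v :=
      mul_le_mul_of_nonneg_left h2 (Real.exp_pos _).le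
    rw [← mul_assoc, ← Real.exp_add] at h3
    have e : -((20 + 1) * δ) + 21 * δ = 0 := by ring
    rw [e, Real.exp_zero, one_mul] at h3
    exact h3
  obtain ⟨A, x, y, hsys, hcl, hrange⟩ := exists_sys adj has d hd hdeg δ 20 W k hδ8
    (by
      rw [Fintype.card_fin]
      have h1 : (n : ℝ) / d = Real.exp R := by
        rw [hRdef, Real.exp_log (by positivity)]
      rw [h1]
      exact hk) hγ
  rw [Fintype.card_fin] at hrange
  have hlogn : R = Real.log n - Real.log d := by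
    rw [hRdef, Real.log_div hn'.ne' hd.ne']
  have hs0 := hsys.scale hδ0
  set x' : ℕ → ℝ := fun i => x i / δ with hx'
  set y' : ℕ → ℝ := fun i => y i / δ with hy'
  -- the closure
  have hsub : ∀ i j, Sul.Gc x' y' 20 i j → j ≤ W → A i j := by
    intro i j h
    induction h with
    | unit i => exact fun h => hs0.unit i (by omega)
    | right i j h hb ih =>
      intro hW'
      rcases hs0.right i j h.lt hW' (ih (by omega)) with h1 | h1
      · exact h1
      · exact absurd h1 hb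
    | left i j h hb ih =>
      intro hW'
      rcases hs0.left i j h.lt hW' (ih hW') with h1 | h1
      · exact h1
      · exact absurd h1 hb
  have hs : SysN (fun i j => Sul.Gc x' y' 20 i j) x' y' 20 1 W := by
    refine ⟨fun i _ => Sul.Gc.unit i, fun i j h1 h2 h3 => ?_, fun i j h1 h2 h3 => ?_,
      fun i j h1 h2 h3 l h4 h5 => ?_⟩
    · by_cases hb : Sul.Bad x' y' 20 i (j + 1)
      · exact Or.inr hb
      · exact Or.inl (Sul.Gc.right i j h3 hb)
    · by_cases hb : Sul.Bad x' y' 20 i j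
      · exact Or.inr hb
      · exact Or.inl (Sul.Gc.left i j h3 hb)
    · exact hs0.feas i j h1 h2 (hsub i j h3 h2) l h4 h5
  have hcl' : ∀ i, i + k + 1 ≤ W → ¬ ∀ a b, i ≤ a → a < b → b ≤ i + k + 1 →
      Sul.Gc x' y' 20 a b := by
    intro i hi h
    exact hcl i hi fun a b h1 h2 h3 => hsub a b (h a b h1 h2 h3) (by omega)
  have hx : ∀ i j, i ≤ W → j ≤ W → x' i - x' j ≤ R / δ := by
    intro i j hi hj
    show x i / δ - x j / δ ≤ R / δ
    rw [← sub_div]
    refine div_le_div_of_nonneg_right ?_ hδ0.le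
    have h1 := hrange i hi
    have h2 := hrange j hj
    linarith
  have hy : ∀ i j, i ≤ W → j ≤ W → y' i - y' j ≤ (R + δ) / δ := by
    intro i j hi hj
    show y i / δ - y j / δ ≤ (R + δ) / δ
    rw [← sub_div]
    refine div_le_div_of_nonneg_right ?_ hδ0.le
    have h1 := hrange i hi
    have h2 := hrange j hj
    linarith
  have hB : R / δ + (R + δ) / δ ≤ 1 + R := by
    have e : R / δ + (R + δ) / δ = 2 * R / δ + 1 := by
      field_simp
      ring
    rw [e]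
    have : 2 * R / δ ≤ R := by
      rw [div_le_iff₀ hδ0]
      nlinarith
    linarith
  have hf : Sul.Feas x' y' 20 1 0 W := fun i j _ h2 h3 l h4 h5 =>
    hs.feas i j h3.lt h2 h3 l h4 h5
  have hlaw := law_nat x' y' W hf (R / δ) ((R + δ) / δ)
    (fun i hi => hx W i le_rfl hi) (fun i hi => hy 0 i (Nat.zero_le _) hi)
  have hwin := hs.window (by norm_num) (by norm_num) k (1 + R) (1 + R) (by linarith)
    (by
      intro i j hi hj
      have h1 := hx i j hi hj
      have h2 := hy j i hj hi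
      linarith) hcl' (by linarith)
  have e : (3 : ℝ) * (1 + R) / (2 * 20) = 3 * (1 + R) / 40 := by ring
  rw [e] at hwin
  linarith

end Pool.Agent.SulK
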