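import Pool.Agent.SulK.VS

/-!
# MP_109285_co, K-law, module DS: the law
-/

set_option autoImplicit false

namespace Pool.Agent.SulK

theorem PD_rv {x z : ℤ → ℝ} {s e : ℤ} (h : PD (rv z) (rv x) (-e) (-s)) : PD x z s e := by
  intro h1 h2
  have h3 := h (by omega) (feas_rv.2 h2)
  rw [th_rv, D_rv] at h3
  exact h3

theorem al_all {x z : ℤ → ℝ} {s e : ℤ} (h : ∀ t, s < t → t ≤ e → G x z s t) :
    al x z s e = mn x (x s) s e := by
  unfold al Al
  refine af_all e fun t h1 h2 => ?_
  rcases eq_or_lt_of_le h1 with h3 | h3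
  · exact Or.inl h3.symm
  · exact Or.inr (h t h3 h2)

theorem be_all {x z : ℤ → ℝ} {s e : ℤ} (hse : s ≤ e) (h : ∀ t, s ≤ t → t < e → G x z t e) :
    be x z s e = mn z (z e) s e := by
  have h1 := al_all (x := rv z) (z := rv x) (s := -e) (e := -s) fun t h2 h3 => by
    have h4 := h (-t) (by omega) (by omega)
    rw [← G_rv, neg_neg] at h4
    exact h4
  rw [al_rv, rv_neg, mn_rv] at h1
  exact h1

theorem be_ext {x z : ℤ → ℝ} {s s' e : ℤ} (h : s ≤ s') (h2 : s' ≤ e)
    (h1 : ∀ t, s ≤ t → t < s' → z s' ≤ z t) : be x z s e = be x z s' e := by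
  unfold be Be Al
  refine af_ext (-s) (by omega) fun t h3 h4 => ?_
  have h5 : mn (rv z) (z e) (-e) (-s') ≤ z s' := by
    rw [mn_rv]
    exact mn_le le_rfl h2
  exact le_trans h5 (h1 (-t) (by omega) (by omega))

theorem al_ext {x z : ℤ → ℝ} {s e e' : ℤ} (h : e ≤ e') (h2 : s ≤ e)
    (h1 : ∀ t, e < t → t ≤ e' → x e ≤ x t) : al x z s e' = al x z s e := by
  unfold al Al
  refine af_ext e' h fun t h3 h4 => ?_
  exact le_trans (mn_le h2 le_rfl) (h1 t h3 h4)

/-- A clique. -/
theorem clique_D {x z : ℤ → ℝ} {s e : ℤ} (hse : s ≤ e)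
    (h : ∀ i t, s ≤ i → i < t → t ≤ e → G x z i t) : (th x z s e : ℝ) ≤ D x z s e := by
  have h1 : th x z s e = 0 := by
    classical
    unfold th
    rw [Finset.card_eq_zero, Finset.filter_eq_empty_iff]
    intro t ht h2
    rw [Finset.mem_Ioo] at ht
    exact h2.1 (h (t - 1) (t + 1) (by omega) (by omega) (by omega))
  rw [h1]
  unfold D
  rw [al_all fun t h2 h3 => h s t le_rfl h2 h3, be_all hse fun t h2 h3 => h t e h2 h3 le_rfl]
  have h3 : mn x (x s) s e ≤ x e := mn_le hse le_rfl
  have h4 : mn z (z e) s e ≤ z s := mn_le le_rfl hse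
  simp only [Nat.cast_zero]
  linarith

/-- (i): the second vertex is lower. -/
theorem low_second {x z : ℤ → ℝ} {s e : ℤ} (hse : s < e) (hf : Feas x z s e)
    (IHD : PD x z (s + 1) e) (hz : z (s + 1) ≤ z s - 1) : (th x z s e : ℝ) ≤ D x z s e := by
  have hD := IHD (by omega) (hf.mono (by omega) le_rfl)
  unfold D at hD ⊢
  have hbe : be x z s e ≤ be x z (s + 1) e := be_anti (by omega)
  have hth : (th x z s e : ℝ) ≤ th x z (s + 1) e + 1 := by
    exact_mod_cast th_left_le (x := x) (z := z) (s := s) (e := e)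
  have hal : al x z s e ≤ al x z (s + 1) e + max 0 (z s - z (s + 1) - 20) := by
    rw [al_eq hse.le, al_eq (by omega), af_left_pos (G.unit s) e (by omega)]
    have e2 : af x (fun t => G x z (s + 1) t) (min (x s) (x (s + 1))) (s + 1 + 1) e ≤
        af x (fun t => G x z (s + 1) t) (x (s + 1)) (s + 1 + 1) e :=
      af_mono_cap (min_le_right _ _)
    refine le_trans (af_compare (R' := fun t => G x z (s + 1) t) (le_max_left _ _) ?_)
      (by linarith)
    intro t h1 h2 h3 h4 h5
    refine le_trans ?_ (le_max_right _ _)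
    rcases G_or_bad_left h3 with h6 | h6
    · exact absurd h6 h4
    · have h7 := h6 s le_rfl (by omega)
      have h8 : min (x s) (x (s + 1)) ≤ x s := min_le_left _ _
      linarith
  rcases le_total (z s - z (s + 1) - 20) 0 with h1 | h1
  · rw [max_eq_left h1] at hal
    linarith
  · rw [max_eq_right h1] at hal
    linarith

/-- Windows in which `z s` is almost minimal. -/
theorem onesided (l : ℕ)
    (IHD : ∀ (x z : ℤ → ℝ) (s e : ℤ), e - s ≤ l → PD x z s e)
    (HL : ∀ (x z : ℤ → ℝ) (s e c : ℤ), e - s ≤ l + 1 → PL x z s e c)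
    (HLL : ∀ (x z : ℤ → ℝ) (s n c v : ℤ), n - s ≤ l + 1 → PLL x z s n c v)
    (x z : ℤ → ℝ) (s e : ℤ) (hes : e - s ≤ l + 1) (hse : s ≤ e) (hf : Feas x z s e)
    (H : ∀ t, s ≤ t → t ≤ e → z s - 2 ≤ z t) : (th x z s e : ℝ) ≤ D x z s e := by
  by_cases hcl : ∀ i t, s ≤ i → i < t → t ≤ e → G x z i t
  · exact clique_D hse hcl
  have hcl' : ∃ i, s ≤ i ∧ i < e ∧ ∃ t, i < t ∧ t ≤ e ∧ ¬ G x z i t := by
    by_contra hc
    apply hcl
    intro i t h1 h2 h3
    by_contra h4
    exact hc ⟨i, h1, by omega, t, h2, h3, h4⟩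
  -- the first vertex which does not see everything
  obtain ⟨i, hi1, hi2, hi3, hi4⟩ : ∃ i, s ≤ i ∧ i < e ∧ (∃ t, i < t ∧ t ≤ e ∧ ¬ G x z i t) ∧
      ∀ i', s ≤ i' → i' < i → ∀ t, i' < t → t ≤ e → G x z i' t := by
    obtain ⟨i0, h1, h2, h3⟩ := hcl'
    obtain ⟨i, h4, h5, h6, h7⟩ := exists_least (p := fun i => ∃ t, i < t ∧ t ≤ e ∧ ¬ G x z i t)
      (v := s - 1) (g := i0) (by omega) h3
    refine ⟨i, by omega, by omega, h6, fun i' h8 h9 t h10 h11 => ?_⟩
    by_contra h12
    exact h7 i' (by omega) h9 ⟨t, h10, h11, h12⟩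
  obtain ⟨t, ht1, ht2, ht3⟩ := hi3
  obtain ⟨v, hv1, hv2, hv3, hv4, hv5⟩ := first_unseen (G.unit i) ⟨t, by omega, ht2, ht3⟩
  rcases eq_or_lt_of_le hi1 with hsi | hsi
  · subst hsi
    have h1 := V_step l IHD HL HLL x z s e v hes hf (by omega) hv2 hv5
      (fun t h1 h2 => H t h1 (by omega)) (Or.inl H)
    linarith
  · have hzi : ∀ t, i ≤ t → t ≤ e → z i - 1 ≤ z t := by
      intro t h1 h2
      rcases eq_or_lt_of_le h1 with h3 | h3
      · rw [h3]
        linarith
      · have h4 := hf (i - 1) t (by omega) h2 (hi4 (i - 1) (by omega) (by omega) t (by omega) h2)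
          (i - 1) le_rfl (by omega)
        rw [sub_add_cancel] at h4
        linarith
    have h1 := V_step l IHD HL HLL x z i e v (by omega) (hf.mono hi1 le_rfl) (by omega) hv2 hv5
      (fun t h1 h2 => by
        have := hzi t h1 (by omega)
        linarith)
      (Or.inl fun t h1 h2 => by
        have := hzi t h1 h2
        linarith)
    -- comparison of `[s, e]` and `[i, e]`
    have hth : th x z s e = th x z i e := by
      have key : ∀ n : ℕ, s + n ≤ i → th x z s e = th x z (s + n) e := by
        intro n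
        induction n with
        | zero =>
          intro _
          simp
        | succ n ih =>
          intro hn
          rw [ih (by push_cast at hn; omega)]
          have h2 : ¬ tS x z (s + n + 1) := by
            unfold tS
            rw [not_not]
            rw [add_sub_cancel_right]
            push_cast at hn
            exact hi4 (s + n) (by omega) (by omega) _ (by omega) (by omega)
          rw [th_left_A h2]
          push_cast
          rw [add_assoc]
      have h2 := key (i - s).toNat (by omega)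
      rwa [Int.toNat_of_nonneg (by omega), show s + (i - s) = i by ring] at h2
    have hal : al x z s e = mn x (x s) s e := al_all fun t h2 h3 => hi4 s le_rfl hsi t h2 h3
    have hal2 : mn x (x s) s e ≤ al x z i e := by
      refine le_al (by omega) fun t h2 h3 => mn_le (by omega) h3
    -- `be`
    have hbe : be x z s e + (mn z (z e) i e - mn z (z e) s e) = be x z i e := by
      have key : ∀ n : ℕ, s ≤ i - n →
          be x z (i - n) e + (mn z (z e) i e - mn z (z e) (i - n) e) = be x z i e := by
        intro n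
        induction n with
        | zero =>
          intro _
          simp
        | succ n ih =>
          intro hn
          have ih' := ih (by push_cast at hn; omega)
          have e1 : i - ((n + 1 : ℕ) : ℤ) + 1 = i - (n : ℤ) := by push_cast; ring
          have h2 : be x z (i - ((n + 1 : ℕ) : ℤ)) e = be x z (i - (n : ℤ)) e -
              max 0 (mn z (z e) (i - (n : ℤ)) e - z (i - ((n + 1 : ℕ) : ℤ))) := by
            unfold be
            rw [Be_pos (by omega) (Or.inr (hi4 _ hn (by push_cast; omega) e (by omega) le_rfl)), e1]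
          have h3 : mn z (z e) (i - ((n + 1 : ℕ) : ℤ)) e =
              min (mn z (z e) (i - (n : ℤ)) e) (z (i - ((n + 1 : ℕ) : ℤ))) := by
            rw [mn_left (by omega), e1]
          rw [h2, h3]
          rcases le_total (mn z (z e) (i - (n : ℤ)) e) (z (i - ((n + 1 : ℕ) : ℤ))) with h4 | h4
          · rw [min_eq_left h4, max_eq_left (by linarith)]
            linarith
          · rw [min_eq_right h4, max_eq_right (by linarith)]
            linarith
      have h2 := key (i - s).toNat (by omega)
      rwa [Int.toNat_of_nonneg (by omega), show i - (i - s) = s by ring] at h2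
    have h5 : z i - 1 ≤ mn z (z e) i e :=
      le_mn (hzi e (by omega) le_rfl) hzi
    have h6 : mn z (z e) s e ≤ z s := mn_le le_rfl hse
    unfold D at h1 ⊢
    rw [hth, hal]
    linarith

/-- The F-cut. -/
theorem fcut (l : ℕ)
    (IHD : ∀ (x z : ℤ → ℝ) (s e : ℤ), e - s ≤ l → PD x z s e)
    (x z : ℤ → ℝ) (s e P : ℤ) (hes : e - s ≤ l + 1) (hf : Feas x z s e)
    (hsP : s < P) (hPe : P ≤ e) (hzP : z P < z s - 2) (hzt : ∀ t, s ≤ t → t < P → z s - 2 ≤ z t)
    (hx : ∃ t, P ≤ t ∧ t < e ∧ x t ≤ x e) : (th x z s e : ℝ) ≤ D x z s e := by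
  obtain ⟨t0, ht1, ht2, ht3⟩ := hx
  obtain ⟨e1, he1, hmin⟩ := Finset.exists_min_image (Finset.Ico P e) x ⟨t0, by simp [ht1, ht2]⟩
  simp only [Finset.mem_Ico] at he1 hmin
  have hxe : x e1 ≤ x e := le_trans (hmin t0 ⟨ht1, ht2⟩) ht3
  obtain ⟨s1, hs1, hmin2⟩ := Finset.exists_min_image (Finset.Icc s e1) z ⟨s, by simp; omega⟩
  simp only [Finset.mem_Icc] at hs1 hmin2
  have hs1P : P ≤ s1 := by
    by_contra hc
    have h1 := hzt s1 hs1.1 (by omega)
    have h2 := hmin2 P ⟨by omega, he1.1⟩
    linarith
  have hal : al x z s e = al x z s e1 := al_ext (by omega) (by omega) fun t h1 h2 => by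
    rcases eq_or_lt_of_le h2 with h3 | h3
    · rw [h3]
      exact hxe
    · exact hmin t ⟨by omega, h3⟩
  have hbe : be x z s e = be x z s1 e := be_ext hs1.1 (by omega) fun t h1 h2 =>
    hmin2 t ⟨h1, by omega⟩
  have hal1 : x e1 ≤ al x z s1 e := le_al (by omega) fun t h1 h2 => by
    rcases eq_or_lt_of_le h2 with h3 | h3
    · rw [h3]
      exact hxe
    · exact hmin t ⟨by omega, h3⟩
  have hbe1 : z s1 ≤ be x z s e1 := le_Be (hmin2 e1 ⟨by omega, le_rfl⟩) fun t h1 h2 =>
    hmin2 t ⟨h1, h2⟩
  have hDD : D x z s e1 + D x z s1 e ≤ D x z s e := by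
    unfold D
    linarith
  have hD1 := IHD x z s e1 (by omega) (by omega) (hf.mono le_rfl (by omega))
  have hD2 := IHD x z s1 e (by omega) (by omega) (hf.mono (by omega) le_rfl)
  rcases eq_or_lt_of_le hs1.2 with hse | hse
  swap
  · have h1 : (th x z s e : ℝ) ≤ th x z s e1 + th x z s1 e := by
      exact_mod_cast th_overlap (x := x) (z := z) (s := s) (a := s1) (b := e1) (by omega)
        (by omega) e (by omega)
    linarith
  · subst hse
    by_cases hcut : ¬ tS x z s1 ∨ (s + 2 ≤ s1 ∧ tS x z (s1 - 1)) ∨ (s1 + 2 ≤ e ∧ tS x z (s1 + 1))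
    · have h1 : (th x z s e : ℝ) ≤ th x z s s1 + th x z s1 e := by
        exact_mod_cast th_cut (x := x) (z := z) (s := s) (j := s1) (by omega) e (by omega) hcut
      linarith
    · push Not at hcut
      obtain ⟨hS, hcl, hcr⟩ := hcut
      have hbad : Bad x z (s1 - 1) (s1 + 1) := by
        rcases G_or_bad_left (x := x) (z := z) (i := s1 - 1) (j := s1 + 1) (by
          rw [sub_add_cancel]; exact G.unit s1) with h1 | h1
        · exact absurd h1 hS
        · exact h1
      have hb1 := hbad (s1 - 1) le_rfl (by omega)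
      have hb2 := hbad s1 (by omega) (by omega)
      rw [sub_add_cancel] at hb1
      -- right neighbour
      have hR : s1 + 2 ≤ e → x (s1 + 1) ≤ x s1 + 1 := by
        intro h1
        have h2 := hcr h1
        unfold tS at h2
        rw [not_not, show s1 + 1 - 1 = s1 by ring, show s1 + 1 + 1 = s1 + 2 by ring] at h2
        have h3 := hf s1 (s1 + 2) (by omega) h1 h2 (s1 + 1) (by omega) (by omega)
        rw [show s1 + 1 + 1 = s1 + 2 by ring] at h3
        linarith
      have hL : s + 2 ≤ s1 → z (s1 - 1) ≤ z s1 + 1 := by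
        intro h1
        have h2 := hcl h1
        unfold tS at h2
        rw [not_not, show s1 - 1 - 1 = s1 - 2 by ring, sub_add_cancel] at h2
        have h3 := hf (s1 - 2) s1 (by omega) (by omega) h2 (s1 - 2) le_rfl (by omega)
        rw [show s1 - 2 + 1 = s1 - 1 by ring] at h3
        linarith
      rcases lt_or_ge e (s1 + 2) with he | he
      · -- s1 + 1 = e
        have he' : e = s1 + 1 := by omega
        subst he'
        rcases lt_or_ge s1 (s + 2) with hs | hs
        · -- s1 = s + 1
          have hs' : s1 = s + 1 := by omega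
          subst hs'
          rw [add_sub_cancel_right] at hb1
          have h1 : (th x z s (s + 1 + 1) : ℝ) ≤ 1 := by
            exact_mod_cast th_small (x := x) (z := z) (s := s) (e := s + 1 + 1) (by omega)
          have h2 : al x z s (s + 1 + 1) ≤ x s := al_le
          have h3 : be x z (s + 1) (s + 1 + 1) ≤ z (s + 1) := by
            unfold be
            rw [Be_pos (by omega) (Or.inr (G.unit _)), Be_self, min_self]
            have h4 : mn z (z (s + 1 + 1)) (s + 1 + 1) (s + 1 + 1) = z (s + 1 + 1) :=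
              le_antisymm mn_le_cap (le_mn le_rfl fun t h5 h6 => by
                rw [show t = s + 1 + 1 by omega])
            rw [h4]
            have := le_max_right 0 (z (s + 1 + 1) - z (s + 1))
            linarith
          unfold D
          rw [hbe]
          linarith
        · have h1 := hL hs
          have h2 : (th x z s (s1 + 1) : ℝ) ≤ th x z s s1 + 1 := by
            have h3 := th_right_le (x := x) (z := z) (s := s) (e := s1 + 1)
            rw [add_sub_cancel_right] at h3
            exact_mod_cast h3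
          have h3 : al x z s1 (s1 + 1) ≤ x s1 := al_le
          have h4 : be x z s1 (s1 + 1) ≤ z (s1 + 1) := be_le
          have h5 : 19 ≤ D x z s1 (s1 + 1) := by
            unfold D
            linarith
          linarith
      · have h1 := hR he
        rcases lt_or_ge s1 (s + 2) with hs | hs
        · -- s1 = s + 1
          have hs' : s1 = s + 1 := by omega
          subst hs'
          rw [add_sub_cancel_right] at hb1
          have h3 : al x z s (s + 1) ≤ x s := al_le
          have h4 : be x z s (s + 1) ≤ z (s + 1) := be_le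
          have h5 : 19 ≤ D x z s (s + 1) := by
            unfold D
            linarith
          have h2 : (th x z s e : ℝ) ≤ th x z (s + 1) e + 1 := by
            exact_mod_cast th_left_le (x := x) (z := z) (s := s) (e := e)
          linarith
        · have h2 := hL hs
          have h3 : al x z s s1 ≤ al x z s (s1 - 1) := al_anti (by omega)
          have h4 : be x z s s1 ≤ z s1 := be_le
          have h5 : z s1 ≤ be x z s (s1 - 1) := le_Be (hmin2 (s1 - 1) ⟨by omega, by omega⟩)
            fun t h6 h7 => hmin2 t ⟨h6, by omega⟩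
          have h6 : D x z s (s1 - 1) + 18 ≤ D x z s s1 := by
            unfold D
            linarith
          have hD3 := IHD x z s (s1 - 1) (by omega) (by omega) (hf.mono le_rfl (by omega))
          have h7 : (th x z s e : ℝ) ≤ th x z s (s1 - 1) + th x z s1 e + 1 := by
            have h8 := th_split (x := x) (z := z) (s := s) (j := s1 - 1) (by omega) e (by omega)
            rw [sub_add_cancel] at h8
            exact_mod_cast h8
          linarith

/-- The induction step for the law. -/
theorem D_step (l : ℕ)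
    (IHD : ∀ (x z : ℤ → ℝ) (s e : ℤ), e - s ≤ l → PD x z s e)
    (HL : ∀ (x z : ℤ → ℝ) (s e c : ℤ), e - s ≤ l + 1 → PL x z s e c)
    (HLL : ∀ (x z : ℤ → ℝ) (s n c v : ℤ), n - s ≤ l + 1 → PLL x z s n c v) :
    ∀ (x z : ℤ → ℝ) (s e : ℤ), e - s ≤ l + 1 → PD x z s e := by
  -- one-sided windows and their mirror images
  have one : ∀ (x z : ℤ → ℝ) (s e : ℤ), e - s ≤ l + 1 →
      (∀ t, s ≤ t → t ≤ e → z s - 2 ≤ z t) → PD x z s e := by
    intro x z s e hes H hse hf
    exact onesided l IHD HL HLL x z s e hes hse hf H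
  have low : ∀ (x z : ℤ → ℝ) (s e : ℤ), e - s ≤ l + 1 → s < e →
      z (s + 1) ≤ z s - 1 → PD x z s e := by
    intro x z s e hes hse hz _ hf
    exact low_second hse hf (IHD x z (s + 1) e (by omega)) hz
  intro x z s e hes hse hf
  rcases eq_or_lt_of_le hse with hse' | hse'
  · subst hse'
    exact clique_D le_rfl fun i t h1 h2 h3 => absurd h2 (by omega)
  by_cases h1 : z (s + 1) ≤ z s - 1
  · exact low x z s e hes hse' h1 hse hf
  by_cases h2 : x (e - 1) ≤ x e - 1
  · refine PD_rv (low (rv z) (rv x) (-e) (-s) (by omega) (by omega) ?_) hse hf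
    rw [show -e + 1 = -(e - 1) by ring, rv_neg, rv_neg]
    exact h2
  by_cases h3 : ∀ t, s ≤ t → t ≤ e → z s - 2 ≤ z t
  · exact one x z s e hes h3 hse hf
  by_cases h4 : ∀ t, s ≤ t → t ≤ e → x e - 2 ≤ x t
  · refine PD_rv (one (rv z) (rv x) (-e) (-s) (by omega) ?_) hse hf
    intro t h5 h6
    rw [rv_neg]
    exact h4 (-t) (by omega) (by omega)
  push Not at h1 h3 h4
  obtain ⟨P0, hP0, hP1, hP2⟩ := h3
  obtain ⟨Q, hQ0, hQ1, hQ2⟩ := h4
  obtain ⟨P, hP3, hP4, hP5, hP6⟩ := exists_least (p := fun P => z P < z s - 2) (v := s - 1)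
    (g := P0) (by omega) hP2
  have hsP : s < P := by
    rcases eq_or_lt_of_le (show s ≤ P by omega) with h5 | h5
    · exfalso
      rw [← h5] at hP5
      linarith
    · exact h5
  have hzt : ∀ t, s ≤ t → t < P → z s - 2 ≤ z t := fun t h5 h6 =>
    not_lt.1 (hP6 t (by omega) h6)
  by_cases h5 : ∃ t, P ≤ t ∧ t < e ∧ x t ≤ x e
  · exact fcut l IHD x z s e P hes hf hsP (by omega) hP5 hzt h5
  push Not at h5
  have hPs : s + 2 ≤ P := by
    by_contra hc
    have h6 : P = s + 1 := by omega
    rw [h6] at hP5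
    linarith
  have hnot : ¬ G x z s P := by
    intro hG
    have h6 := hf s P le_rfl (by omega) hG s le_rfl (by omega)
    linarith
  obtain ⟨v, hv1, hv2, hv3, hv4, hv5⟩ := first_unseen (G.unit s) ⟨P, by omega, le_rfl, hnot⟩
  have h6 := V_step l IHD HL HLL x z s e v hes hf (by omega) (by omega) hv5
    (fun t h7 h8 => hzt t h7 (by omega))
    (Or.inr ⟨P, hv2, by omega, hzt, h5, Q, hQ0, by
      rcases eq_or_lt_of_le hQ1 with h9 | h9
      · exfalso
        rw [h9] at hQ2
        linarith
      · exact h9, hQ2⟩)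
  linarith

/-- **The law.** -/
theorem law_all (l : ℕ) :
    (∀ (x z : ℤ → ℝ) (s e : ℤ), e - s ≤ l → PD x z s e) ∧
    (∀ (x z : ℤ → ℝ) (s e c : ℤ), e - s ≤ l → PL x z s e c) ∧
    (∀ (x z : ℤ → ℝ) (s n c v : ℤ), n - s ≤ l → PLL x z s n c v) := by
  induction l with
  | zero =>
    refine ⟨?_, ?_, ?_⟩
    · intro x z s e h1 h2 _
      have h3 : e = s := by push_cast at h1; omega
      subst h3
      exact clique_D le_rfl fun i t h4 h5 h6 => absurd h5 (by omega)
    · intro x z s e c h1 ξ lam h2 h3
      exfalso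
      push_cast at h1
      omega
    · intro x z s n c v h1 ξ μ h2 h3 h4
      exfalso
      push_cast at h1
      omega
  | succ l ih =>
    obtain ⟨i1, i2, i3⟩ := ih
    have j3 : ∀ (x z : ℤ → ℝ) (s n c v : ℤ), n - s ≤ l + 1 → PLL x z s n c v := LL_step l i2 i3
    have j2 : ∀ (x z : ℤ → ℝ) (s e c : ℤ), e - s ≤ l + 1 → PL x z s e c := L_step l i1 i2 j3
    have j1 : ∀ (x z : ℤ → ℝ) (s e : ℤ), e - s ≤ l + 1 → PD x z s e := D_step l i1 j2 j3
    push_cast
    exact ⟨j1, j2, j3⟩

/-- **The law.** The number of maximal runs of vertices of type `S` is at most the measured slack. -/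
theorem law (x z : ℤ → ℝ) (s e : ℤ) (hse : s ≤ e) (hf : Feas x z s e) :
    (th x z s e : ℝ) ≤ D x z s e :=
  (law_all (e - s).toNat).1 x z s e (by omega) hse hf

end Pool.Agent.SulK
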