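import Mathlib

/-!
# MP_109285_co, K-law: definitions

Everything is indexed by `ℤ` and normalised: gain `M = 20`, tolerance `T = 1`.
-/

set_option autoImplicit false

namespace Pool.Agent.SulK

/-- The pair `(i, j)` is *bad*: `x_k + z_(k+1) + 20 ≤ x_j + z_i` for all `k ∈ [i, j)`. -/
def Bad (x z : ℤ → ℝ) (i j : ℤ) : Prop :=
  ∀ k, i ≤ k → k < j → x k + z (k + 1) + 20 ≤ x j + z i

/-- The closure: consecutive pairs are in, and a pair which is not bad and extends a pair of the
closure by one step (on either side) is in. -/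
inductive G (x z : ℤ → ℝ) : ℤ → ℤ → Prop
  | unit (i : ℤ) : G x z i (i + 1)
  | right (i j : ℤ) : G x z i j → ¬ Bad x z i (j + 1) → G x z i (j + 1)
  | left (i j : ℤ) : G x z (i + 1) j → ¬ Bad x z i j → G x z i j

/-- Feasibility (tolerance `1`) in the window `[p, q]`. -/
def Feas (x z : ℤ → ℝ) (p q : ℤ) : Prop :=
  ∀ i j, p ≤ i → j ≤ q → G x z i j → ∀ k, i ≤ k → k < j → x k + z (k + 1) ≤ x i + z j + 1

/-- Reversal. -/
def rv (f : ℤ → ℝ) : ℤ → ℝ := fun i => f (-i)

/-- The vertex `t` is of type `S`. -/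
def tS (x z : ℤ → ℝ) (t : ℤ) : Prop := ¬ G x z (t - 1) (t + 1)

open Classical in
/-- `t` starts a maximal run of vertices of type `S` inside the open window `(s, e)`. -/
noncomputable def th (x z : ℤ → ℝ) (s e : ℤ) : ℕ :=
  ((Finset.Ioo s e).filter (fun t => tS x z t ∧ (t = s + 1 ∨ ¬ tS x z (t - 1)))).card

end Pool.Agent.SulK
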