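import Pool.Agent.Sul.Fin

/-!
# MP_109285_co (Sullivan), end of the K-law proof, module End1: the system of a typical walk

If `|N2+(v)| ≤ exp (-((c + 1) δ)) |N-(v)|` for all `v`, then there is a walk on `[0, W]` whose
potentials `x i = log (in-degree)`, `y i = log (stationary weight)` satisfy: arcs of the walk (relation
`A`) have the tolerance `δ`, second neighbour pairs have the gain `c δ`, there is no interval clique on
`k + 2` consecutive vertices, and `x`, `y` are in short ranges.
-/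

set_option autoImplicit false

open Finset

namespace Pool.Agent.SulK

open Pool.Agent.Sul

/-- The system of a typical walk on `[0, W]`, gain `M`, tolerance `T`. -/
structure SysN (A : ℕ → ℕ → Prop) (x y : ℕ → ℝ) (M T : ℝ) (W : ℕ) : Prop where
  unit : ∀ i, i < W → A i (i + 1)
  right : ∀ i j, i < j → j + 1 ≤ W → A i j → A i (j + 1) ∨ Bad x y M i (j + 1)
  left : ∀ i j, i + 1 < j → j ≤ W → A (i + 1) j → A i j ∨ Bad x y M i j
  feas : ∀ i j, i < j → j ≤ W → A i j → ∀ l, i ≤ l → l < j → x l + y (l + 1) ≤ x i + y j + T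

variable {V : Type} [Fintype V]

theorem exists_sys (adj : V → V → Prop) [Nonempty V] (has : ∀ x y, adj x y → ¬ adj y x) (d : ℝ)
    (hd : 0 < d) (hdeg : ∀ v, d ≤ dg adj v) (δ c : ℝ) (W k : ℕ)
    (hδ : Real.log (8 * ((W : ℝ) + 1) ^ 3) ≤ δ)
    (hk : 4 * ((W : ℝ) + 1) * (Fintype.card V / d) ≤ 2 ^ k)
    (hγ : ∀ v, n2 adj v ≤ Real.exp (-((c + 1) * δ)) * dg adj v) :
    ∃ (A : ℕ → ℕ → Prop) (x y : ℕ → ℝ), SysN A x y (c * δ) δ W ∧
      (∀ i, i + k + 1 ≤ W → ¬ ∀ a b, i ≤ a → a < b → b ≤ i + k + 1 → A a b) ∧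
      ∀ j, j ≤ W → Real.log d ≤ x j ∧ x j ≤ Real.log (Fintype.card V) ∧
        -Real.log (4 * ((W : ℝ) + 1)) - Real.log (Fintype.card V) ≤ y j ∧ y j ≤ -Real.log d := by
  classical
  have hpos : ∀ v, 0 < dg adj v := fun v => lt_of_lt_of_le hd (hdeg v)
  obtain ⟨π, h⟩ := exists_chain adj hpos
  have hn : (0 : ℝ) < Fintype.card V := by
    exact_mod_cast Fintype.card_pos
  have hW1 : (0 : ℝ) < (W : ℝ) + 1 := by positivity
  set ε : ℝ := 1 / (4 * ((W : ℝ) + 1)) with hε
  have hε0 : 0 < ε := by rw [hε]; positivity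
  -- the index sets
  set s1 : Finset (ℕ × ℕ × ℕ) :=
    (Finset.range (W + 1) ×ˢ (Finset.range (W + 1) ×ˢ Finset.range (W + 1))).filter
      (fun e => e.1 ≤ e.2.1 ∧ e.2.1 < e.2.2) with hs1
  set s4 : Finset ℕ := (Finset.range (W + 1)).filter (fun i => i + k + 1 ≤ W) with hs4
  set B1 : ℕ × ℕ × ℕ → (ℕ → V) → Prop := fun e g =>
    (g e.1 ≠ g e.2.2 ∧ ¬ adj (g e.2.2) (g e.1) ∧ ∃ u, adj (g e.2.2) u ∧ adj u (g e.1)) ∧
      Real.log (dg adj (g e.2.2)) + Real.log (π (g e.1)) <
        Real.log (dg adj (g e.2.1)) + Real.log (π (g (e.2.1 + 1))) + c * δ with hB1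
  set B2 : ℕ × ℕ × ℕ → (ℕ → V) → Prop := fun e g =>
    adj (g e.2.2) (g e.1) ∧
      Real.log (dg adj (g e.1)) + Real.log (π (g e.2.2)) + δ <
        Real.log (dg adj (g e.2.1)) + Real.log (π (g (e.2.1 + 1))) with hB2
  set B3 : ℕ → (ℕ → V) → Prop := fun i g => π (g i) < ε / Fintype.card V with hB3
  set B4 : ℕ → (ℕ → V) → Prop := fun i g =>
    ∀ a b, i ≤ a → a < b → b ≤ i + k + 1 → adj (g b) (g a) with hB4
  -- bounds
  have hexp : Real.exp (-δ) ≤ 1 / (8 * ((W : ℝ) + 1) ^ 3) := by
    have h1 : 8 * ((W : ℝ) + 1) ^ 3 ≤ Real.exp δ := by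
      have h2 := Real.exp_le_exp.2 hδ
      rwa [Real.exp_log (by positivity)] at h2
    rw [Real.exp_neg, inv_eq_one_div]
    exact one_div_le_one_div_of_le (by positivity) h1
  have hcard1 : (s1.card : ℝ) ≤ ((W : ℝ) + 1) ^ 3 := by
    have h1 : s1.card ≤ (W + 1) * ((W + 1) * (W + 1)) := by
      refine (Finset.card_filter_le _ _).trans ?_
      rw [Finset.card_product, Finset.card_product, Finset.card_range]
    have h2 : (s1.card : ℝ) ≤ (((W + 1) * ((W + 1) * (W + 1)) : ℕ) : ℝ) := by exact_mod_cast h1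
    refine h2.trans (le_of_eq ?_)
    push_cast
    ring
  have hmul1 : ((W : ℝ) + 1) ^ 3 * Real.exp (-δ) ≤ 1 / 8 := by
    calc ((W : ℝ) + 1) ^ 3 * Real.exp (-δ) ≤ ((W : ℝ) + 1) ^ 3 * (1 / (8 * ((W : ℝ) + 1) ^ 3)) :=
          mul_le_mul_of_nonneg_left hexp (by positivity)
      _ = 1 / 8 := by
          have := hW1.ne'
          field_simp
  have S1 : ∑ e ∈ s1, Ep (Kb adj) π W (fun g => ind (B1 e g)) ≤ 1 / 8 := by
    calc ∑ e ∈ s1, Ep (Kb adj) π W (fun g => ind (B1 e g)) ≤ ∑ _e ∈ s1, Real.exp (-δ) := by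
          refine Finset.sum_le_sum fun e he => ?_
          simp only [hs1, Finset.mem_filter, Finset.mem_product, Finset.mem_range] at he
          have h1 := prob_second adj π h hpos (Real.exp (-((c + 1) * δ))) (c * δ)
            hγ e.1 e.2.1 e.2.2 W he.2.1 he.2.2 (by omega)
          refine h1.trans (le_of_eq ?_)
          rw [← Real.exp_add]
          congr 1
          ring
      _ = s1.card * Real.exp (-δ) := by rw [Finset.sum_const, nsmul_eq_mul]
      _ ≤ ((W : ℝ) + 1) ^ 3 * Real.exp (-δ) :=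
          mul_le_mul_of_nonneg_right hcard1 (Real.exp_pos _).le
      _ ≤ 1 / 8 := hmul1
  have S2 : ∑ e ∈ s1, Ep (Kb adj) π W (fun g => ind (B2 e g)) ≤ 1 / 8 := by
    calc ∑ e ∈ s1, Ep (Kb adj) π W (fun g => ind (B2 e g)) ≤ ∑ _e ∈ s1, Real.exp (-δ) := by
          refine Finset.sum_le_sum fun e he => ?_
          simp only [hs1, Finset.mem_filter, Finset.mem_product, Finset.mem_range] at he
          exact prob_arc adj π h hpos δ e.1 e.2.1 e.2.2 W he.2.1 he.2.2 (by omega)
      _ = s1.card * Real.exp (-δ) := by rw [Finset.sum_const, nsmul_eq_mul]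
      _ ≤ ((W : ℝ) + 1) ^ 3 * Real.exp (-δ) :=
          mul_le_mul_of_nonneg_right hcard1 (Real.exp_pos _).le
      _ ≤ 1 / 8 := hmul1
  have S3 : ∑ e ∈ (Finset.range (W + 1)), Ep (Kb adj) π W (fun g => ind (B3 e g)) ≤ 1 / 4 := by
    calc ∑ e ∈ (Finset.range (W + 1)), Ep (Kb adj) π W (fun g => ind (B3 e g)) ≤ ∑ _e ∈ (Finset.range (W + 1)), ε := by
          refine Finset.sum_le_sum fun e he => ?_
          simp only [Finset.mem_range] at he
          exact prob_small adj π h ε hε0.le e W (by omega)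
      _ = ((W : ℝ) + 1) * ε := by
          rw [Finset.sum_const, nsmul_eq_mul, Finset.card_range]
          push_cast
          ring
      _ = 1 / 4 := by
          rw [hε]
          have := hW1.ne'
          field_simp
      _ ≤ 1 / 4 := le_rfl
  have S4 : ∑ e ∈ s4, Ep (Kb adj) π W (fun g => ind (B4 e g)) ≤ 1 / 4 := by
    have h2 : (Fintype.card V : ℝ) / (2 ^ k * d) ≤ ε := by
      rw [hε, div_le_div_iff₀ (by positivity) (by positivity)]
      have h3 := mul_le_mul_of_nonneg_right hk hd.le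
      have h4 : 4 * ((W : ℝ) + 1) * (Fintype.card V / d) * d =
          Fintype.card V * (4 * ((W : ℝ) + 1)) := by
        have := hd.ne'
        field_simp
      rw [h4] at h3
      linarith
    calc ∑ e ∈ s4, Ep (Kb adj) π W (fun g => ind (B4 e g)) ≤ ∑ _e ∈ s4, ε := by
          refine Finset.sum_le_sum fun e he => ?_
          simp only [hs4, Finset.mem_filter, Finset.mem_range] at he
          exact (clique_prob adj has π h d hd hdeg e k W he.2).trans h2
      _ = s4.card * ε := by rw [Finset.sum_const, nsmul_eq_mul]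
      _ ≤ ((W : ℝ) + 1) * ε := by
          refine mul_le_mul_of_nonneg_right ?_ hε0.le
          have h1 : s4.card ≤ W + 1 := (Finset.card_filter_le _ _).trans
            (le_of_eq (Finset.card_range _))
          exact_mod_cast h1
      _ = 1 / 4 := by
          rw [hε]
          have := hW1.ne'
          field_simp
      _ ≤ 1 / 4 := le_rfl
  obtain ⟨g, hg0, hgs, hgB⟩ := exists_path h
    (s := (s1.disjSum s1).disjSum ((Finset.range (W + 1)).disjSum s4)) W
    (Sum.elim (Sum.elim B1 B2) (Sum.elim B3 B4)) (by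
      rw [Finset.sum_disjSum, Finset.sum_disjSum, Finset.sum_disjSum]
      simp only [Sum.elim_inl, Sum.elim_inr]
      linarith)
  have G1 : ∀ e ∈ s1, ¬ B1 e g := fun e he =>
    hgB (Sum.inl (Sum.inl e)) (by simp [he])
  have G2 : ∀ e ∈ s1, ¬ B2 e g := fun e he =>
    hgB (Sum.inl (Sum.inr e)) (by simp [he])
  have G3 : ∀ e ∈ (Finset.range (W + 1)), ¬ B3 e g := fun e he =>
    hgB (Sum.inr (Sum.inl e)) (by simp [he])
  have G4 : ∀ e ∈ s4, ¬ B4 e g := fun e he =>
    hgB (Sum.inr (Sum.inr e)) (by simp [he])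
  have hm1 : ∀ i l j, i ≤ l → l < j → j ≤ W → (i, l, j) ∈ s1 := by
    intro i l j h1 h2 h3
    simp only [hs1, Finset.mem_filter, Finset.mem_product, Finset.mem_range]
    omega
  have hstep : ∀ i, i < W → adj (g (i + 1)) (g i) := by
    intro i hi
    have h1 := hgs i hi
    unfold Kb at h1
    by_contra hc
    rw [if_neg hc] at h1
    exact lt_irrefl _ h1
  have hsec : ∀ i j, i < j → j ≤ W → g i ≠ g j → ¬ adj (g j) (g i) →
      (∃ u, adj (g j) u ∧ adj u (g i)) →
      Bad (fun i => Real.log (dg adj (g i))) (fun i => Real.log (π (g i))) (c * δ) i j := by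
    intro i j hij hj h1 h2 h3 l hl1 hl2
    have h4 := G1 (i, l, j) (hm1 i l j hl1 hl2 hj)
    by_contra hc
    push Not at hc
    exact h4 ⟨⟨h1, h2, h3⟩, hc⟩
  refine ⟨fun i j => adj (g j) (g i), fun i => Real.log (dg adj (g i)), fun i => Real.log (π (g i)),
    ⟨hstep, ?_, ?_, ?_⟩, ?_, ?_⟩
  · intro i j hij hj hA
    by_cases hc : adj (g (j + 1)) (g i)
    · exact Or.inl hc
    · right
      refine hsec i (j + 1) (by omega) hj ?_ hc ⟨g j, hstep j (by omega), hA⟩
      intro he
      rw [he] at hA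
      exact has _ _ hA (hstep j (by omega))
  · intro i j hij hj hA
    by_cases hc : adj (g j) (g i)
    · exact Or.inl hc
    · right
      refine hsec i j (by omega) hj ?_ hc ⟨g (i + 1), hA, hstep i (by omega)⟩
      intro he
      rw [← he] at hA
      exact has _ _ hA (hstep i (by omega))
  · intro i j hij hj hA l hl1 hl2
    have h4 := G2 (i, l, j) (hm1 i l j hl1 hl2 hj)
    by_contra hc
    push Not at hc
    exact h4 ⟨hA, hc⟩
  · intro i hi hA
    have h4 := G4 i (by
      simp only [hs4, Finset.mem_filter, Finset.mem_range]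
      omega)
    exact h4 hA
  · intro j hj
    have hpj := pi_pos h W g hg0 hgs j hj
    refine ⟨Real.log_le_log hd (hdeg _), ?_, ?_, ?_⟩
    · have h1 : dg adj (g j) ≤ Fintype.card V := by
        unfold dg
        have h2 : {u | adj u (g j)}.ncard ≤ Fintype.card V := by
          rw [← Nat.card_eq_fintype_card, ← Set.ncard_univ]
          exact Set.ncard_le_ncard (Set.subset_univ _) (Set.toFinite _)
        exact_mod_cast h2
      exact Real.log_le_log (hpos (g j)) h1
    · have h1 := G3 j (by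
        simp only [Finset.mem_range]
        omega)
      have h2 : Real.log (ε / Fintype.card V) =
          -Real.log (4 * ((W : ℝ) + 1)) - Real.log (Fintype.card V) := by
        rw [Real.log_div hε0.ne' hn.ne', hε, Real.log_div one_ne_zero (by positivity),
          Real.log_one]
        ring
      rw [← h2]
      exact Real.log_le_log (div_pos hε0 hn) (not_lt.1 h1)
    · have h1 := Real.log_le_log hpj (pi_le adj π h d hd hdeg (g j))
      rw [Real.log_div one_ne_zero hd.ne', Real.log_one] at h1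
      linarith

end Pool.Agent.SulK
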