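import Pool.Agent.SulK.End1

/-!
# MP_109285_co (Sullivan), end of the K-law proof, module End2: runs of types and the window length

The vertex `v` (`0 < v < W`) is of type S if `(v-1, v+1)` is not in `A`.  Runs of type S vertices are
short (the potential `x - y` increases by `2 M` in three steps), runs of type A vertices are interval
cliques.
-/

set_option autoImplicit false

open Finset

namespace Pool.Agent.SulK

open Pool.Agent.Sul

/-! ### A counting lemma -/

open Classical in
/-- The first vertices below `n` of the maximal runs of `P` in `[1, n)`. -/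
noncomputable def starts (P : ℕ → Prop) (n : ℕ) : Finset ℕ :=
  (Finset.Ico 1 n).filter (fun v => P v ∧ (v = 1 ∨ ¬ P (v - 1)))

theorem starts_mono (P : ℕ → Prop) {a n : ℕ} (h : a ≤ n) : starts P a ⊆ starts P n := by
  classical
  unfold starts
  exact Finset.filter_subset_filter _ (Finset.Ico_subset_Ico le_rfl h)

theorem count_runs (P : ℕ → Prop) (L K W : ℕ)
    (hS : ∀ a m, 1 ≤ a → a + m ≤ W → (∀ v, a ≤ v → v < a + m → P v) → m ≤ L)
    (hA : ∀ a m, 1 ≤ a → a + m ≤ W → (∀ v, a ≤ v → v < a + m → ¬ P v) → m ≤ K) (n : ℕ) :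
    1 ≤ n → n ≤ W → (n ≤ 1 + (starts P n).card * (L + K) + K) ∧
      (n = 1 ∨ P (n - 1) → n ≤ 1 + (starts P n).card * (L + K)) := by
  classical
  induction n using Nat.strong_induction_on with
  | _ n ih =>
    intro h1 hW
    rcases Nat.eq_or_lt_of_le h1 with h2 | h2
    · subst h2
      refine ⟨by omega, fun _ => by omega⟩
    · -- the block of `n - 1`
      have hex : ∃ a, 1 ≤ a ∧ a ≤ n - 1 ∧ ∀ v, a ≤ v → v < n → (P v ↔ P (n - 1)) := by
        refine ⟨n - 1, by omega, le_rfl, fun v hv1 hv2 => ?_⟩
        have : v = n - 1 := by omega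
        rw [this]
      obtain ⟨a, ha⟩ : ∃ a, a = Nat.find hex := ⟨_, rfl⟩
      have hspec := Nat.find_spec hex
      rw [← ha] at hspec
      obtain ⟨ha1, ha2, ha3⟩ := hspec
      have hprev : a = 1 ∨ ¬ (P (a - 1) ↔ P (n - 1)) := by
        by_contra hc
        push Not at hc
        obtain ⟨hc1, hc2⟩ := hc
        have hlt : a - 1 < Nat.find hex := by omega
        refine Nat.find_min hex hlt ⟨by omega, by omega, fun v hv1 hv2 => ?_⟩
        rcases Nat.eq_or_lt_of_le hv1 with h3 | h3
        · rw [← h3]
          exact hc2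
        · exact ha3 v (by omega) hv2
      obtain ⟨i1, i2⟩ := ih a (by omega) ha1 (by omega)
      have hmono := Finset.card_le_card (starts_mono P (show a ≤ n by omega))
      by_cases hP : P (n - 1)
      · have hlen := hS a (n - a) ha1 (by omega) (fun v hv1 hv2 => (ha3 v hv1 (by omega)).2 hP)
        have hPa : P a := (ha3 a le_rfl (by omega)).2 hP
        have hst : (starts P a).card + 1 ≤ (starts P n).card := by
          have hna : a ∉ starts P a := by
            unfold starts
            simp
          rw [← Finset.card_insert_of_notMem hna]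
          refine Finset.card_le_card ?_
          intro v hv
          rw [Finset.mem_insert] at hv
          rcases hv with hv | hv
          · subst hv
            unfold starts
            simp only [Finset.mem_filter, Finset.mem_Ico]
            refine ⟨⟨ha1, by omega⟩, hPa, ?_⟩
            rcases hprev with h3 | h3
            · exact Or.inl h3
            · right
              intro h4
              exact h3 ⟨fun _ => hP, fun _ => h4⟩
          · exact starts_mono P (show a ≤ n by omega) hv
        have hmul : ((starts P a).card + 1) * (L + K) ≤ (starts P n).card * (L + K) :=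
          Nat.mul_le_mul_right _ hst
        rw [add_mul, one_mul] at hmul
        refine ⟨by omega, fun _ => by omega⟩
      · have hlen := hA a (n - a) ha1 (by omega)
          (fun v hv1 hv2 h3 => hP ((ha3 v hv1 (by omega)).1 h3))
        have hmul : (starts P a).card * (L + K) ≤ (starts P n).card * (L + K) :=
          Nat.mul_le_mul_right _ hmono
        have h5 : a = 1 ∨ P (a - 1) := by
          rcases hprev with h3 | h3
          · exact Or.inl h3
          · right
            by_contra h4
            exact h3 ⟨fun h => absurd h h4, fun h => absurd h hP⟩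
        have h6 := i2 h5
        refine ⟨by omega, fun h7 => ?_⟩
        rcases h7 with h7 | h7
        · omega
        · exact absurd h7 hP

/-! ### Runs of both types -/

variable {A : ℕ → ℕ → Prop} {x y : ℕ → ℝ} {M T : ℝ} {W : ℕ}

theorem SysN.bad (h : SysN A x y M T W) (v : ℕ) (h1 : 1 ≤ v) (h2 : v < W)
    (hv : ¬ A (v - 1) (v + 1)) : Bad x y M (v - 1) (v + 1) := by
  have h3 := h.unit (v - 1) (by omega)
  have e : v - 1 + 1 = v := by omega
  rw [e] at h3
  rcases h.right (v - 1) v (by omega) (by omega) h3 with h4 | h4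
  · exact absurd h4 hv
  · exact h4

theorem SysN.srun (h : SysN A x y M T W) (hM : 0 < M) (B : ℝ)
    (hB : ∀ i j, i ≤ W → j ≤ W → (x i - y i) - (x j - y j) ≤ B) (a m : ℕ) (ha : 1 ≤ a)
    (ham : a + m ≤ W) (hv : ∀ v, a ≤ v → v < a + m → ¬ A (v - 1) (v + 1)) :
    (m : ℝ) ≤ 3 * B / (2 * M) + 1 := by
  have key : ∀ j, 3 * j ≤ m + 1 →
      x (a - 1) - y (a - 1) + 2 * M * j ≤ x (a - 1 + 3 * j) - y (a - 1 + 3 * j) := by
    intro j
    induction j with
    | zero =>
      intro _
      simp
    | succ j ih =>
      intro hj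
      have i1 := ih (by omega)
      -- the vertices `t = a + 3 j` and `t + 1` are of type S
      have b1 := h.bad (a + 3 * j) (by omega) (by omega) (hv _ (by omega) (by omega))
      have b2 := h.bad (a + 3 * j + 1) (by omega) (by omega) (hv _ (by omega) (by omega))
      have e1 := b1 (a + 3 * j - 1) le_rfl (by omega)
      have e2 := b2 (a + 3 * j + 1) (by omega) (by omega)
      have f1 : a + 3 * j - 1 + 1 = a + 3 * j := by omega
      have f2 : a + 3 * j + 1 - 1 = a + 3 * j := by omega
      have f3 : a + 3 * j - 1 = a - 1 + 3 * j := by omega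
      have f4 : a + 3 * j + 1 + 1 = a - 1 + 3 * (j + 1) := by omega
      rw [f1, f3] at e1
      rw [f2, f4] at e2
      push_cast
      linarith
  have hj := key ((m + 1) / 3) (by omega)
  have hb := hB (a - 1 + 3 * ((m + 1) / 3)) (a - 1) (by omega) (by omega)
  have h3 : (m : ℝ) + 1 ≤ 3 * (((m + 1) / 3 : ℕ) : ℝ) + 2 := by
    have : m + 1 ≤ 3 * ((m + 1) / 3) + 2 := by omega
    exact_mod_cast this
  have h4 : 2 * M * (((m + 1) / 3 : ℕ) : ℝ) ≤ B := by linarith
  have h5 : (((m + 1) / 3 : ℕ) : ℝ) ≤ B / (2 * M) := by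
    rw [le_div_iff₀ (by linarith)]
    linarith
  have e : 3 * B / (2 * M) = 3 * (B / (2 * M)) := by ring
  rw [e]
  linarith

theorem SysN.arun (h : SysN A x y M T W) (_hT : 0 ≤ T) (hM : 4 * T < M) (a m : ℕ) (ha : 1 ≤ a)
    (ham : a + m ≤ W) (hv : ∀ v, a ≤ v → v < a + m → A (v - 1) (v + 1)) (n : ℕ) :
    ∀ i j, a ≤ i → i < j → j < a + m → j ≤ i + n → A i j := by
  induction n with
  | zero =>
    intro i j h1 h2 h3 h4
    omega
  | succ n ih =>
    intro i j h1 h2 h3 h4
    rcases Nat.lt_or_ge j (i + (n + 1)) with h5 | h5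
    · exact ih i j h1 h2 h3 (by omega)
    · have e : j = i + n + 1 := by omega
      rcases Nat.lt_or_ge n 2 with h6 | h6
      · have h7 : n = 0 ∨ n = 1 := by omega
        rcases h7 with h7 | h7
        · subst h7
          rw [e]
          exact h.unit i (by omega)
        · subst h7
          have h8 := hv (i + 1) (by omega) (by omega)
          rw [e]
          exact h8
      · -- `i + 3 ≤ j`
        have g1 := ih i (j - 1) h1 (by omega) (by omega) (by omega)
        have g2 := ih (i + 1) j (by omega) (by omega) h3 (by omega)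
        have g3 := ih i (i + 2) h1 (by omega) (by omega) (by omega)
        have g4 := hv i h1 (by omega)
        have g5 := hv j (by omega) h3
        have e1 : j - 1 + 1 = j := by omega
        rcases h.right i (j - 1) (by omega) (by omega) g1 with h7 | h7
        · rw [e1] at h7
          exact h7
        · exfalso
          rw [e1] at h7
          have b := h7 (j - 1) (by omega) (by omega)
          rw [e1] at b
          have a1 := h.feas (j - 1) (j + 1) (by omega) (by omega) g5 j (by omega) (by omega)
          have a2 := h.feas (i + 1) j (by omega) (by omega) g2 (i + 1) le_rfl (by omega)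
          have a3 := h.feas i (i + 2) (by omega) (by omega) g3 i le_rfl (by omega)
          have a4 := h.feas (i - 1) (i + 1) (by omega) (by omega) g4 (i - 1) le_rfl (by omega)
          have e2 : i - 1 + 1 = i := by omega
          have e3 : i + 1 + 1 = i + 2 := by omega
          rw [e2] at a4
          rw [e3] at a2
          linarith

/-- The window lemma: if the number of S-runs is at most `θ`, then the window is short. -/
theorem SysN.window (h : SysN A x y M T W) (hT : 0 ≤ T) (hM : 4 * T < M) (k : ℕ) (B θ : ℝ)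
    (hB0 : 0 ≤ B) (hB : ∀ i j, i ≤ W → j ≤ W → (x i - y i) - (x j - y j) ≤ B)
    (hc : ∀ i, i + k + 1 ≤ W → ¬ ∀ a b, i ≤ a → a < b → b ≤ i + k + 1 → A a b)
    (hθ : ((starts (fun v => ¬ A (v - 1) (v + 1)) W).card : ℝ) ≤ θ) :
    (W : ℝ) ≤ 1 + θ * (3 * B / (2 * M) + 1 + (k + 1)) + (k + 1) := by
  have hM0 : 0 < M := by linarith
  have hL0 : 0 ≤ 3 * B / (2 * M) + 1 := by positivity
  rcases Nat.eq_zero_or_pos W with hW | hW
  · subst hW
    have hθ0 : 0 ≤ θ := le_trans (Nat.cast_nonneg _) hθ
    have : (0 : ℝ) ≤ k := Nat.cast_nonneg _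
    have h2 := mul_nonneg hθ0 (add_nonneg hL0 (add_nonneg this zero_le_one))
    push_cast
    linarith
  obtain ⟨h1, _⟩ := count_runs (fun v => ¬ A (v - 1) (v + 1)) ⌊3 * B / (2 * M) + 1⌋₊ (k + 1) W
    (by
      intro a m ha ham hv
      exact Nat.le_floor (h.srun hM0 B hB a m ha ham hv))
    (by
      intro a m ha ham hv
      by_contra hcon
      push Not at hcon
      refine hc a (by omega) fun i j hi hij hj => ?_
      exact h.arun hT hM a m ha ham (fun v h1 h2 => not_not.1 (hv v h1 h2)) (j - i) i j hi hij
        (by omega) (by omega)) W hW le_rfl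
  have h2 : (W : ℝ) ≤ 1 + ((starts (fun v => ¬ A (v - 1) (v + 1)) W).card : ℝ) *
      ((⌊3 * B / (2 * M) + 1⌋₊ : ℝ) + (k + 1)) + (k + 1) := by
    exact_mod_cast h1
  have h3 : (⌊3 * B / (2 * M) + 1⌋₊ : ℝ) ≤ 3 * B / (2 * M) + 1 := Nat.floor_le hL0
  have h4 : ((starts (fun v => ¬ A (v - 1) (v + 1)) W).card : ℝ) *
      ((⌊3 * B / (2 * M) + 1⌋₊ : ℝ) + (k + 1)) ≤ θ * (3 * B / (2 * M) + 1 + (k + 1)) := by
    refine mul_le_mul hθ (by linarith) ?_ (le_trans (Nat.cast_nonneg _) hθ)
    positivity
  linarith

end Pool.Agent.SulK
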