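import Pool.Agent.SulK.Prep

/-!
# MP_109285_co, K-law, module LL: the two-sided statement
-/

set_option autoImplicit false

namespace Pool.Agent.SulK

/-- The choice of the cut `j` next to the first unseen vertex `T`. -/
theorem choose_j {x z : ℤ → ℝ} {s c T : ℤ} (hsc : s < c) (hcT : c ≤ T) (hb : Bad x z s T)
    (hzc : z s ≤ z c) (hzt : ∀ t, c ≤ t → t < T → z s ≤ z t + 1) :
    ∃ j, c ≤ j ∧ T - 1 ≤ j ∧ j ≤ T ∧ z (j + 1) + 18 ≤ w x z j + z s - W x z s T ∧
      (∀ t, c ≤ t → t < j → x t + 2 ≤ x j) := by
  have hW := bad_W hb (by omega)
  have hbt : ∀ t, c ≤ t → t < T → x t + z (t + 1) + 20 ≤ x T + z s := fun t h1 h2 =>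
    hb t (by omega) h2
  by_cases hA : z s - 2 ≤ z T ∨ x (T - 1) + 2 ≤ x T
  · refine ⟨T, hcT, by omega, le_rfl, ?_, ?_⟩
    · unfold w
      linarith
    · intro t h1 h2
      have h3 := hbt t h1 h2
      rcases eq_or_lt_of_le (show t ≤ T - 1 by omega) with h4 | h4
      · rcases hA with h5 | h5
        · rw [show t + 1 = T by omega] at h3
          linarith
        · rw [h4]
          exact h5
      · have h5 := hzt (t + 1) (by omega) (by omega)
        linarith
  · push Not at hA
    obtain ⟨hA1, hA2⟩ := hA
    have hT : c < T := by
      rcases eq_or_lt_of_le hcT with h | h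
      · exfalso
        rw [← h] at hA1
        linarith
      · exact h
    refine ⟨T - 1, by omega, le_rfl, by omega, ?_, ?_⟩
    · unfold w
      rw [sub_add_cancel]
      linarith
    · intro t h1 h2
      have h3 := hbt t h1 (by omega)
      have h5 := hzt (t + 1) (by omega) (by omega)
      linarith

/-- `(*)`: the walls telescope. -/
theorem wall_star {x z : ℤ → ℝ} {s c j T b : ℤ} (hsc : s < c) (hcj : c < j) (hjT : j ≤ T)
    (hjb : j < b) :
    max 0 (W x z c j - w x z (c - 1)) + max 0 (W x z c j - w x z j) + w x z j - W x z s T ≤
      max 0 (W x z c b - w x z (c - 1)) := by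
  have h1 : W x z c j ≤ W x z s T := W_mono (by omega) hcj hjT
  have h2 : w x z (c - 1) ≤ W x z s T := le_W (by omega) (by omega)
  have h3 : w x z j ≤ W x z c b := le_W (by omega) hjb
  have h4 : W x z c j ≤ W x z c b := W_mono le_rfl hcj (by omega)
  have h5 := le_max_left 0 (W x z c b - w x z (c - 1))
  have h6 := le_max_right 0 (W x z c b - w x z (c - 1))
  rcases le_total (W x z c j - w x z (c - 1)) 0 with h7 | h7
  · rw [max_eq_left h7]
    rcases le_total (W x z c j - w x z j) 0 with h8 | h8
    · rw [max_eq_left h8]
      linarith
    · rw [max_eq_right h8]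
      linarith
  · rw [max_eq_right h7]
    rcases le_total (W x z c j - w x z j) 0 with h8 | h8
    · rw [max_eq_left h8]
      linarith
    · rw [max_eq_right h8]
      linarith

/-- The level argument of case (4b). -/
theorem level_b {x z : ℤ → ℝ} {c n v : ℤ} (hcv : c + 2 ≤ v) (hvn : v + 1 ≤ n)
    (hPr : ∀ t, c ≤ t → t < v → x t + 2 ≤ x v) :
    Al x z (v - 1) n (x (v - 2)) ≤ Al x z (v + 1) n (x v) + max 0 (W x z c v - w x z v) := by
  have hx1 : x (v - 1) + 2 ≤ x v := hPr (v - 1) (by omega) (by omega)
  have hx2 : x (v - 2) + 2 ≤ x v := hPr (v - 2) (by omega) (by omega)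
  set X' := min (x (v - 2)) (x (v - 1)) with hX'
  have hX1 : X' ≤ x (v - 1) := min_le_right _ _
  have hX2 : X' ≤ x (v - 2) := min_le_left _ _
  have e1 : Al x z (v - 1) n (x (v - 2)) = af x (fun t => G x z (v - 1) t) X' (v + 1) n := by
    rw [Al_first (by omega), ← hX', show v - 1 + 1 = v by ring]
    exact af_left_nodrop (by linarith) n
  have e2 : af x (fun t => t = v + 1 ∨ G x z (v + 1) t) X' (v + 1) n ≤
      Al x z (v + 1) n (x v) := af_mono_cap (by linarith)
  rw [e1]
  refine le_trans (af_compare (R' := fun t => t = v + 1 ∨ G x z (v + 1) t) (le_max_left _ _) ?_)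
    (by linarith)
  intro t h1 h2 h3 h4 h5
  refine le_trans ?_ (le_max_right _ _)
  have hW1 : w x z (v - 1) ≤ W x z c v := le_W (by omega) (by omega)
  have hW2 : w x z (v - 2) ≤ W x z c v := le_W (by omega) (by omega)
  by_cases h6 : G x z v t
  · have h7 : Bad x z (v - 1) t := by
      rcases G_or_bad_left (i := v - 1) (by rw [sub_add_cancel]; exact h6) with h8 | h8
      · exact absurd h8 h4
      · exact h8
    have h8 := h7 v (by omega) (by omega)
    unfold w at hW2 ⊢
    rw [show v - 2 + 1 = v - 1 by ring] at hW2
    linarith
  · have h7 : Bad x z v t := by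
      rcases h3 with h3 | h3
      · exfalso
        apply h6
        rw [h3]
        exact G.unit v
      · rcases G_or_bad_left h3 with h8 | h8
        · exact absurd h8 h6
        · exact h8
    have h8 := h7 v le_rfl (by omega)
    unfold w at hW1 ⊢
    rw [show v - 1 + 1 = v by ring] at hW1
    linarith

/-- The level argument of case (4c). -/
theorem level_c {x z : ℤ → ℝ} {n v : ℤ} (hxv : x (v - 1) ≤ x v) :
    Al x z v n (x (v - 1)) ≤ Al x z (v + 1) n (x v) + max 0 (w x z (v - 1) - w x z v) := by
  have e1 : Al x z v n (x (v - 1)) = af x (fun t => t = v ∨ G x z v t) (x (v - 1)) (v + 1) n :=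
    af_left_nodrop hxv n
  have e2 : af x (fun t => t = v + 1 ∨ G x z (v + 1) t) (x (v - 1)) (v + 1) n ≤
      Al x z (v + 1) n (x v) := af_mono_cap hxv
  rw [e1]
  refine le_trans (af_compare (R' := fun t => t = v + 1 ∨ G x z (v + 1) t) (le_max_left _ _) ?_)
    (by linarith)
  intro t h1 h2 h3 h4 h5
  refine le_trans ?_ (le_max_right _ _)
  push Not at h4
  have h6 : G x z (v + 1) t := by
    rcases h3 with h3 | h3
    · exfalso
      apply h4.2
      rw [h3]
      exact G.unit v
    · exact h3
  have h7 : Bad x z v t := by
    rcases G_or_bad_left h6 with h8 | h8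
    · exact absurd h8 h4.2
    · exact h8
  have h8 := h7 v le_rfl (by omega)
  unfold w
  rw [show v - 1 + 1 = v by ring]
  linarith

/-! ### The modified system of case (4c) -/

/-- `z` raised at `v`. -/
noncomputable def zr (x z : ℤ → ℝ) (c v : ℤ) : ℤ → ℝ :=
  Function.update z v (min (w x z v) (W x z c (v - 1)) - x (v - 1))

theorem zr_ne {x z : ℤ → ℝ} {c v t : ℤ} (h : t ≠ v) : zr x z c v t = z t := by
  unfold zr
  rw [Function.update_of_ne h]

theorem zr_self {x z : ℤ → ℝ} {c v : ℤ} :
    x (v - 1) + zr x z c v v = min (w x z v) (W x z c (v - 1)) := by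
  unfold zr
  rw [Function.update_self]
  ring

theorem fc_w {x z : ℤ → ℝ} {c v : ℤ} :
    w x (zr x z c v) (v - 1) = min (w x z v) (W x z c (v - 1)) := by
  rw [← zr_self]
  unfold w
  rw [show v - 1 + 1 = v by ring]

section four_c

variable {x z : ℤ → ℝ} {s n c v : ℤ} (hsc : s < c) (hcv : c + 2 ≤ v)
  (hb : Bad x z s (v - 1)) (hxv : x (v - 1) + 2 ≤ x v)
  (hzs : ∀ t, s ≤ t → t < v - 1 → z s ≤ z t + 1)
  (hr : w x z (v - 1) ≤ min (w x z v) (W x z c (v - 1)))

include hr in
theorem fc_ge : z v ≤ zr x z c v v := by
  have h1 := zr_self (x := x) (z := z) (c := c) (v := v)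
  unfold w at hr
  rw [show v - 1 + 1 = v by ring] at hr
  unfold w at h1
  linarith

include hsc hcv hb hxv hzs in
/-- All pairs `(i, v)` are bad in the new system. -/
theorem fc_bad {i : ℤ} (h1 : s ≤ i) (h2 : i < v - 1) : Bad x (zr x z c v) i v := by
  have hW := bad_W hb (by omega)
  have hz := hzs i h1 h2
  intro k h3 h4
  rw [zr_ne (show i ≠ v by omega)]
  rcases eq_or_ne k (v - 1) with h5 | h5
  · subst h5
    rw [show v - 1 + 1 = v by ring, zr_self]
    have h6 : min (w x z v) (W x z c (v - 1)) ≤ W x z s (v - 1) :=
      le_trans (min_le_right _ _) (W_mono (by omega) (by omega) le_rfl)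
    linarith
  · rw [zr_ne (show k + 1 ≠ v by omega)]
    have h6 : w x z k ≤ W x z s (v - 1) := le_W (by omega) (by omega)
    unfold w at h6
    linarith

include hsc hcv hb hxv hzs hr in
/-- Bad pairs stay bad. -/
theorem fc_bad_of_bad {i j : ℤ} (h1 : s ≤ i) (h2 : i + 2 ≤ j) (h : Bad x z i j) :
    Bad x (zr x z c v) i j := by
  rcases eq_or_ne j v with h3 | h3
  · subst h3
    exact fc_bad hsc hcv hb hxv hzs h1 (by omega)
  · intro k h4 h5
    have h6 : z i ≤ zr x z c v i := by
      rcases eq_or_ne i v with h7 | h7
      · rw [h7]
        exact fc_ge hr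
      · rw [zr_ne h7]
    rcases eq_or_ne (k + 1) v with h7 | h7
    · have h8 := zr_self (x := x) (z := z) (c := c) (v := v)
      have h9 := h v (by omega) (by omega)
      have h10 : k = v - 1 := by omega
      rw [h7, h10, h8]
      have h11 : min (w x z v) (W x z c (v - 1)) ≤ w x z v := min_le_left _ _
      unfold w at h11 ⊢
      linarith
    · rw [zr_ne h7]
      have h8 := h k h4 h5
      linarith

include hsc hcv hb hxv hzs hr in
theorem fc_G {i j : ℤ} (h : G x (zr x z c v) i j) : s ≤ i → G x z i j := by
  induction h with
  | unit i => exact fun _ => G.unit i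
  | right i j h hb' ih =>
    intro h1
    have := h.lt
    exact G.right i j (ih h1) fun hb'' => hb'
      (fc_bad_of_bad hsc hcv hb hxv hzs hr h1 (by omega) hb'')
  | left i j h hb' ih =>
    intro h1
    have := h.lt
    exact G.left i j (ih (by omega)) fun hb'' => hb'
      (fc_bad_of_bad hsc hcv hb hxv hzs hr h1 (by omega) hb'')

include hsc hcv hb hxv hzs hr in
theorem fc_feas (hf : Feas x z s n) : Feas x (zr x z c v) s n := by
  intro i j hi hj hG k h1 h2
  have hlt := hG.lt
  rcases eq_or_lt_of_le (show i + 1 ≤ j by omega) with h3 | h3
  · have h4 : k = i := by omega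
    subst h4
    rw [h3]
    linarith
  · have hG' := fc_G hsc hcv hb hxv hzs hr hG hi
    have h5 : j ≠ v := by
      rintro rfl
      exact not_bad_of_G hG h3 (fc_bad hsc hcv hb hxv hzs hi (by omega))
    rw [zr_ne h5]
    rcases eq_or_ne (k + 1) v with h7 | h7
    · have h8 := zr_self (x := x) (z := z) (c := c) (v := v)
      have h9 := hf i j hi hj hG' v (by omega) (by omega)
      have h10 : k = v - 1 := by omega
      rw [h7, h10, h8]
      have h11 : min (w x z v) (W x z c (v - 1)) ≤ w x z v := min_le_left _ _
      unfold w at h11 ⊢
      linarith
    · rw [zr_ne h7]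
      exact hf i j hi hj hG' k h1 h2

end four_c

/-- The arithmetic of case (4c). -/
theorem fc_arith {Wc w1 wv Wcv : ℝ} (h1 : Wc ≤ Wcv) (h2 : w1 ≤ Wcv) {w' : ℝ}
    (hw : w' = max w1 (min wv Wc)) :
    max 0 (Wc - w') + max 0 (w' - wv) ≤ max 0 (Wcv - wv) := by
  have h5 := le_max_left 0 (Wcv - wv)
  have h6 := le_max_right 0 (Wcv - wv)
  rcases le_total w1 (min wv Wc) with h3 | h3
  · rw [max_eq_right h3] at hw
    rcases le_total wv Wc with h4 | h4
    · rw [min_eq_left h4] at hw
      rw [hw, sub_self, max_self, max_eq_right (by linarith)]
      linarith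
    · rw [min_eq_right h4] at hw
      rw [hw, sub_self, max_self, max_eq_left (by linarith)]
      linarith
  · rw [max_eq_left h3] at hw
    rw [hw]
    rcases le_total wv Wc with h4 | h4
    · rw [min_eq_left h4] at h3
      rw [max_eq_right (a := (0:ℝ)) (b := w1 - wv) (by linarith)]
      rcases le_total Wc w1 with h7 | h7
      · rw [max_eq_left (by linarith)]
        linarith
      · rw [max_eq_right (by linarith)]
        linarith
    · rw [min_eq_right h4] at h3
      rw [max_eq_left (a := (0:ℝ)) (b := Wc - w1) (by linarith)]
      rcases le_total wv w1 with h7 | h7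
      · rw [max_eq_right (by linarith)]
        linarith
      · rw [max_eq_left (by linarith)]
        linarith

/-- The induction step for the two-sided statement: windows of length at most `l + 1`. -/
theorem LL_step (l : ℕ)
    (IHL : ∀ (x z : ℤ → ℝ) (s e c : ℤ), e - s ≤ l → PL x z s e c)
    (IHLL : ∀ (x z : ℤ → ℝ) (s n c v : ℤ), n - s ≤ l → PLL x z s n c v) :
    ∀ (x z : ℤ → ℝ) (s n c v : ℤ), n - s ≤ l + 1 → PLL x z s n c v := by
  have main : ∀ m : ℕ, ∀ (v : ℤ) (x z : ℤ → ℝ) (s n c : ℤ), v - c ≤ m → n - s ≤ l + 1 →
      PLL x z s n c v := by
    intro m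
    induction m with
    | zero =>
      intro v x z s n c hvc _ ξ μ h1 h2
      exfalso
      push_cast at hvc
      omega
    | succ m ihm =>
      intro v x z s n c hvc hns ξ μ hsc hcv hvn hf hPl hPr hξ hμ1 hμ2
      -- trivial facts
      have hμc : μ ≤ z c := by
        have h1 := hμ2 (c + 1) (by omega) (by omega)
        have h2 := hPl (c + 1) (by omega) (by omega)
        linarith
      have hBe0 : μ ≤ Be x z s (c - 1) (z c) := le_Be hμc fun t h1 h2 => hμ1 t h1 (by omega)
      have hAl0 : ξ ≤ Al x z (v + 1) n (x v) :=
        le_trans (le_mn (hξ v (by omega) (by omega)) fun t h1 h2 => hξ t (by omega) h2) mn_le_Al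
      have hm1 := le_max_left 0 (W x z c v - w x z (c - 1))
      have hm2 := le_max_left 0 (W x z c v - w x z v)
      have htA : (tA x z (v - 1) : ℝ) ≤ 1 := by exact_mod_cast tA_le x z (v - 1)
      -- the trivial case
      have triv : v ≤ c + 3 → (th x z c v : ℝ) + tA x z (v - 1) ≤
          max 0 (W x z c v - w x z (c - 1)) + (Be x z s (c - 1) (z c) - μ) +
          max 0 (W x z c v - w x z v) + (Al x z (v + 1) n (x v) - ξ) + 10 := by
        intro h
        have h1 : (th x z c v : ℝ) ≤ 1 := by exact_mod_cast th_small (x := x) (z := z) h
        linarith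
      -- the main case
      have core : ∀ T, c ≤ T → T < v → Bad x z s T → z s ≤ z c → (∀ t, s ≤ t → t < c → z s ≤ z t) →
          (∀ t, c ≤ t → t < T → z s ≤ z t + 1) →
          (th x z c v : ℝ) + tA x z (v - 1) ≤
          max 0 (W x z c v - w x z (c - 1)) + (Be x z s (c - 1) (z c) - μ) +
          max 0 (W x z c v - w x z v) + (Al x z (v + 1) n (x v) - ξ) + 10 := by
        intro T hcT hTv hb hzc hz1 hz2
        obtain ⟨j, hcj, hTj, hjT, hzj, hxj⟩ := choose_j (by omega) hcT hb hzc hz2
        have hBs : z s ≤ Be x z s (c - 1) (z c) := le_Be hzc fun t h1 h2 => hz1 t h1 (by omega)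
        have hμs : μ ≤ z s := hμ1 s le_rfl (by omega)
        have hw1 : w x z (c - 1) ≤ W x z s T := le_W (by omega) (by omega)
        rcases lt_or_ge v (c + 4) with hsmall | hbig
        · exact triv (by omega)
        -- inner statement for `[c, j]`
        have inner : c + 2 ≤ j → (th x z c j : ℝ) + tA x z (j - 1) ≤
            max 0 (W x z c j - w x z (c - 1)) + (Be x z s (c - 1) (z c) - z s) +
            max 0 (W x z c j - w x z j) + (Al x z (j + 1) n (x j) - ξ) + 10 := by
          intro hj2
          exact ihm j x z s n c (by push_cast at hvc; omega) hns ξ (z s) hsc hj2 (by omega) hf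
            (fun t h1 h2 => hPl t h1 (by omega)) hxj hξ hz1
            (fun t h1 h2 => hz2 t h1 (by omega))
        rcases lt_or_ge (j + 2) v with hA | hB
        · -- (4a)
          have hm := PLm_of_PL (IHL (rv z) (rv x) (-n) (-(j + 1)) (-v) (by omega)) (μ - 1)
            (by omega) (by omega) (hf.mono (by omega) le_rfl)
            (fun t h1 h2 => hPr t (by omega) h2) (fun t h1 h2 => by
              have := hμ2 t (by omega) h2
              linarith)
          have hal : ξ ≤ al x z (j + 1) n := le_al (by omega) fun t h1 h2 => hξ t (by omega) h2
          have hth : (th x z c v : ℝ) ≤ th x z c j + th x z (j + 1) v + 1 := by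
            exact_mod_cast th_split (x := x) (z := z) hcj v (by omega)
          have hW2 : W x z (j + 1) v ≤ W x z c v := W_mono (by omega) (by omega) le_rfl
          have hm3 : max 0 (W x z (j + 1) v - w x z v) ≤ max 0 (W x z c v - w x z v) :=
            max_le_max le_rfl (by linarith)
          rcases lt_or_ge j (c + 1) with hj1 | hj1
          · -- j = c
            have hjc : j = c := by omega
            subst hjc
            have h0 : (th x z j j : ℝ) = 0 := by
              rw [th_base (by omega)]
              simp
            have hwj : w x z j ≤ W x z j v := le_W le_rfl (by omega)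
            have h5 : w x z j - W x z s T ≤ max 0 (W x z j v - w x z (j - 1)) :=
              le_trans (by linarith) (le_max_right _ _)
            linarith
          · have hstar := wall_star (x := x) (z := z) (s := s) (c := c) (j := j) (T := T) (b := v)
              (by omega) (by omega) hjT (by omega)
            have hQ : (th x z c j : ℝ) ≤ max 0 (W x z c j - w x z (c - 1)) +
                (Be x z s (c - 1) (z c) - z s) + max 0 (W x z c j - w x z j) +
                (al x z (j + 1) n - ξ) + 10 := by
              rcases lt_or_ge j (c + 2) with hj2 | hj2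
              · have h0 : (th x z c j : ℝ) = 0 := by
                  rw [th_base (by omega)]
                  simp
                have := le_max_left 0 (W x z c j - w x z (c - 1))
                have := le_max_left 0 (W x z c j - w x z j)
                linarith
              · have h6 := inner hj2
                have h7 := Al_le_al (x := x) (z := z) (p := j + 1) (e := n) (X := x j) (by omega)
                have h8 : (0 : ℝ) ≤ tA x z (j - 1) := Nat.cast_nonneg _
                linarith
            linarith
        · rcases eq_or_lt_of_le hB with hB | hB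
          · -- (4b): v = j + 2
            have hj2 : c + 2 ≤ j := by omega
            have hin := inner hj2
            have hjv : j = v - 2 := by omega
            subst hjv
            have hlev := level_b (x := x) (z := z) (c := c) (n := n) (v := v) hcv hvn hPr
            have hstar := wall_star (x := x) (z := z) (s := s) (c := c) (j := v - 2) (T := T)
              (b := v) (by omega) (by omega) hjT (by omega)
            have hth : (th x z c v : ℝ) + tA x z (v - 1) ≤ th x z c (v - 2) + tA x z (v - 3) + 1 := by
              exact_mod_cast th_two (x := x) (z := z) (s := c) (e := v) (by omega)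
            have h5 := hμ2 (v - 1) (by omega) (by omega)
            rw [show v - 2 - 1 = v - 3 by ring, show v - 2 + 1 = v - 1 by ring] at hin
            rw [show v - 2 + 1 = v - 1 by ring] at hzj
            linarith
          · -- (4c): j = T = v - 1
            have hjv : j = v - 1 := by omega
            subst hjv
            have hTv' : T = v - 1 := by omega
            subst hTv'
            have hxv : x (v - 1) + 2 ≤ x v := hPr (v - 1) (by omega) (by omega)
            have hzs : ∀ t, s ≤ t → t < v - 1 → z s ≤ z t + 1 := by
              intro t h1 h2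
              rcases lt_or_ge t c with h3 | h3
              · have := hz1 t h1 h3
                linarith
              · exact hz2 t h3 h2
            have hS : tS x z (v - 1) := by
              intro hG
              rw [show v - 1 - 1 = v - 2 by ring, show v - 1 + 1 = v by ring] at hG
              have h3 := hf (v - 2) v (by omega) (by omega) hG (v - 1) (by omega) (by omega)
              rw [show v - 1 + 1 = v by ring] at h3
              have h4 := hxj (v - 2) (by omega) (by omega)
              linarith
            have hth : (th x z c v : ℝ) + tA x z (v - 1) ≤ th x z c (v - 1) + tA x z (v - 2) := by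
              exact_mod_cast th_one (x := x) (z := z) (s := c) (e := v) (by omega) hS
            have hWc : W x z c (v - 1) ≤ W x z c v := W_mono le_rfl (by omega) (by omega)
            have hw1' : w x z (v - 1) ≤ W x z c v := le_W (by omega) (by omega)
            have hm4 : max 0 (W x z c (v - 1) - w x z (c - 1)) ≤
                max 0 (W x z c v - w x z (c - 1)) := max_le_max le_rfl (by linarith)
            rcases le_total (w x z (v - 1)) (min (w x z v) (W x z c (v - 1))) with hr | hr
            · -- raise
              set z' := zr x z c v with hz'
              have hfe := fc_feas (n := n) (by omega) hcv hb hxv hzs hr hf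
              rw [← hz'] at hfe
              have hne : ∀ t, t ≠ v → z' t = z t := fun t ht => zr_ne ht
              have hin := ihm (v - 1) x z' s n c (by push_cast at hvc; omega) hns ξ (z s) hsc
                (by omega) (by omega) hfe
                (fun t h1 h2 => by
                  rw [hne t (by omega), hne c (by omega)]
                  exact hPl t h1 (by omega)) hxj hξ
                (fun t h1 h2 => by
                  rw [hne t (by omega)]
                  exact hz1 t h1 h2)
                (fun t h1 h2 => by
                  rw [hne t (by omega)]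
                  exact hz2 t h1 h2)
              have c1 : th x z' c (v - 1) = th x z c (v - 1) :=
                th_congr (fun _ _ _ => rfl) (fun t h1 h2 => hne t (by omega))
              have c2 : tA x z' (v - 1 - 1) = tA x z (v - 2) := by
                rw [show v - 1 - 1 = v - 2 by ring]
                have h3 : tS x z' (v - 2) ↔ tS x z (v - 2) := by
                  unfold tS
                  rw [G_congr_iff (x := x) (z := z') (x' := x) (z' := z) (p := c) (q := v - 1)
                    (fun _ _ _ => rfl) (fun t h1 h2 => hne t (by omega)) (by omega) (by omega)]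
                by_cases h4 : tS x z (v - 2)
                · rw [tA_S h4, tA_S (h3.2 h4)]
                · rw [tA_A h4, tA_A (fun h5 => h4 (h3.1 h5))]
              have c3 : W x z' c (v - 1) = W x z c (v - 1) :=
                W_congr (by omega) (fun _ _ _ => rfl) (fun t h1 h2 => hne t (by omega))
              have c4 : w x z' (c - 1) = w x z (c - 1) := by
                unfold w
                rw [hne _ (by omega)]
              have c5 : Be x z' s (c - 1) (z' c) = Be x z s (c - 1) (z c) := by
                rw [hne c (by omega)]
                exact Be_congr (fun _ _ _ => rfl) (fun t h1 h2 => hne t (by omega))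
              have c6 : w x z' (v - 1) = min (w x z v) (W x z c (v - 1)) := fc_w
              have c7 : w x z' v = w x z v := by
                unfold w
                rw [hne _ (by omega)]
              have c8 : Al x z' (v + 1) n (x v) = Al x z (v + 1) n (x v) :=
                Al_congr (fun _ _ _ => rfl) (fun t h1 h2 => hne t (by omega))
              have hlev := level_c (x := x) (z := z') (n := n) (v := v) (by linarith)
              rw [c6, c7, c8] at hlev
              rw [c1, c2, c3, c4, c5, c6, show v - 1 + 1 = v by ring] at hin
              have har := fc_arith (Wc := W x z c (v - 1)) (w1 := w x z (v - 1)) (wv := w x z v)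
                (Wcv := W x z c v) hWc hw1' (w' := min (w x z v) (W x z c (v - 1)))
                (by rw [max_eq_right hr])
              linarith
            · have hin := inner (by omega)
              have hlev := level_c (x := x) (z := z) (n := n) (v := v) (by linarith)
              have har := fc_arith (Wc := W x z c (v - 1)) (w1 := w x z (v - 1)) (wv := w x z v)
                (Wcv := W x z c v) hWc hw1' (w' := w x z (v - 1)) (by rw [max_eq_left hr])
              rw [show v - 1 + 1 = v by ring, show v - 1 - 1 = v - 2 by ring] at hin
              linarith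
      -- the left end
      rcases eq_or_lt_of_le hsc with hs | hs
      · -- s = c - 1
        have hsN : s = c - 1 := by omega
        subst hsN
        rcases le_or_gt (z c) (z (c - 1)) with hz | hz
        · -- (0)
          rcases lt_or_ge v (c + 4) with hsmall | hbig
          · exact triv (by omega)
          have hm := PLm_of_PL (IHL (rv z) (rv x) (-n) (-(c + 1)) (-v) (by omega)) (μ - 1)
            (by omega) (by omega) (hf.mono (by omega) le_rfl)
            (fun t h1 h2 => hPr t (by omega) h2) (fun t h1 h2 => by
              have := hμ2 t (by omega) h2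
              linarith)
          have hal : ξ ≤ al x z (c + 1) n := le_al (by omega) fun t h1 h2 => hξ t (by omega) h2
          have hth : (th x z c v : ℝ) ≤ th x z (c + 1) v + 1 := by
            exact_mod_cast th_left_le (x := x) (z := z) (s := c) (e := v)
          have hW2 : W x z (c + 1) v ≤ W x z c v := W_mono (by omega) (by omega) le_rfl
          have hm3 : max 0 (W x z (c + 1) v - w x z v) ≤ max 0 (W x z c v - w x z v) :=
            max_le_max le_rfl (by linarith)
          have hBe : Be x z (c - 1) (c - 1) (z c) = z c := by
            rw [Be_self, min_eq_left hz]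
          have h5 := hPl (c + 1) (by omega) (by omega)
          rw [hBe]
          linarith
        · -- the pair (c - 1, c + 1) is bad
          have hb : Bad x z (c - 1) (c + 1) := by
            have h1 : G x z (c - 1 + 1) (c + 1) := by
              rw [sub_add_cancel]
              exact G.unit c
            rcases G_or_bad_left h1 with h2 | h2
            · exfalso
              have h3 := hf (c - 1) (c + 1) le_rfl (by omega) h2 (c - 1) le_rfl (by omega)
              rw [sub_add_cancel] at h3
              have h4 := hPl (c + 1) (by omega) (by omega)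
              linarith
            · exact h2
          exact core (c + 1) (by omega) (by omega) hb hz.le
            (fun t h1 h2 => by
              have : t = c - 1 := by omega
              rw [this])
            (fun t h1 h2 => by
              have : t = c := by omega
              rw [this]
              linarith)
      · -- s < c - 1
        by_cases hdrop : G x z s (c - 1) ∧ z s < mn z (z c) (s + 1) (c - 1)
        · obtain ⟨hG, hd⟩ := hdrop
          have hBes : Be x z s (c - 1) (z c) = Be x z (s + 1) (c - 1) (z c) -
              (mn z (z c) (s + 1) (c - 1) - z s) := by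
            rw [Be_pos (by omega) (Or.inr hG), max_eq_right (by linarith)]
          by_cases hall : ∃ t, c ≤ t ∧ t < v ∧ ¬ G x z s t
          · obtain ⟨t, ht1, ht2, ht3⟩ := hall
            obtain ⟨T, hT1, hT2, hT3, hT4, hT5⟩ := first_unseen hG ⟨t, by omega,
              show t ≤ v - 1 by omega, ht3⟩
            refine core T (by omega) (by omega) hT5 (le_trans hd.le mn_le_cap) ?_ ?_
            · intro u h1 h2
              rcases eq_or_lt_of_le h1 with h3 | h3
              · rw [h3]
              · exact le_trans hd.le (mn_le (by omega) (by omega))
            · intro u h1 h2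
              have h3 := hf s u le_rfl (by omega) (hT3 u (by omega) h2) s le_rfl (by omega)
              have h4 : z s ≤ z (s + 1) := le_trans hd.le (mn_le le_rfl (by omega))
              linarith
          · push Not at hall
            have hin := IHLL x z (s + 1) n c v (by omega) ξ
              (μ + (mn z (z c) (s + 1) (c - 1) - z s)) (by omega) hcv hvn
              (hf.mono (by omega) le_rfl) hPl hPr hξ
              (fun t h1 h2 => by
                have h3 : mn z (z c) (s + 1) (c - 1) ≤ z t := mn_le h1 (by omega)
                have h4 := hμ1 s le_rfl (by omega)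
                linarith)
              (fun t h1 h2 => by
                have h3 := hf s t le_rfl (by omega) (hall t h1 h2) s le_rfl (by omega)
                have h4 : mn z (z c) (s + 1) (c - 1) ≤ z (s + 1) := mn_le le_rfl (by omega)
                have h5 := hμ1 s le_rfl (by omega)
                linarith)
            rw [hBes]
            linarith
        · -- no drop
          have hBes : Be x z s (c - 1) (z c) = Be x z (s + 1) (c - 1) (z c) := by
            by_cases hG : G x z s (c - 1)
            · exact Be_nodrop (by omega) (by
                by_contra hc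
                exact hdrop ⟨hG, not_le.1 hc⟩)
            · exact Be_neg (by omega) hG
          have hin := IHLL x z (s + 1) n c v (by omega) ξ μ (by omega) hcv hvn
              (hf.mono (by omega) le_rfl) hPl hPr hξ
              (fun t h1 h2 => hμ1 t (by omega) h2) hμ2
          rw [hBes]
          exact hin
  intro x z s n c v hns
  exact main (v - c).toNat v x z s n c (by omega) hns

end Pool.Agent.SulK
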