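import Pool.Agent.SulK.LL

/-!
# MP_109285_co, K-law, module LS: the one-sided statement
-/

set_option autoImplicit false

namespace Pool.Agent.SulK

/-- The induction step for the one-sided statement: windows of length at most `l + 1`. -/
theorem L_step (l : ℕ)
    (IHD : ∀ (x z : ℤ → ℝ) (s e : ℤ), e - s ≤ l → PD x z s e)
    (IHL : ∀ (x z : ℤ → ℝ) (s e c : ℤ), e - s ≤ l → PL x z s e c)
    (HLL : ∀ (x z : ℤ → ℝ) (s n c v : ℤ), n - s ≤ l + 1 → PLL x z s n c v) :
    ∀ (x z : ℤ → ℝ) (s e c : ℤ), e - s ≤ l + 1 → PL x z s e c := by
  intro x z s e c hes ξ lam hsc hce hf hPl hξ hlam1 hlam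
  have hm1 := le_max_left 0 (W x z c e - w x z (c - 1))
  -- the main case
  have core : ∀ T, c ≤ T → T ≤ e → Bad x z s T → z s ≤ z c → (∀ t, s ≤ t → t < c → z s ≤ z t) →
      (∀ t, c ≤ t → t < T → z s ≤ z t + 1) →
      (th x z c e : ℝ) + lam ≤ (x e - ξ) + max 0 (W x z c e - w x z (c - 1)) +
      (Be x z s (c - 1) (z c) - be x z s e) + 5 := by
    intro T hcT hTe hb hzc hz1 hz2
    have hBs : z s ≤ Be x z s (c - 1) (z c) := le_Be hzc fun t h1 h2 => hz1 t h1 (by omega)
    have hw1 : w x z (c - 1) ≤ W x z s T := le_W (by omega) (by omega)
    rcases eq_or_lt_of_le hTe with hTe | hTe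
    · -- T = e
      subst hTe
      have h1 := hb (T - 1) (by omega) (by omega)
      rw [sub_add_cancel] at h1
      have h2 : be x z s T ≤ z T := Be_le_cap
      rcases lt_or_ge T (c + 3) with hsmall | hbig
      · have h3 : (th x z c T : ℝ) ≤ 1 := by exact_mod_cast th_small (x := x) (z := z) hsmall.le
        have h4 := hξ (T - 1) (by omega) (by omega)
        linarith
      · have hin := IHL x z s (T - 1) c (by omega) ξ 0 hsc (by omega) (hf.mono le_rfl (by omega))
          (fun t h3 h4 => hPl t h3 (by omega)) (fun t h3 h4 => hξ t h3 (by omega)) zero_le_one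
          (Or.inl rfl)
        have h3 : z s - 1 ≤ be x z s (T - 1) := by
          refine le_Be ?_ ?_
          · have := hz2 (T - 1) (by omega) (by omega)
            linarith
          · intro t h3 h4
            rcases lt_or_ge t c with h5 | h5
            · have := hz1 t h3 h5
              linarith
            · have := hz2 t h5 (by omega)
              linarith
        have h4 : (th x z c T : ℝ) ≤ th x z c (T - 1) + 1 := by
          exact_mod_cast th_right_le (x := x) (z := z) (s := c) (e := T)
        have h5 : max 0 (W x z c (T - 1) - w x z (c - 1)) ≤ max 0 (W x z c T - w x z (c - 1)) :=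
          max_le_max le_rfl (by
            have := W_mono (x := x) (z := z) (i := c) (j := T - 1) (i' := c) (j' := T) le_rfl
              (by omega) (by omega)
            linarith)
        linarith
    · -- T < e
      obtain ⟨j, hcj, hTj, hjT, hzj, hxj⟩ := choose_j (by omega) hcT hb hzc hz2
      have hD := IHD x z (j + 1) e (by omega) (by omega) (hf.mono (by omega) le_rfl)
      unfold D at hD
      have hbe : be x z s e ≤ be x z (j + 1) e := be_anti (by omega)
      have hal : ξ ≤ al x z (j + 1) e := le_al (by omega) fun t h1 h2 => hξ t (by omega) h2
      have hth : (th x z c e : ℝ) ≤ th x z c j + th x z (j + 1) e + 1 := by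
        exact_mod_cast th_split (x := x) (z := z) hcj e (by omega)
      rcases lt_or_ge j (c + 1) with hj1 | hj1
      · have hjc : j = c := by omega
        subst hjc
        have h0 : (th x z j j : ℝ) = 0 := by
          rw [th_base (by omega)]
          simp
        have hwj : w x z j ≤ W x z j e := le_W le_rfl (by omega)
        have h5 : w x z j - W x z s T ≤ max 0 (W x z j e - w x z (j - 1)) :=
          le_trans (by linarith) (le_max_right _ _)
        linarith
      · have hstar := wall_star (x := x) (z := z) (s := s) (c := c) (j := j) (T := T) (b := e)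
          (by omega) (by omega) hjT (by omega)
        have hQ : (th x z c j : ℝ) ≤ max 0 (W x z c j - w x z (c - 1)) +
            (Be x z s (c - 1) (z c) - z s) + max 0 (W x z c j - w x z j) +
            (al x z (j + 1) e - ξ) + 10 := by
          rcases lt_or_ge j (c + 2) with hj2 | hj2
          · have h0 : (th x z c j : ℝ) = 0 := by
              rw [th_base (by omega)]
              simp
            have := le_max_left 0 (W x z c j - w x z (c - 1))
            have := le_max_left 0 (W x z c j - w x z j)
            linarith
          · have h6 := HLL x z s e c j (by omega) ξ (z s) hsc hj2 (by omega) hf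
              (fun t h1 h2 => hPl t h1 (by omega)) hxj hξ hz1
              (fun t h1 h2 => hz2 t h1 (by omega))
            have h7 := Al_le_al (x := x) (z := z) (p := j + 1) (e := e) (X := x j) (by omega)
            have h8 : (0 : ℝ) ≤ tA x z (j - 1) := Nat.cast_nonneg _
            linarith
        linarith
  -- the left end
  rcases eq_or_lt_of_le hsc with hs | hs
  · have hsN : s = c - 1 := by omega
    subst hsN
    rcases le_or_gt (z c) (z (c - 1)) with hz | hz
    · have hD := IHD x z (c + 1) e (by omega) (by omega) (hf.mono (by omega) le_rfl)
      unfold D at hD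
      have hbe : be x z (c - 1) e ≤ be x z (c + 1) e := be_anti (by omega)
      have hal : ξ ≤ al x z (c + 1) e := le_al (by omega) fun t h1 h2 => hξ t (by omega) h2
      have hth : (th x z c e : ℝ) ≤ th x z (c + 1) e + 1 := by
        exact_mod_cast th_left_le (x := x) (z := z) (s := c) (e := e)
      have hBe : Be x z (c - 1) (c - 1) (z c) = z c := by
        rw [Be_self, min_eq_left hz]
      have h5 := hPl (c + 1) (by omega) (by omega)
      rw [hBe]
      linarith
    · have hb : Bad x z (c - 1) (c + 1) := by
        have h1 : G x z (c - 1 + 1) (c + 1) := by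
          rw [sub_add_cancel]
          exact G.unit c
        rcases G_or_bad_left h1 with h2 | h2
        · exfalso
          have h3 := hf (c - 1) (c + 1) le_rfl (by omega) h2 (c - 1) le_rfl (by omega)
          rw [sub_add_cancel] at h3
          have h4 := hPl (c + 1) (by omega) (by omega)
          linarith
        · exact h2
      exact core (c + 1) (by omega) (by omega) hb hz.le
        (fun t h1 h2 => by
          have : t = c - 1 := by omega
          rw [this])
        (fun t h1 h2 => by
          have : t = c := by omega
          rw [this]
          linarith)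
  · by_cases hdrop : G x z s (c - 1) ∧ z s < mn z (z c) (s + 1) (c - 1)
    · obtain ⟨hG, hd⟩ := hdrop
      have hBes : Be x z s (c - 1) (z c) = Be x z (s + 1) (c - 1) (z c) -
          (mn z (z c) (s + 1) (c - 1) - z s) := by
        rw [Be_pos (by omega) (Or.inr hG), max_eq_right (by linarith)]
      by_cases hall : ∃ t, c ≤ t ∧ t ≤ e ∧ ¬ G x z s t
      · obtain ⟨t, ht1, ht2, ht3⟩ := hall
        obtain ⟨T, hT1, hT2, hT3, hT4, hT5⟩ := first_unseen hG ⟨t, by omega, ht2, ht3⟩
        refine core T (by omega) hT2 hT5 (le_trans hd.le mn_le_cap) ?_ ?_
        · intro u h1 h2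
          rcases eq_or_lt_of_le h1 with h3 | h3
          · rw [h3]
          · exact le_trans hd.le (mn_le (by omega) (by omega))
        · intro u h1 h2
          have h3 := hf s u le_rfl (by omega) (hT3 u (by omega) h2) s le_rfl (by omega)
          have h4 : z s ≤ z (s + 1) := le_trans hd.le (mn_le le_rfl (by omega))
          linarith
      · push Not at hall
        have hbes : be x z s e = be x z (s + 1) e - max 0 (mn z (z e) (s + 1) e - z s) := by
          unfold be
          rw [Be_pos (by omega) (Or.inr (hall e (by omega) le_rfl))]
        set m := mn z (z c) (s + 1) (c - 1) with hm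
        set q := mn z (z e) (s + 1) e with hq
        have hqt : ∀ t, s + 1 ≤ t → t ≤ e → q ≤ z t := fun t h1 h2 => mn_le h1 h2
        have hqm : q ≤ m := le_mn (hqt c (by omega) (by omega)) fun t h1 h2 => hqt t h1 (by omega)
        have hmt : ∀ t, s + 1 ≤ t → t < c → m ≤ z t := fun t h1 h2 => mn_le h1 (by omega)
        have hlams : lam ≤ max (z s - q) 0 := by
          rcases hlam with h1 | ⟨t', h1, h2, h3⟩
          · rw [h1]
            exact le_max_right _ _
          · refine le_trans ?_ (le_max_left _ _)
            have h4 := h3 s le_rfl (by omega)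
            have h5 := hqt t' (by omega) h2
            linarith
        -- `q` is attained
        have hatt : ∃ t0, s + 1 ≤ t0 ∧ t0 ≤ e ∧ z t0 = q := by
          rcases mn_attained z (z e) (s + 1) e with h1 | ⟨t, h1, h2, h3⟩
          · exact ⟨e, by omega, le_rfl, h1.symm⟩
          · exact ⟨t, h1, h2, h3⟩
        obtain ⟨t0, ht1, ht2, ht3⟩ := hatt
        rcases lt_or_ge t0 c with ht4 | ht4
        · -- `q = m`
          have hqm' : q = m := le_antisymm hqm (by
            rw [← ht3]
            exact hmt t0 ht1 ht4)
          have hin := IHL x z (s + 1) e c (by omega) ξ 0 (by omega) hce (hf.mono (by omega) le_rfl)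
            hPl hξ zero_le_one (Or.inl rfl)
          have hlam0 : lam ≤ 0 := by
            rw [max_eq_right (by linarith)] at hlams
            exact hlams
          have h6 : max 0 (m - z s) = m - z s := max_eq_right (by linarith)
          rw [hBes, hbes, hqm', h6]
          linarith
        · have hin := IHL x z (s + 1) e c (by omega) ξ (m - q) (by omega) hce
            (hf.mono (by omega) le_rfl) hPl hξ (by
              have h3 := hf s t0 le_rfl ht2 (hall t0 ht4 ht2) s le_rfl (by omega)
              have h4 : m ≤ z (s + 1) := mn_le le_rfl (by omega)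
              linarith)
            (Or.inr ⟨t0, ht4, ht2, fun t h1 h2 => by
              have := hmt t h1 h2
              linarith⟩)
          rw [hBes, hbes]
          have h5 : max (z s - q) 0 = z s - q + max 0 (q - z s) := by
            rcases le_total (z s) q with h6 | h6
            · rw [max_eq_right (by linarith), max_eq_right (by linarith)]
              ring
            · rw [max_eq_left (by linarith), max_eq_left (by linarith)]
              ring
          linarith
    · have hBes : Be x z s (c - 1) (z c) = Be x z (s + 1) (c - 1) (z c) := by
        by_cases hG : G x z s (c - 1)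
        · exact Be_nodrop (by omega) (by
            by_contra hc
            exact hdrop ⟨hG, not_le.1 hc⟩)
        · exact Be_neg (by omega) hG
      have hbe : be x z s e ≤ be x z (s + 1) e := be_anti (by omega)
      have hin := IHL x z (s + 1) e c (by omega) ξ lam (by omega) hce (hf.mono (by omega) le_rfl)
        hPl hξ hlam1 (by
          rcases hlam with h1 | ⟨t', h1, h2, h3⟩
          · exact Or.inl h1
          · exact Or.inr ⟨t', h1, h2, fun t h4 h5 => h3 t (by omega) h5⟩)
      rw [hBes]
      linarith

end Pool.Agent.SulK
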