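import Pool.Agent.SulK.End4

/-!
# MP_109285_co (Sullivan), ratio form, module Out: the out-degrees

If all in-degrees lie in `[d, K d]` and `|N2+(v)| ≤ g |N-(v)|` for all `v` with `g` tiny, then all
out-degrees are at most `18 K ^ 2 g d`.
-/

set_option autoImplicit false

namespace Pool.Agent.SulK

open Pool.Agent.Sul

/-- The theorem for an arbitrary finite vertex set. -/
theorem final_fintype {V : Type} [Fintype V] [Nonempty V] (adj : V → V → Prop)
    (has : ∀ x y, adj x y → ¬ adj y x) (d : ℝ) (hd : 0 < d) (hdeg : ∀ v, d ≤ dg adj v) :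
    ∃ v, dg adj v ≤ (10 * (1 + Real.log (Fintype.card V / d))) ^ 126 * n2 adj v := by
  obtain ⟨e⟩ : Nonempty (V ≃ Fin (Fintype.card V)) := ⟨Fintype.equivFin V⟩
  have key1 : ∀ v : Fin (Fintype.card V),
      ({u | adj (e.symm u) (e.symm v)} : Set (Fin (Fintype.card V))).ncard =
        ({u | adj u (e.symm v)} : Set V).ncard := by
    intro v
    have h : ({u | adj (e.symm u) (e.symm v)} : Set (Fin (Fintype.card V))) =
        e '' {u | adj u (e.symm v)} := by
      ext u
      simp only [Set.mem_setOf_eq, Set.mem_image]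
      constructor
      · intro h
        exact ⟨e.symm u, h, e.apply_symm_apply u⟩
      · rintro ⟨x, hx, rfl⟩
        rwa [e.symm_apply_apply]
    rw [h, Set.ncard_image_of_injective _ e.injective]
  have key2 : ∀ v : Fin (Fintype.card V),
      ({w | w ≠ v ∧ ¬ adj (e.symm v) (e.symm w) ∧
        ∃ u, adj (e.symm v) (e.symm u) ∧ adj (e.symm u) (e.symm w)} :
          Set (Fin (Fintype.card V))).ncard =
        ({w | w ≠ e.symm v ∧ ¬ adj (e.symm v) w ∧ ∃ u, adj (e.symm v) u ∧ adj u w} :
          Set V).ncard := by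
    intro v
    have h : ({w | w ≠ v ∧ ¬ adj (e.symm v) (e.symm w) ∧
        ∃ u, adj (e.symm v) (e.symm u) ∧ adj (e.symm u) (e.symm w)} :
          Set (Fin (Fintype.card V))) =
        e '' {w | w ≠ e.symm v ∧ ¬ adj (e.symm v) w ∧ ∃ u, adj (e.symm v) u ∧ adj u w} := by
      ext w
      simp only [Set.mem_setOf_eq, Set.mem_image]
      constructor
      · rintro ⟨h1, h2, u, h3, h4⟩
        refine ⟨e.symm w, ⟨fun h => h1 (e.symm.injective h), h2, e.symm u, h3, h4⟩,
          e.apply_symm_apply w⟩
      · rintro ⟨x, ⟨h1, h2, u, h3, h4⟩, rfl⟩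
        refine ⟨fun h => h1 ?_, ?_, e u, ?_, ?_⟩
        · rw [← h, e.symm_apply_apply]
        · rwa [e.symm_apply_apply]
        · rwa [e.symm_apply_apply]
        · rwa [e.symm_apply_apply, e.symm_apply_apply]
    rw [h, Set.ncard_image_of_injective _ e.injective]
  obtain ⟨v, hv⟩ := final lawN (Fintype.card V) (fun x y => adj (e.symm x) (e.symm y))
    Fintype.card_pos (fun x y h => has _ _ h) d hd
    (fun v => by
      rw [key1 v]
      exact hdeg (e.symm v))
  refine ⟨e.symm v, ?_⟩
  rw [key1 v, key2 v] at hv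
  exact hv

/-- The theorem for the induced subgraph on a set `S` in which every vertex of `S` has at least
`c` times its in-neighbours, `0 < c`. -/
theorem sub_bound {V : Type} [Fintype V] (adj : V → V → Prop)
    (has : ∀ x y, adj x y → ¬ adj y x) (S : Finset V) (hS : S.Nonempty) (d' c g : ℝ)
    (hd' : 0 < d') (hc : 0 < c) (hg0 : 0 ≤ g) (hg : ∀ v, n2 adj v ≤ g * dg adj v)
    (hin : ∀ v ∈ S, d' ≤ (({u | u ∈ S ∧ adj u v} : Set V).ncard : ℝ))
    (hin' : ∀ v ∈ S, c * dg adj v ≤ (({u | u ∈ S ∧ adj u v} : Set V).ncard : ℝ)) :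
    1 ≤ (10 * (1 + Real.log (S.card / d'))) ^ 126 * (g / c) := by
  classical
  have hne : Nonempty {x // x ∈ S} := by
    obtain ⟨x, hx⟩ := hS
    exact ⟨⟨x, hx⟩⟩
  have key1 : ∀ v : {x // x ∈ S},
      dg (fun x y : {x // x ∈ S} => adj x.1 y.1) v =
        (({u | u ∈ S ∧ adj u v.1} : Set V).ncard : ℝ) := by
    intro v
    have h : ({u | u ∈ S ∧ adj u v.1} : Set V) =
        Subtype.val '' ({u | adj u.1 v.1} : Set {x // x ∈ S}) := by
      ext u
      simp only [Set.mem_setOf_eq, Set.mem_image]
      constructor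
      · rintro ⟨h1, h2⟩
        exact ⟨⟨u, h1⟩, h2, rfl⟩
      · rintro ⟨x, hx, rfl⟩
        exact ⟨x.2, hx⟩
    rw [h, Set.ncard_image_of_injective _ Subtype.val_injective]
    rfl
  have key2 : ∀ v : {x // x ∈ S},
      n2 (fun x y : {x // x ∈ S} => adj x.1 y.1) v ≤ n2 adj v.1 := by
    intro v
    unfold n2
    rw [← Set.ncard_image_of_injective _ (Subtype.val_injective (p := fun x => x ∈ S))]
    have := Set.ncard_le_ncard (s := Subtype.val '' ({w : {x // x ∈ S} | w ≠ v ∧
      ¬ adj v.1 w.1 ∧ ∃ u : {x // x ∈ S}, adj v.1 u.1 ∧ adj u.1 w.1}))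
      (t := {w | w ≠ v.1 ∧ ¬ adj v.1 w ∧ ∃ u, adj v.1 u ∧ adj u w}) (by
        rintro _ ⟨w, ⟨h1, h2, u, h3, h4⟩, rfl⟩
        exact ⟨fun h => h1 (Subtype.ext h), h2, u.1, h3, h4⟩) (Set.toFinite _)
    exact_mod_cast this
  obtain ⟨v, hv⟩ := final_fintype (fun x y : {x // x ∈ S} => adj x.1 y.1)
    (fun x y h => has _ _ h) d' hd' (fun v => by
      rw [key1 v]
      exact hin v.1 v.2)
  rw [Fintype.card_coe] at hv
  have h1 := hin' v.1 v.2
  have h2 := key2 v
  have h3 := hg v.1
  have h4 := hin v.1 v.2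
  rw [key1 v] at hv
  obtain ⟨D, hD⟩ : ∃ D, D = (({u | u ∈ S ∧ adj u v.1} : Set V).ncard : ℝ) := ⟨_, rfl⟩
  rw [← hD] at hv h1 h4
  obtain ⟨L, hL⟩ : ∃ L, L = (10 * (1 + Real.log (S.card / d'))) ^ 126 := ⟨_, rfl⟩
  rw [← hL] at hv ⊢
  have hL0 : 0 ≤ L := by
    rw [hL]
    exact Even.pow_nonneg (by decide) _
  have h5 : dg adj v.1 ≤ D / c := by
    rw [le_div_iff₀ hc]
    linarith
  have h6 : n2 (fun x y : {x // x ∈ S} => adj x.1 y.1) v ≤ g * (D / c) :=
    h2.trans (h3.trans (mul_le_mul_of_nonneg_left h5 hg0))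
  have h7 : D ≤ L * (g * (D / c)) := hv.trans (mul_le_mul_of_nonneg_left h6 hL0)
  have hD0 : 0 < D := by linarith
  have h8 : L * (g * (D / c)) = (L * (g / c)) * D := by ring
  rw [h8] at h7
  by_contra hcon
  push Not at hcon
  have := mul_lt_mul_of_pos_right hcon hD0
  linarith

open Classical in
/-- The balls of the backward exploration from `w`. -/
noncomputable def hb {V : Type} [Fintype V] (adj : V → V → Prop) (w : V) : ℕ → Finset V
  | 0 => {w}
  | j + 1 => hb adj w j ∪ Finset.univ.filter (fun p => ∃ v ∈ hb adj w j, adj p v)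

open Classical in
/-- The set of out-neighbours. -/
noncomputable def no {V : Type} [Fintype V] (adj : V → V → Prop) (w : V) : Finset V :=
  Finset.univ.filter (fun u => adj w u)

open Classical in
theorem no_sdiff {V : Type} [Fintype V] (adj : V → V → Prop)
    (has : ∀ x y, adj x y → ¬ adj y x) (B g : ℝ)
    (hB : ∀ v, dg adj v ≤ B) (hB0 : 0 ≤ B) (hg0 : 0 ≤ g) (hg : ∀ v, n2 adj v ≤ g * dg adj v)
    (w : V) (j : ℕ) :
    ∀ v ∈ hb adj w j, ((no adj w \ no adj v).card : ℝ) ≤ j * (g * B) := by
  have hgB : 0 ≤ g * B := mul_nonneg hg0 hB0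
  induction j with
  | zero =>
    intro v hv
    have : v = w := by simpa [hb] using hv
    subst this
    simp
  | succ j ih =>
    intro v hv
    push_cast
    rw [hb, Finset.mem_union] at hv
    rcases hv with hv | hv
    · have := ih v hv
      linarith
    · rw [Finset.mem_filter] at hv
      obtain ⟨-, v', hv', hadj⟩ := hv
      have h1 := ih v' hv'
      have h2 : no adj w \ no adj v ⊆ (no adj w \ no adj v') ∪ (no adj v' \ no adj v) := by
        intro u hu
        rw [Finset.mem_sdiff] at hu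
        rw [Finset.mem_union, Finset.mem_sdiff, Finset.mem_sdiff]
        by_cases h : u ∈ no adj v'
        · exact Or.inr ⟨h, hu.2⟩
        · exact Or.inl ⟨hu.1, h⟩
      have h3 : ((no adj v' \ no adj v).card : ℝ) ≤ n2 adj v := by
        unfold n2
        rw [← Set.ncard_coe_finset]
        have := Set.ncard_le_ncard (s := ((no adj v' \ no adj v : Finset V) : Set V))
          (t := {w | w ≠ v ∧ ¬ adj v w ∧ ∃ u, adj v u ∧ adj u w}) (by
            intro u hu
            rw [Finset.mem_coe, Finset.mem_sdiff, no, no, Finset.mem_filter,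
              Finset.mem_filter] at hu
            obtain ⟨⟨-, hu1⟩, hu2⟩ := hu
            have hu2' : ¬ adj v u := fun h => hu2 ⟨Finset.mem_univ _, h⟩
            refine ⟨?_, hu2', v', hadj, hu1⟩
            rintro rfl
            exact has _ _ hadj hu1) (Set.toFinite _)
        exact_mod_cast this
      have h4 : ((no adj w \ no adj v).card : ℝ) ≤
          (no adj w \ no adj v').card + (no adj v' \ no adj v).card := by
        have := (Finset.card_le_card h2).trans (Finset.card_union_le _ _)
        exact_mod_cast this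
      have h5 : n2 adj v ≤ g * B := (hg v).trans (mul_le_mul_of_nonneg_left (hB v) hg0)
      linarith

open Classical in
theorem hb_card {V : Type} [Fintype V] (adj : V → V → Prop) (B : ℝ)
    (hB : ∀ v, dg adj v ≤ B) (w : V) (S : Finset V) (hw : (0 : ℝ) < (no adj w).card)
    (hS : ∀ v ∈ S, ((no adj w).card : ℝ) / 2 ≤ ((no adj w ∩ no adj v).card : ℝ)) :
    (S.card : ℝ) ≤ 2 * B := by
  have h1 : ∑ v ∈ S, ((no adj w ∩ no adj v).card : ℝ) ≤ (no adj w).card * B := by
    have e1 : ∑ v ∈ S, (no adj w ∩ no adj v).card =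
        ∑ u ∈ no adj w, (S.filter (fun v => adj v u)).card := by
      have := Finset.sum_card_bipartiteAbove_eq_sum_card_bipartiteBelow (s := S)
        (t := no adj w) adj
      unfold Finset.bipartiteAbove Finset.bipartiteBelow at this
      rw [← this]
      refine Finset.sum_congr rfl fun v _ => ?_
      congr 1
      ext u
      simp [no]
    have e2 : ∑ v ∈ S, ((no adj w ∩ no adj v).card : ℝ) =
        ∑ u ∈ no adj w, ((S.filter (fun v => adj v u)).card : ℝ) := by exact_mod_cast e1
    rw [e2]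
    calc ∑ u ∈ no adj w, ((S.filter (fun v => adj v u)).card : ℝ)
        ≤ ∑ _u ∈ no adj w, B := by
          refine Finset.sum_le_sum fun u _ => le_trans ?_ (hB u)
          unfold dg
          rw [← Set.ncard_coe_finset]
          have := Set.ncard_le_ncard (s := ((S.filter (fun v => adj v u) : Finset V) : Set V))
            (t := {v | adj v u}) (by
              intro v hv
              rw [Finset.mem_coe, Finset.mem_filter] at hv
              exact hv.2) (Set.toFinite _)
          exact_mod_cast this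
      _ = (no adj w).card * B := by
          rw [Finset.sum_const, nsmul_eq_mul]
  have h2 : (S.card : ℝ) * ((no adj w).card / 2) ≤ ∑ v ∈ S, ((no adj w ∩ no adj v).card : ℝ) := by
    have := Finset.card_nsmul_le_sum S (fun v => ((no adj w ∩ no adj v).card : ℝ))
      (((no adj w).card : ℝ) / 2) hS
    rwa [nsmul_eq_mul] at this
  have h3 : (S.card : ℝ) * ((no adj w).card / 2) ≤ (no adj w).card * B := h2.trans h1
  have h4 : (no adj w).card * (S.card : ℝ) ≤ (no adj w).card * (2 * B) := by linarith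
  exact le_of_mul_le_mul_left h4 hw

open Classical in
theorem hb_mono {V : Type} [Fintype V] (adj : V → V → Prop) (w : V) (j : ℕ) :
    hb adj w j ⊆ hb adj w (j + 1) := by
  rw [hb]
  exact Finset.subset_union_left

open Classical in
theorem hb_grow {V : Type} [Fintype V] (adj : V → V → Prop) (w : V) (J : ℕ) (c : ℝ)
    (h : ∀ j < J, c < ((hb adj w (j + 1) \ hb adj w j).card : ℝ)) :
    ∀ j ≤ J, j * c < ((hb adj w j).card : ℝ) := by
  intro j
  induction j with
  | zero =>
    intro _
    simp [hb]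
  | succ j ih =>
    intro hj
    have h1 := ih (by omega)
    have h2 := h j (by omega)
    have h3 : ((hb adj w (j + 1)).card : ℝ) =
        (hb adj w (j + 1) \ hb adj w j).card + (hb adj w j).card := by
      have := Finset.card_sdiff_add_card_eq_card (hb_mono adj w j)
      exact_mod_cast this.symm
    push_cast
    rw [h3]
    linarith

open Classical in
theorem outdeg_bound {V : Type} [Fintype V] [Nonempty V] (adj : V → V → Prop)
    (has : ∀ x y, adj x y → ¬ adj y x) (d K g : ℝ) (hd : 0 < d) (hK : 1 ≤ K)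
    (hdeg : ∀ v, d ≤ dg adj v) (hDelta : ∀ v, dg adj v ≤ K * d) (hg0 : 0 ≤ g)
    (hg : ∀ v, n2 adj v ≤ g * dg adj v)
    (hg1 : 4 / 3 * g * (10 * (1 + Real.log (8 * K / 3))) ^ 126 < 1) :
    ∀ w, (({v | adj w v} : Set V).ncard : ℝ) ≤ 18 * K ^ 2 * g * d := by
  intro w
  have hKd : 0 < K * d := by positivity
  by_contra hcon
  push Not at hcon
  have hno : (({v | adj w v} : Set V).ncard : ℝ) = ((no adj w).card : ℝ) := by
    have : ({v | adj w v} : Set V) = ((no adj w : Finset V) : Set V) := by
      ext u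
      simp [no]
    rw [this, Set.ncard_coe_finset]
  rw [hno] at hcon
  obtain ⟨N, hN⟩ : ∃ N, N = ((no adj w).card : ℝ) := ⟨_, rfl⟩
  have hN0 : 0 < N := by
    rw [hN]
    refine lt_of_le_of_lt ?_ hcon
    positivity
  obtain ⟨J, hJ⟩ : ∃ J : ℕ, J = ⌈8 * K⌉₊ := ⟨_, rfl⟩
  have hJ1 : 8 * K ≤ J := by
    rw [hJ]
    exact Nat.le_ceil _
  have hJ2 : (J : ℝ) ≤ 9 * K := by
    have : (J : ℝ) < 8 * K + 1 := by
      rw [hJ]
      exact Nat.ceil_lt_add_one (by positivity)
    linarith
  have hgKd : 0 ≤ g * (K * d) := by positivity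
  have hlev : ∀ j ≤ J, ((hb adj w j).card : ℝ) ≤ 2 * (K * d) := by
    intro j hj
    refine hb_card adj (K * d) hDelta w (hb adj w j) (by rw [← hN]; exact hN0) ?_
    intro v hv
    have h1 := no_sdiff adj has (K * d) g hDelta hKd.le hg0 hg w j v hv
    have h2 : ((no adj w).card : ℝ) = (no adj w ∩ no adj v).card + (no adj w \ no adj v).card := by
      have := Finset.card_inter_add_card_sdiff (no adj w) (no adj v)
      exact_mod_cast this.symm
    have h3 : (j : ℝ) * (g * (K * d)) ≤ 9 * K * (g * (K * d)) := by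
      refine mul_le_mul_of_nonneg_right ?_ hgKd
      have : (j : ℝ) ≤ J := by exact_mod_cast hj
      linarith
    have h4 : 9 * K * (g * (K * d)) = (18 * K ^ 2 * g * d) / 2 := by ring
    linarith
  obtain ⟨j, hj, hjs⟩ : ∃ j < J, ((hb adj w (j + 1) \ hb adj w j).card : ℝ) ≤ d / 4 := by
    by_contra hno'
    push Not at hno'
    have h1 := hb_grow adj w J (d / 4) hno' J le_rfl
    have h2 := hlev J le_rfl
    have h3 : 8 * K * (d / 4) ≤ J * (d / 4) := mul_le_mul_of_nonneg_right hJ1 (by positivity)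
    have h4 : 8 * K * (d / 4) = 2 * (K * d) := by ring
    linarith
  have hin' : ∀ v ∈ hb adj w j, 3 / 4 * dg adj v ≤
      (({u | u ∈ hb adj w j ∧ adj u v} : Set V).ncard : ℝ) := by
    intro v hv
    have h1 : dg adj v ≤ (({u | u ∈ hb adj w j ∧ adj u v} : Set V).ncard : ℝ) +
        ((hb adj w (j + 1) \ hb adj w j).card : ℝ) := by
      unfold dg
      rw [← Set.ncard_coe_finset]
      have h2 : ({u | adj u v} : Set V) ⊆ ({u | u ∈ hb adj w j ∧ adj u v} : Set V) ∪
          ((hb adj w (j + 1) \ hb adj w j : Finset V) : Set V) := by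
        intro u hu
        by_cases hus : u ∈ hb adj w j
        · exact Or.inl ⟨hus, hu⟩
        · refine Or.inr ?_
          rw [Finset.mem_coe, Finset.mem_sdiff]
          refine ⟨?_, hus⟩
          rw [hb, Finset.mem_union, Finset.mem_filter]
          exact Or.inr ⟨Finset.mem_univ _, v, hv, hu⟩
      have h3 := (Set.ncard_le_ncard h2 (Set.toFinite _)).trans (Set.ncard_union_le _ _)
      exact_mod_cast h3
    have h2 := hdeg v
    linarith
  have hin : ∀ v ∈ hb adj w j, 3 / 4 * d ≤
      (({u | u ∈ hb adj w j ∧ adj u v} : Set V).ncard : ℝ) := by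
    intro v hv
    have := hin' v hv
    have h2 := hdeg v
    linarith
  have hne : (hb adj w j).Nonempty := by
    refine ⟨w, ?_⟩
    clear hin hin' hjs hj
    induction j with
    | zero => simp [hb]
    | succ j ih => exact hb_mono adj w j ih
  have hmain := sub_bound adj has (hb adj w j) hne (3 / 4 * d) (3 / 4) g (by positivity)
    (by norm_num) hg0 hg hin hin'
  have hcard := hlev j hj.le
  have hcard2 : 3 / 4 * d ≤ ((hb adj w j).card : ℝ) := by
    obtain ⟨v, hv⟩ := hne
    refine (hin v hv).trans ?_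
    rw [← Set.ncard_coe_finset]
    have := Set.ncard_le_ncard (s := ({u | u ∈ hb adj w j ∧ adj u v} : Set V))
      (t := ((hb adj w j : Finset V) : Set V)) (fun u hu => hu.1) (Set.toFinite _)
    exact_mod_cast this
  have hlog : Real.log ((hb adj w j).card / (3 / 4 * d)) ≤ Real.log (8 * K / 3) := by
    refine Real.log_le_log (by positivity) ?_
    rw [div_le_iff₀ (by positivity)]
    linarith
  have hlog0 : 0 ≤ Real.log ((hb adj w j).card / (3 / 4 * d)) := by
    refine Real.log_nonneg ?_
    rwa [one_le_div (by positivity)]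
  have hpow : (10 * (1 + Real.log ((hb adj w j).card / (3 / 4 * d)))) ^ 126 ≤
      (10 * (1 + Real.log (8 * K / 3))) ^ 126 :=
    pow_le_pow_left₀ (by positivity) (by linarith) _
  have hfin := hmain.trans (mul_le_mul_of_nonneg_right hpow (by positivity))
  have e : (10 * (1 + Real.log (8 * K / 3))) ^ 126 * (g / (3 / 4)) =
      4 / 3 * g * (10 * (1 + Real.log (8 * K / 3))) ^ 126 := by ring
  rw [e] at hfin
  linarith

end Pool.Agent.SulK
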