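import Mathlib

/-!
# MP_109285_co (Sullivan), ratio form, module Par2: the parameters
-/

set_option autoImplicit false

namespace Pool.Agent.SulK

theorem params2 (K : ℝ) (hK : 1 ≤ K) : ∃ (W k : ℕ) (δ ε τ ρ : ℝ), 1 ≤ W ∧ 0 < δ ∧ 0 < ε ∧
    ρ = Real.log (K ^ 2) / δ + 1 ∧
    8 * (2 * (W : ℝ) + 1) ^ 3 * Real.exp (-δ) ≤ ε ∧
    4 * (2 * (W : ℝ) + 1) * K ≤ ε * 2 ^ k ∧
    (Real.log K / δ + 2) * ((40 / 3 + ρ) * (k + 1) + (Real.log K / δ + 2 * ρ + 40 / 3)) +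
      (40 / 3 + ρ) * (k + 1) + 2 < 40 / 3 * ((W : ℝ) - 1) ∧ 0 ≤ τ ∧
    (2 * δ + τ) * ε + Real.exp (-τ) * (((W : ℝ) + 1) * (K ^ 2) ^ W) < 2 * δ ∧
    Real.exp (21 * δ) ≤ (6 * (1 + Real.log K)) ^ 273 := by
  have hK0 : 0 < K := by linarith
  obtain ⟨R, hR⟩ : ∃ R, R = Real.log K := ⟨_, rfl⟩
  have hR0 : 0 ≤ R := by rw [hR]; exact Real.log_nonneg hK
  have hKR : K = Real.exp R := by rw [hR, Real.exp_log hK0]
  have hlogK2 : Real.log (K ^ 2) = 2 * R := by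
    rw [Real.log_pow, hR]
    push_cast
    ring
  obtain ⟨u, hu⟩ : ∃ u, u = 1 + R := ⟨_, rfl⟩
  have hu1 : 1 ≤ u := by linarith
  have hu2 : u ≤ u ^ 2 := by nlinarith
  have hu3 : u ^ 2 ≤ u ^ 3 := by nlinarith
  have huu : 1 ≤ u ^ 3 := one_le_pow₀ hu1
  obtain ⟨W, hW⟩ : ∃ W : ℕ, W = ⌈80 * u ^ 3⌉₊ := ⟨_, rfl⟩
  have hW1 : 80 * u ^ 3 ≤ (W : ℝ) := by rw [hW]; exact Nat.le_ceil _
  have hW2 : (W : ℝ) < 80 * u ^ 3 + 1 := by
    rw [hW]
    exact Nat.ceil_lt_add_one (by positivity)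
  have hW3 : (W : ℝ) ≤ 81 * u ^ 3 := by linarith
  have hW5 : 2 * (W : ℝ) + 1 ≤ 163 * u ^ 3 := by linarith
  have hW4 : (80 : ℝ) ≤ W := by linarith
  have hWn : 1 ≤ W := by
    have : (1 : ℝ) ≤ W := by linarith
    exact_mod_cast this
  have hW0 : (0 : ℝ) < W := by linarith
  set l : ℝ := Real.log 2 with hl
  have hl1 : (0.6931471803 : ℝ) < l := Real.log_two_gt_d9
  have hl2 : l < (0.6931471808 : ℝ) := Real.log_two_lt_d9
  have hl0 : 0 < l := by linarith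
  obtain ⟨δ, hδ⟩ : ∃ δ, δ = Real.log (32 * u * W * (2 * (W : ℝ) + 1) ^ 3) := ⟨_, rfl⟩
  have hargpos : 0 < 32 * u * W * (2 * (W : ℝ) + 1) ^ 3 := by positivity
  have hexp : Real.exp δ = 32 * u * W * (2 * (W : ℝ) + 1) ^ 3 := by
    rw [hδ, Real.exp_log hargpos]
  have hδ2 : 2 ≤ δ := by
    rw [hδ]
    have h1 : (2 : ℝ) ^ 3 ≤ 32 * u * W * (2 * (W : ℝ) + 1) ^ 3 := by
      have h2 : (1 : ℝ) ≤ (2 * (W : ℝ) + 1) ^ 3 := one_le_pow₀ (by linarith)
      have h3 : (8 : ℝ) ≤ 32 * u * W := by nlinarith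
      nlinarith
    have h2 := Real.log_le_log (by norm_num) h1
    rw [Real.log_pow] at h2
    push_cast at h2
    linarith
  have hδ0 : 0 < δ := by linarith
  obtain ⟨ε, hε⟩ : ∃ ε, ε = 1 / (4 * u * (W : ℝ)) := ⟨_, rfl⟩
  have hε0 : 0 < ε := by rw [hε]; positivity
  obtain ⟨k, hk⟩ : ∃ k : ℕ, k = ⌈(Real.log (16 * u * W * (2 * (W : ℝ) + 1)) + R) / l⌉₊ := ⟨_, rfl⟩
  have hk1 : (Real.log (16 * u * W * (2 * (W : ℝ) + 1)) + R) / l ≤ k := by
    rw [hk]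
    exact Nat.le_ceil _
  have hlog0 : 0 ≤ Real.log (16 * u * W * (2 * (W : ℝ) + 1)) := by
    refine Real.log_nonneg ?_
    have h1 : (1 : ℝ) ≤ 2 * (W : ℝ) + 1 := by linarith
    have h2 : (1 : ℝ) ≤ 16 * u * W := by nlinarith
    nlinarith
  have hk2 : (k : ℝ) < (Real.log (16 * u * W * (2 * (W : ℝ) + 1)) + R) / l + 1 := by
    rw [hk]
    exact Nat.ceil_lt_add_one (by positivity)
  have hlogle : Real.log (16 * u * W * (2 * (W : ℝ) + 1)) ≤ 19 * l + 7 * (u - 1) := by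
    have h1 : 16 * u * W * (2 * (W : ℝ) + 1) ≤ 2 ^ 19 * u ^ 7 := by
      have h2 : 2 * (W : ℝ) + 1 ≤ 3 * W := by linarith
      have h3 : 16 * u * W * (2 * (W : ℝ) + 1) ≤ 16 * u * W * (3 * W) :=
        mul_le_mul_of_nonneg_left h2 (by positivity)
      have h4 : (W : ℝ) ^ 2 ≤ (81 * u ^ 3) ^ 2 := pow_le_pow_left₀ hW0.le hW3 2
      have h5 : 48 * u * (W : ℝ) ^ 2 ≤ 48 * u * (81 * u ^ 3) ^ 2 :=
        mul_le_mul_of_nonneg_left h4 (by positivity)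
      have h6 : 48 * u * (81 * u ^ 3) ^ 2 = 314928 * u ^ 7 := by ring
      have h7 : (0 : ℝ) ≤ u ^ 7 := by positivity
      have h8 : 16 * u * W * (3 * W) = 48 * u * (W : ℝ) ^ 2 := by ring
      linarith
    have h2 := Real.log_le_log (by positivity) h1
    have e : Real.log (2 ^ 19 * u ^ 7) = 19 * l + 7 * Real.log u := by
      rw [Real.log_mul (by positivity) (by positivity), Real.log_pow, Real.log_pow]
      push_cast
      ring
    have h3 := Real.log_le_sub_one_of_pos (show (0 : ℝ) < u by linarith)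
    linarith
  have hk3 : (k : ℝ) + 1 ≤ 21 * u := by
    have h1 : (Real.log (16 * u * W * (2 * (W : ℝ) + 1)) + R) / l ≤ 19 + 12 * (u - 1) := by
      rw [div_le_iff₀ hl0]
      have e : R = u - 1 := by linarith
      rw [e]
      have h2 : 8 * (u - 1) ≤ 12 * (u - 1) * l := by nlinarith
      nlinarith
    linarith
  obtain ⟨ρ, hρ⟩ : ∃ ρ, ρ = Real.log (K ^ 2) / δ + 1 := ⟨_, rfl⟩
  have hRδ : R / δ ≤ R / 2 := by
    rw [div_le_div_iff₀ hδ0 (by norm_num)]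
    nlinarith
  have hRδ0 : 0 ≤ R / δ := by positivity
  have hρ1 : ρ ≤ u := by
    rw [hρ, hlogK2]
    have e : 2 * R / δ = 2 * (R / δ) := by ring
    rw [e]
    linarith
  have hρ0 : 0 ≤ ρ := by
    rw [hρ, hlogK2]
    positivity
  obtain ⟨τ, hτ⟩ : ∃ τ, τ = 2 * R * W + Real.log ((W : ℝ) + 1) := ⟨_, rfl⟩
  have hlogW0 : 0 ≤ Real.log ((W : ℝ) + 1) := Real.log_nonneg (by linarith)
  have hτ0 : 0 ≤ τ := by rw [hτ]; positivity
  have hτ1 : τ ≤ 2 * u * W := by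
    have h1 := Real.log_le_sub_one_of_pos (show (0 : ℝ) < (W : ℝ) + 1 by linarith)
    rw [hτ, hu]
    nlinarith
  refine ⟨W, k, δ, ε, τ, ρ, hWn, hδ0, hε0, hρ, ?_, ?_, ?_, hτ0, ?_, ?_⟩
  · rw [Real.exp_neg, hexp, hε]
    have h1 : 8 * (2 * (W : ℝ) + 1) ^ 3 * (32 * u * W * (2 * (W : ℝ) + 1) ^ 3)⁻¹ =
        1 / (4 * u * (W : ℝ)) := by
      field_simp
      norm_num
    exact h1.le
  · rw [hε, one_div, ← div_eq_inv_mul, le_div_iff₀ (by positivity)]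
    have h1 : Real.log (16 * u * W * (2 * (W : ℝ) + 1)) + R ≤ k * l := by
      rwa [div_le_iff₀ hl0] at hk1
    have h2 := Real.exp_le_exp.2 h1
    rw [Real.exp_add, Real.exp_log (by positivity), hl, Real.exp_nat_mul,
      Real.exp_log (by norm_num)] at h2
    rw [hKR]
    refine le_trans (le_of_eq ?_) h2
    ring
  · rw [← hR]
    have h1 : R / δ + 2 ≤ 2 * u := by linarith
    have h2 : 40 / 3 + ρ ≤ 15 * u := by linarith
    have h3 : R / δ + 2 * ρ + 40 / 3 ≤ 16 * u := by linarith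
    have hk0 : (0 : ℝ) ≤ (k : ℝ) + 1 := by positivity
    have h4 : (40 / 3 + ρ) * ((k : ℝ) + 1) ≤ 15 * u * (21 * u) :=
      mul_le_mul h2 hk3 hk0 (by positivity)
    have h5 : (R / δ + 2) * ((40 / 3 + ρ) * (k + 1) + (R / δ + 2 * ρ + 40 / 3)) ≤
        2 * u * (15 * u * (21 * u) + 16 * u) :=
      mul_le_mul h1 (by linarith) (by positivity) (by positivity)
    have h6 : 2 * u * (15 * u * (21 * u) + 16 * u) = 630 * u ^ 3 + 32 * u ^ 2 := by ring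
    have h7 : 15 * u * (21 * u) = 315 * u ^ 2 := by ring
    rw [h6] at h5
    rw [h7] at h4
    linarith
  · have h1 : Real.exp (-τ) * (((W : ℝ) + 1) * (K ^ 2) ^ W) = 1 := by
      have h2 : Real.exp τ = ((W : ℝ) + 1) * (K ^ 2) ^ W := by
        have e : (2 * R * W : ℝ) = (W : ℝ) * (2 * R) := by ring
        rw [hτ, Real.exp_add, Real.exp_log (by linarith), e, Real.exp_nat_mul, ← hlogK2,
          Real.exp_log (by positivity)]
        ring
      rw [← h2, ← Real.exp_add]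
      simp
    rw [h1]
    have h2 : τ * ε ≤ 1 / 2 := by
      calc τ * ε ≤ 2 * u * W * ε := mul_le_mul_of_nonneg_right hτ1 hε0.le
        _ = 1 / 2 := by
            rw [hε]
            field_simp
            norm_num
    have h3 : ε ≤ 1 / 4 := by
      rw [hε]
      refine one_div_le_one_div_of_le (by norm_num) ?_
      nlinarith
    have h4 : 2 * δ * ε ≤ 2 * δ * (1 / 4) := mul_le_mul_of_nonneg_left h3 (by linarith)
    have h5 : (2 * δ + τ) * ε = 2 * δ * ε + τ * ε := by ring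
    rw [h5]
    linarith
  · rw [← hR, ← hu]
    have e : (21 : ℝ) * δ = ((21 : ℕ) : ℝ) * δ := by norm_num
    rw [e, Real.exp_nat_mul, hexp]
    have h1 : 32 * u * W * (2 * (W : ℝ) + 1) ^ 3 ≤ (6 * u) ^ 13 := by
      have h2 : (2 * (W : ℝ) + 1) ^ 3 ≤ (163 * u ^ 3) ^ 3 := pow_le_pow_left₀ (by linarith) hW5 3
      have h3 : 32 * u * (W : ℝ) ≤ 32 * u * (81 * u ^ 3) :=
        mul_le_mul_of_nonneg_left hW3 (by positivity)
      have h4 : 32 * u * W * (2 * (W : ℝ) + 1) ^ 3 ≤ 32 * u * (81 * u ^ 3) * (163 * u ^ 3) ^ 3 :=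
        mul_le_mul h3 h2 (by positivity) (by positivity)
      have h5 : 32 * u * (81 * u ^ 3) * (163 * u ^ 3) ^ 3 = 11225296224 * u ^ 13 := by ring
      have h6 : (6 * u) ^ 13 = 13060694016 * u ^ 13 := by ring
      have h7 : (0 : ℝ) ≤ u ^ 13 := by positivity
      rw [h6]
      linarith
    calc (32 * u * W * (2 * (W : ℝ) + 1) ^ 3) ^ 21 ≤ ((6 * u) ^ 13) ^ 21 :=
          pow_le_pow_left₀ hargpos.le h1 _
      _ = (6 * u) ^ 273 := by rw [← pow_mul]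

end Pool.Agent.SulK
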