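import Pool.Agent.SulK.End4

/-!
# MP_109285_co: Sullivan vertices up to a polylogarithmic factor

Every oriented graph on `n ≥ 1` vertices has a vertex `v` with
`|N-(v)| ≤ (10 (1 + log n))^126 |N2+(v)|`.  More precisely, if every nonzero in-degree is at least
`d > 0` (`d = 1` is always possible), then there is a vertex `v` with
`|N-(v)| ≤ (10 (1 + log (n / d)))^126 |N2+(v)|`.
-/

set_option autoImplicit false

namespace Pool.Agent.SulK.PolylogLoss

theorem result (n : ℕ) (adj : Fin n → Fin n → Prop) (hn : 0 < n)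
    (has : ∀ x y, adj x y → ¬ adj y x) (d : ℝ) (hd : 0 < d)
    (hdeg : ∀ v, {u | adj u v}.ncard = 0 ∨ d ≤ ({u | adj u v}.ncard : ℝ)) :
    ∃ v, ({u | adj u v}.ncard : ℝ) ≤ (10 * (1 + Real.log (n / d))) ^ 126 *
      ({w | w ≠ v ∧ ¬ adj v w ∧ ∃ u, adj v u ∧ adj u w}.ncard : ℝ) := by
  by_cases h0 : ∃ v, ({u | adj u v} : Set (Fin n)).ncard = 0
  · obtain ⟨v, hv⟩ := h0
    refine ⟨v, ?_⟩
    rw [hv, Nat.cast_zero]
    exact mul_nonneg (Even.pow_nonneg (by decide) _) (Nat.cast_nonneg _)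
  · push Not at h0
    exact Pool.Agent.SulK.final Pool.Agent.SulK.lawN n adj hn has d hd fun v =>
      (hdeg v).resolve_left (h0 v)

end Pool.Agent.SulK.PolylogLoss
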