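import Pool.Agent.SulK.Theta

/-!
# MP_109285_co, K-law, module Prep: the three statements, lemmas on rows and columns
-/

set_option autoImplicit false

namespace Pool.Agent.SulK

/-! ### The statements -/

/-- The law for the window `[s, e]`. -/
def PD (x z : ℤ → ℝ) (s e : ℤ) : Prop :=
  s ≤ e → Feas x z s e → (th x z s e : ℝ) ≤ D x z s e

/-- One-sided statement for the window `[s, e]`, wall `c - 1 | c`. -/
def PL (x z : ℤ → ℝ) (s e c : ℤ) : Prop :=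
  ∀ ξ lam : ℝ, s + 1 ≤ c → c + 2 ≤ e → Feas x z s e →
    (∀ t, c < t → t ≤ e → z t + 2 ≤ z c) →
    (∀ t, c < t → t ≤ e → ξ ≤ x t) → lam ≤ 1 →
    (lam = 0 ∨ ∃ t', c ≤ t' ∧ t' ≤ e ∧ ∀ t, s ≤ t → t < c → z t' + lam ≤ z t) →
    (th x z c e : ℝ) + lam ≤ (x e - ξ) + max 0 (W x z c e - w x z (c - 1)) +
      (Be x z s (c - 1) (z c) - be x z s e) + 5

/-- Two-sided statement for the window `[s, n]`, walls `c - 1 | c` and `v | v + 1`. -/
def PLL (x z : ℤ → ℝ) (s n c v : ℤ) : Prop :=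
  ∀ ξ μ : ℝ, s + 1 ≤ c → c + 2 ≤ v → v + 1 ≤ n → Feas x z s n →
    (∀ t, c < t → t ≤ v → z t + 2 ≤ z c) →
    (∀ t, c ≤ t → t < v → x t + 2 ≤ x v) →
    (∀ t, c < t → t ≤ n → ξ ≤ x t) →
    (∀ t, s ≤ t → t < c → μ ≤ z t) →
    (∀ t, c ≤ t → t < v → μ ≤ z t + 1) →
    (th x z c v : ℝ) + tA x z (v - 1) ≤ max 0 (W x z c v - w x z (c - 1)) +
      (Be x z s (c - 1) (z c) - μ) + max 0 (W x z c v - w x z v) +
      (Al x z (v + 1) n (x v) - ξ) + 10

/-- The mirror image of `PL`: window `[p, q]`, wall `v | v + 1`. -/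
def PLm (x z : ℤ → ℝ) (p q v : ℤ) : Prop :=
  ∀ μ : ℝ, p + 2 ≤ v → v + 1 ≤ q → Feas x z p q →
    (∀ t, p ≤ t → t < v → x t + 2 ≤ x v) →
    (∀ t, p ≤ t → t < v → μ ≤ z t) →
    (th x z p v : ℝ) ≤ (z p - μ) + max 0 (W x z p v - w x z v) +
      (Al x z (v + 1) q (x v) - al x z p q) + 5

theorem PLm_of_PL {x z : ℤ → ℝ} {p q v : ℤ} (h : PL (rv z) (rv x) (-q) (-p) (-v)) :
    PLm x z p q v := by
  intro μ h1 h2 h3 h4 h5
  have h6 := h μ 0 (by omega) (by omega) (feas_rv.2 h3)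
    (fun t ht1 ht2 => by
      have := h4 (-t) (by omega) (by omega)
      rw [rv_neg]
      exact this)
    (fun t ht1 ht2 => h5 (-t) (by omega) (by omega)) zero_le_one (Or.inl rfl)
  rw [th_rv, W_rv (by omega), w_rv, rv_neg, rv_neg, be_rv] at h6
  rw [show -(-v - 1) - 1 = v by ring, show -v - 1 = -(v + 1) by ring, Be_rv] at h6
  linarith

/-! ### Rows -/

theorem mn_le_Al {x z : ℤ → ℝ} {p e : ℤ} {X : ℝ} : mn x X p e ≤ Al x z p e X := mn_le_af _

theorem Al_first {x z : ℤ → ℝ} {p e : ℤ} {X : ℝ} (h : p ≤ e) :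
    Al x z p e X = af x (fun t => G x z p t) (min X (x p)) (p + 1) e := by
  unfold Al
  rw [af_left_pos (Or.inl rfl) e h]
  refine af_congr e fun t h1 h2 _ => ?_
  constructor
  · rintro (h3 | h3)
    · omega
    · exact h3
  · exact Or.inr

theorem Al_le_al {x z : ℤ → ℝ} {p e : ℤ} {X : ℝ} (h : p ≤ e) : Al x z p e X ≤ al x z p e := by
  unfold al
  rw [Al_first h, Al_first h, min_self]
  exact af_mono_cap (min_le_right _ _)

theorem le_al {x z : ℤ → ℝ} {p e : ℤ} {B : ℝ} (hpe : p ≤ e) (h : ∀ t, p ≤ t → t ≤ e → B ≤ x t) :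
    B ≤ al x z p e :=
  le_trans (le_mn (h p le_rfl hpe) h) mn_le_Al

/-! ### Columns -/

theorem Be_base {x z : ℤ → ℝ} {s q : ℤ} {Z : ℝ} (h : q < s) : Be x z s q Z = Z :=
  af_base (by omega)

theorem Be_pos {x z : ℤ → ℝ} {s q : ℤ} {Z : ℝ} (h : s ≤ q) (hG : s = q ∨ G x z s q) :
    Be x z s q Z = Be x z (s + 1) q Z - max 0 (mn z Z (s + 1) q - z s) := by
  unfold Be Al
  rw [af_right_pos (by omega)]
  · rw [show -s - 1 = -(s + 1) by ring, mn_rv, rv_neg]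
  · rcases hG with h1 | h1
    · left
      omega
    · exact Or.inr (G_rv.2 h1)

theorem Be_neg {x z : ℤ → ℝ} {s q : ℤ} {Z : ℝ} (h : s < q) (hG : ¬ G x z s q) :
    Be x z s q Z = Be x z (s + 1) q Z := by
  unfold Be Al
  rw [af_right_neg (by omega)]
  · rw [show -s - 1 = -(s + 1) by ring]
  · rintro (h1 | h1)
    · omega
    · exact hG (G_rv.1 h1)

theorem Be_nodrop {x z : ℤ → ℝ} {s q : ℤ} {Z : ℝ} (h : s ≤ q) (hG : mn z Z (s + 1) q ≤ z s) :
    Be x z s q Z = Be x z (s + 1) q Z := by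
  unfold Be Al
  rw [af_right_nodrop (by omega)]
  · rw [show -s - 1 = -(s + 1) by ring]
  · rw [show -s - 1 = -(s + 1) by ring, mn_rv, rv_neg]
    exact hG

theorem Be_anti {x z : ℤ → ℝ} {s s' q : ℤ} {Z : ℝ} (h : s ≤ s') :
    Be x z s q Z ≤ Be x z s' q Z := af_anti (by omega)

theorem be_anti {x z : ℤ → ℝ} {s s' q : ℤ} (h : s ≤ s') :
    be x z s q ≤ be x z s' q := Be_anti h

theorem Be_le_cap {x z : ℤ → ℝ} {s q : ℤ} {Z : ℝ} : Be x z s q Z ≤ Z := af_le_cap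

theorem mn_le_Be {x z : ℤ → ℝ} {s q : ℤ} {Z : ℝ} : mn z Z s q ≤ Be x z s q Z := by
  have := mn_le_Al (x := rv z) (z := rv x) (p := -q) (e := -s) (X := Z)
  rw [mn_rv] at this
  exact this

theorem Be_le_be {x z : ℤ → ℝ} {s q : ℤ} {Z : ℝ} (h : s ≤ q) : Be x z s q Z ≤ be x z s q := by
  have h1 := Al_le_al (x := rv z) (z := rv x) (p := -q) (e := -s) (X := Z) (by omega)
  rw [al_rv] at h1
  exact h1

theorem le_Be {x z : ℤ → ℝ} {s q : ℤ} {Z B : ℝ} (hZ : B ≤ Z) (h : ∀ t, s ≤ t → t ≤ q → B ≤ z t) :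
    B ≤ Be x z s q Z := le_trans (le_mn hZ h) mn_le_Be

theorem Be_self {x z : ℤ → ℝ} {q : ℤ} {Z : ℝ} : Be x z q q Z = min Z (z q) := by
  rw [Be_pos le_rfl (Or.inl rfl), Be_base (by omega), mn_base (by omega)]
  rcases le_total Z (z q) with h | h
  · rw [min_eq_left h, max_eq_left (by linarith)]
    ring
  · rw [min_eq_right h, max_eq_right (by linarith)]
    ring

/-! ### Congruence -/

theorem bad_congr {x z x' z' : ℤ → ℝ} {p q i j : ℤ} (hx : ∀ t, p ≤ t → t ≤ q → x t = x' t)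
    (hz : ∀ t, p ≤ t → t ≤ q → z t = z' t) (hi : p ≤ i) (hj : j ≤ q) (hij : i ≤ j) (h : Bad x z i j) :
    Bad x' z' i j := by
  intro k h1 h2
  rw [← hx k (by omega) (by omega), ← hz (k + 1) (by omega) (by omega), ← hx j (by omega) hj,
    ← hz i hi (by omega)]
  exact h k h1 h2

theorem G_congr {x z x' z' : ℤ → ℝ} {p q : ℤ} (hx : ∀ t, p ≤ t → t ≤ q → x t = x' t)
    (hz : ∀ t, p ≤ t → t ≤ q → z t = z' t) {i j : ℤ} (h : G x z i j) :
    p ≤ i → j ≤ q → G x' z' i j := by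
  induction h with
  | unit i => exact fun _ _ => G.unit i
  | right i j h hb ih =>
    intro h1 h2
    have := h.lt
    exact G.right i j (ih h1 (by omega)) fun hb' => hb
      (bad_congr (fun t h3 h4 => (hx t h3 h4).symm) (fun t h3 h4 => (hz t h3 h4).symm) h1 h2
        (by omega) hb')
  | left i j h hb ih =>
    intro h1 h2
    have := h.lt
    exact G.left i j (ih (by omega) h2) fun hb' => hb
      (bad_congr (fun t h3 h4 => (hx t h3 h4).symm) (fun t h3 h4 => (hz t h3 h4).symm) h1 h2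
        (by omega) hb')

theorem G_congr_iff {x z x' z' : ℤ → ℝ} {p q : ℤ} (hx : ∀ t, p ≤ t → t ≤ q → x t = x' t)
    (hz : ∀ t, p ≤ t → t ≤ q → z t = z' t) {i j : ℤ} (h1 : p ≤ i) (h2 : j ≤ q) :
    G x z i j ↔ G x' z' i j :=
  ⟨fun h => G_congr hx hz h h1 h2,
    fun h => G_congr (fun t h3 h4 => (hx t h3 h4).symm) (fun t h3 h4 => (hz t h3 h4).symm) h h1 h2⟩

theorem th_congr {x z x' z' : ℤ → ℝ} {s e : ℤ} (hx : ∀ t, s ≤ t → t ≤ e → x t = x' t)
    (hz : ∀ t, s ≤ t → t ≤ e → z t = z' t) : th x z s e = th x' z' s e := by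
  classical
  have key : ∀ t, s < t → t < e → (tS x z t ↔ tS x' z' t) := by
    intro t h1 h2
    unfold tS
    rw [G_congr_iff hx hz (by omega) (by omega)]
  unfold th
  congr 1
  refine Finset.filter_congr fun t ht => ?_
  rw [Finset.mem_Ioo] at ht
  rw [key t ht.1 ht.2]
  rcases eq_or_ne t (s + 1) with h1 | h1
  · simp [h1]
  · rw [key (t - 1) (by omega) (by omega)]

theorem mn_congr {f f' : ℤ → ℝ} {X : ℝ} {a b : ℤ} (h : ∀ t, a ≤ t → t ≤ b → f t = f' t) :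
    mn f X a b = mn f' X a b := by
  unfold mn
  refine Finset.fold_congr fun t ht => ?_
  rw [Finset.mem_Icc] at ht
  exact h t ht.1 ht.2

theorem af_congr' {f f' : ℤ → ℝ} {R R' : ℤ → Prop} {X : ℝ} {a b : ℤ}
    (h : ∀ t, a ≤ t → t ≤ b → f t = f' t) (hR : ∀ t, a ≤ t → t ≤ b → (R t ↔ R' t)) :
    af f R X a b = af f' R' X a b := by
  classical
  unfold af
  congr 1
  refine Finset.sum_congr rfl fun t ht => ?_
  rw [Finset.mem_Icc] at ht
  rw [mn_congr (f := f) (f' := f') fun u h1 h2 => h u h1 (by omega), h t ht.1 ht.2]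
  by_cases h3 : R t
  · rw [if_pos h3, if_pos ((hR t ht.1 ht.2).1 h3)]
  · rw [if_neg h3, if_neg fun h4 => h3 ((hR t ht.1 ht.2).2 h4)]

theorem Al_congr {x z x' z' : ℤ → ℝ} {p e : ℤ} {X : ℝ} (hx : ∀ t, p ≤ t → t ≤ e → x t = x' t)
    (hz : ∀ t, p ≤ t → t ≤ e → z t = z' t) : Al x z p e X = Al x' z' p e X := by
  unfold Al
  refine af_congr' hx fun t h1 h2 => ?_
  rw [G_congr_iff hx hz le_rfl h2]

theorem Be_congr {x z x' z' : ℤ → ℝ} {s q : ℤ} {Z : ℝ} (hx : ∀ t, s ≤ t → t ≤ q → x t = x' t)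
    (hz : ∀ t, s ≤ t → t ≤ q → z t = z' t) : Be x z s q Z = Be x' z' s q Z := by
  unfold Be
  exact Al_congr (fun t h1 h2 => hz (-t) (by omega) (by omega))
    (fun t h1 h2 => hx (-t) (by omega) (by omega))

theorem W_congr {x z x' z' : ℤ → ℝ} {i j : ℤ} (hij : i < j) (hx : ∀ t, i ≤ t → t ≤ j → x t = x' t)
    (hz : ∀ t, i ≤ t → t ≤ j → z t = z' t) : W x z i j = W x' z' i j := by
  have hw : ∀ k, i ≤ k → k < j → w x z k = w x' z' k := by
    intro k h1 h2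
    unfold w
    rw [hx k h1 (by omega), hz (k + 1) (by omega) (by omega)]
  apply le_antisymm
  · exact W_le hij fun k h1 h2 => by
      rw [hw k h1 h2]
      exact le_W h1 h2
  · exact W_le hij fun k h1 h2 => by
      rw [← hw k h1 h2]
      exact le_W h1 h2

end Pool.Agent.SulK
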