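import Pool.Agent.SulK.Avg4
import Pool.Agent.SulK.Par2
import Pool.Agent.SulK.Out

/-!
# MP_109285_co (Sullivan), ratio form: assembly

If all in-degrees are in `[d, K d]` then some vertex `v` has
`|N-(v)| ≤ (6 (1 + log K))^273 |N2+(v)|`.
-/

set_option autoImplicit false

open Finset

namespace Pool.Agent.SulK

open Pool.Agent.Sul

theorem ratio_main {V : Type} [Fintype V] [Nonempty V] (adj : V → V → Prop)
    (has : ∀ x y, adj x y → ¬ adj y x) (d K : ℝ) (hd : 0 < d) (hK : 1 ≤ K)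
    (hdeg : ∀ v, d ≤ dg adj v) (hΔ : ∀ v, dg adj v ≤ K * d) :
    ∃ v, dg adj v ≤ (6 * (1 + Real.log K)) ^ 273 * n2 adj v := by
  by_contra hcon
  push Not at hcon
  have hK0 : 0 < K := by linarith
  obtain ⟨R, hR⟩ : ∃ R, R = Real.log K := ⟨_, rfl⟩
  have hR0 : 0 ≤ R := by rw [hR]; exact Real.log_nonneg hK
  rw [← hR] at hcon
  obtain ⟨u, hu⟩ : ∃ u, u = 1 + R := ⟨_, rfl⟩
  have hu1 : 1 ≤ u := by linarith
  rw [← hu] at hcon
  have h6u : 1 ≤ 6 * u := by linarith
  have h6 : 0 < 6 * u := by linarith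
  have hn2 : ∀ v, 0 ≤ n2 adj v := fun v => Nat.cast_nonneg _
  have hg : ∀ v, n2 adj v ≤ 1 / (6 * u) ^ 273 * dg adj v := by
    intro v
    rw [one_div, ← div_eq_inv_mul, le_div_iff₀ (by positivity)]
    have := (hcon v).le
    linarith
  have hnum1 : 4 / 3 * (1 / (6 * u) ^ 273) * (10 * (1 + Real.log (8 * K / 3))) ^ 126 < 1 := by
    have h1 : Real.log (8 * K / 3) ≤ 1 + R := by
      have e : (8 : ℝ) * K / 3 = 8 / 3 * K := by ring
      rw [e, Real.log_mul (by norm_num) hK0.ne', ← hR]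
      have h2 : (8 : ℝ) / 3 ≤ Real.exp 1 := by
        have := Real.exp_one_gt_d9
        linarith
      have h3 := Real.log_le_log (by norm_num) h2
      rw [Real.log_exp] at h3
      linarith
    have h2 : 0 ≤ Real.log (8 * K / 3) := by
      refine Real.log_nonneg ?_
      linarith
    have h3 : (10 * (1 + Real.log (8 * K / 3))) ^ 126 ≤ (36 * u ^ 2) ^ 126 := by
      refine pow_le_pow_left₀ (by positivity) ?_ _
      nlinarith
    have h4 : (36 * u ^ 2) ^ 126 = (6 * u) ^ 252 := by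
      have e : 36 * u ^ 2 = (6 * u) ^ 2 := by ring
      rw [e, ← pow_mul]
    rw [h4] at h3
    have h5 : (6 * u) ^ 273 = (6 * u) ^ 252 * (6 * u) ^ 21 := by
      rw [← pow_add]
    have h7 : (6 : ℝ) ≤ (6 * u) ^ 21 := by
      have h8 : 6 * u ≤ (6 * u) ^ 21 := le_self_pow₀ h6u (by norm_num)
      linarith
    calc 4 / 3 * (1 / (6 * u) ^ 273) * (10 * (1 + Real.log (8 * K / 3))) ^ 126
        ≤ 4 / 3 * (1 / (6 * u) ^ 273) * (6 * u) ^ 252 :=
          mul_le_mul_of_nonneg_left h3 (by positivity)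
      _ = 4 / 3 * (1 / (6 * u) ^ 21) := by
          rw [h5]
          field_simp
      _ ≤ 4 / 3 * (1 / 6) :=
          mul_le_mul_of_nonneg_left (one_div_le_one_div_of_le (by norm_num) h7) (by norm_num)
      _ < 1 := by norm_num
  have hod : ∀ w, (({v | adj w v} : Set V).ncard : ℝ) ≤ K ^ 2 * d := by
    intro w
    refine (outdeg_bound adj has d K _ hd hK hdeg hΔ (by positivity) hg hnum1 w).trans ?_
    have h1 : 18 * (1 / (6 * u) ^ 273) ≤ 1 := by
      rw [mul_one_div, div_le_one (by positivity)]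
      have h2 : (6 * u) ^ 2 ≤ (6 * u) ^ 273 := pow_le_pow_right₀ h6u (by norm_num)
      nlinarith
    have h3 : 18 * K ^ 2 * (1 / (6 * u) ^ 273) * d = K ^ 2 * d * (18 * (1 / (6 * u) ^ 273)) := by
      ring
    rw [h3]
    have h4 : 0 ≤ K ^ 2 * d := by positivity
    nlinarith
  have hb := Kb_col adj d (K ^ 2) hd hdeg hod
  obtain ⟨W, k, δ, ε, τ, ρ, p1, p2, p3, p4, p5, p6, p7, p8, p9, p10⟩ := params2 K hK
  rw [← hR, ← hu] at p10
  refine ratio_contra adj has d K (K ^ 2) hd hdeg hΔ hK hb (one_le_pow₀ hK) δ ε τ 2 ρ W k p1 p2 p3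
    p4 p5 p6 p7 (by norm_num) p8 p9 fun v => ?_
  have h1 : Real.exp (21 * δ) * n2 adj v ≤ dg adj v :=
    (mul_le_mul_of_nonneg_right p10 (hn2 v)).trans (hcon v).le
  have h3 : Real.exp (-(21 * δ)) * (Real.exp (21 * δ) * n2 adj v) ≤
      Real.exp (-(21 * δ)) * dg adj v :=
    mul_le_mul_of_nonneg_left h1 (Real.exp_pos _).le
  rw [← mul_assoc, ← Real.exp_add] at h3
  have e : -(21 * δ) + 21 * δ = 0 := by ring
  rw [e, Real.exp_zero, one_mul] at h3
  exact h3

end Pool.Agent.SulK
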