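import Pool.Agent.SulK.Alpha

/-!
# MP_109285_co, K-law, module Theta: counting the runs of vertices of type `S`
-/

set_option autoImplicit false

namespace Pool.Agent.SulK

open Classical in
/-- The vertex `e - 1` starts a run of the window `(s, e)`. -/
noncomputable def st (x z : ℤ → ℝ) (s e : ℤ) : ℕ :=
  if tS x z (e - 1) ∧ (e = s + 2 ∨ ¬ tS x z (e - 2)) then 1 else 0

theorem st_one {x z : ℤ → ℝ} {s e : ℤ} (h1 : tS x z (e - 1)) (h2 : e = s + 2 ∨ ¬ tS x z (e - 2)) :
    st x z s e = 1 := if_pos ⟨h1, h2⟩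

theorem st_A {x z : ℤ → ℝ} {s e : ℤ} (h1 : ¬ tS x z (e - 1)) : st x z s e = 0 :=
  if_neg fun h => h1 h.1

theorem st_SS {x z : ℤ → ℝ} {s e : ℤ} (h1 : e ≠ s + 2) (h2 : tS x z (e - 2)) : st x z s e = 0 :=
  if_neg fun h => by
    rcases h.2 with h3 | h3
    · exact h1 h3
    · exact h3 h2

theorem st_le (x z : ℤ → ℝ) (s e : ℤ) : st x z s e ≤ 1 := by
  unfold st
  split_ifs <;> omega

theorem st_congr {x z : ℤ → ℝ} {s s' e : ℤ} (h : e ≠ s + 2) (h' : e ≠ s' + 2) :
    st x z s e = st x z s' e := by
  by_cases h1 : tS x z (e - 1)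
  · by_cases h2 : tS x z (e - 2)
    · rw [st_SS h h2, st_SS h' h2]
    · rw [st_one h1 (Or.inr h2), st_one h1 (Or.inr h2)]
  · rw [st_A h1, st_A h1]

theorem st_mono {x z : ℤ → ℝ} {s s' e : ℤ} (h : e = s + 2 → e = s' + 2) :
    st x z s e ≤ st x z s' e := by
  by_cases h1 : tS x z (e - 1)
  · by_cases h2 : e = s + 2
    · rw [st_one h1 (Or.inl (h h2))]
      exact st_le _ _ _ _
    · by_cases h3 : tS x z (e - 2)
      · rw [st_SS h2 h3]
        omega
      · rw [st_one (s := s') h1 (Or.inr h3)]
        exact st_le _ _ _ _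
  · rw [st_A h1]
    omega

theorem th_base {x z : ℤ → ℝ} {s e : ℤ} (h : e ≤ s + 1) : th x z s e = 0 := by
  unfold th
  have : Finset.Ioo s e = ∅ := by
    ext t
    simp only [Finset.mem_Ioo, Finset.notMem_empty, iff_false]
    omega
  rw [this]
  simp

theorem th_right {x z : ℤ → ℝ} {s e : ℤ} (h : s + 2 ≤ e) :
    th x z s e = th x z s (e - 1) + st x z s e := by
  classical
  unfold th
  have h1 : Finset.Ioo s e = insert (e - 1) (Finset.Ioo s (e - 1)) := by
    ext t
    simp only [Finset.mem_Ioo, Finset.mem_insert]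
    omega
  rw [h1, Finset.filter_insert]
  have h2 : (e - 1 = s + 1) ↔ (e = s + 2) := by omega
  have h3 : e - 1 - 1 = e - 2 := by ring
  by_cases h4 : tS x z (e - 1) ∧ (e = s + 2 ∨ ¬ tS x z (e - 2))
  · rw [st_one h4.1 h4.2, if_pos ⟨h4.1, by rw [h2, h3]; exact h4.2⟩,
      Finset.card_insert_of_notMem (by simp)]
  · rw [if_neg (by rw [h2, h3]; exact h4)]
    unfold st
    rw [if_neg h4, add_zero]

/-- The vertex `s + 1` is a run of length one. -/
theorem th_left {x z : ℤ → ℝ} {s : ℤ} : ∀ e : ℤ, s + 2 ≤ e →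
    ((tS x z (s + 1) ∧ ¬ (s + 3 ≤ e ∧ tS x z (s + 2))) → th x z s e = th x z (s + 1) e + 1) ∧
    (¬ (tS x z (s + 1) ∧ ¬ (s + 3 ≤ e ∧ tS x z (s + 2))) → th x z s e = th x z (s + 1) e) := by
  refine Int_ind (a := s + 2) (fun e h h' => absurd h' (by omega)) (fun e h ih _ => ?_)
  rcases eq_or_lt_of_le h with h1 | h1
  · subst h1
    rw [th_right le_rfl, th_base (s := s) (e := s + 2 - 1) (by omega),
      th_base (s := s + 1) (e := s + 2) (by omega)]
    have e1 : s + 2 - 1 = s + 1 := by ring
    refine ⟨fun h2 => ?_, fun h2 => ?_⟩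
    · rw [st_one (by rw [e1]; exact h2.1) (Or.inl rfl)]
    · rw [st_A]
      rw [e1]
      intro h3
      exact h2 ⟨h3, fun h4 => absurd h4.1 (by omega)⟩
  · rw [th_right h, th_right (s := s + 1) (by omega)]
    obtain ⟨i1, i2⟩ := ih (by omega)
    rcases eq_or_lt_of_le (show s + 3 ≤ e by omega) with h2 | h2
    · subst h2
      have a1 : s + 3 - 1 = s + 2 := by ring
      have a2 : s + 3 - 2 = s + 1 := by ring
      have a3 : s + 3 = s + 1 + 2 := by ring
      have n1 : ¬ (s + 3 ≤ s + 3 - 1 ∧ tS x z (s + 2)) := fun h4 => absurd h4.1 (by omega)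
      by_cases hA : tS x z (s + 1)
      · rw [i1 ⟨hA, n1⟩]
        have e1 : st x z s (s + 3) = 0 := st_SS (by omega) (by rw [a2]; exact hA)
        rw [e1]
        by_cases hB : tS x z (s + 2)
        · have e2 : st x z (s + 1) (s + 3) = 1 := st_one (by rw [a1]; exact hB) (Or.inl a3)
          rw [e2]
          exact ⟨fun h => absurd ⟨le_rfl, hB⟩ h.2, fun _ => by omega⟩
        · have e2 : st x z (s + 1) (s + 3) = 0 := st_A (by rw [a1]; exact hB)
          rw [e2]
          exact ⟨fun _ => by omega, fun h => absurd ⟨hA, fun h5 => hB h5.2⟩ h⟩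
      · rw [i2 fun h4 => hA h4.1]
        refine ⟨fun h => absurd h.1 hA, fun _ => ?_⟩
        by_cases hB : tS x z (s + 2)
        · rw [st_one (s := s) (by rw [a1]; exact hB) (Or.inr (by rw [a2]; exact hA)),
            st_one (s := s + 1) (by rw [a1]; exact hB) (Or.inl a3)]
        · rw [st_A (s := s) (by rw [a1]; exact hB), st_A (s := s + 1) (by rw [a1]; exact hB)]
    · rw [st_congr (s := s) (s' := s + 1) (by omega) (by omega)]
      constructor
      · intro h3
        rw [i1 ⟨h3.1, fun h4 => h3.2 ⟨by omega, h4.2⟩⟩]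
        omega
      · intro h3
        rw [i2 fun h4 => h3 ⟨h4.1, fun h5 => h4.2 ⟨by omega, h5.2⟩⟩]

theorem th_rv {x z : ℤ → ℝ} {s : ℤ} : ∀ e : ℤ, th (rv z) (rv x) (-e) (-s) = th x z s e := by
  refine Int_ind (a := s + 2) (fun e h => ?_) (fun e h ih => ?_)
  · rw [th_base (by omega), th_base (by omega)]
  · obtain ⟨i1, i2⟩ := th_left (x := rv z) (z := rv x) (s := -e) (-s) (by omega)
    rw [show -e + 1 = -(e - 1) by ring, show -e + 2 = -(e - 2) by ring, tS_rv, tS_rv, ih] at i1 i2
    rw [th_right h]
    by_cases h1 : tS x z (e - 1) ∧ ¬ (-e + 3 ≤ -s ∧ tS x z (e - 2))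
    · rw [i1 h1, st_one h1.1]
      by_cases h2 : e = s + 2
      · exact Or.inl h2
      · exact Or.inr fun h3 => h1.2 ⟨by omega, h3⟩
    · rw [i2 h1]
      by_cases h2 : tS x z (e - 1)
      · have h3 : -e + 3 ≤ -s ∧ tS x z (e - 2) := by
          by_contra h4
          exact h1 ⟨h2, h4⟩
        rw [st_SS (by omega) h3.2, add_zero]
      · rw [st_A h2, add_zero]

theorem th_right_le {x z : ℤ → ℝ} {s e : ℤ} : th x z s e ≤ th x z s (e - 1) + 1 := by
  rcases lt_or_ge e (s + 2) with h | h
  · rw [th_base (by omega)]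
    omega
  · rw [th_right h]
    have := st_le x z s e
    omega

theorem th_left_le {x z : ℤ → ℝ} {s e : ℤ} : th x z s e ≤ th x z (s + 1) e + 1 := by
  rcases lt_or_ge e (s + 2) with h | h
  · rw [th_base (by omega)]
    omega
  · obtain ⟨i1, i2⟩ := th_left (x := x) (z := z) e h
    by_cases h1 : tS x z (s + 1) ∧ ¬ (s + 3 ≤ e ∧ tS x z (s + 2))
    · rw [i1 h1]
    · rw [i2 h1]
      omega

theorem th_left_A {x z : ℤ → ℝ} {s e : ℤ} (hA : ¬ tS x z (s + 1)) :
    th x z s e = th x z (s + 1) e := by
  rcases lt_or_ge e (s + 2) with h | h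
  · rw [th_base (by omega), th_base (by omega)]
  · exact (th_left e h).2 fun h1 => hA h1.1

theorem th_right_A {x z : ℤ → ℝ} {s e : ℤ} (hA : ¬ tS x z (e - 1)) :
    th x z s e = th x z s (e - 1) := by
  rcases lt_or_ge e (s + 2) with h | h
  · rw [th_base (by omega), th_base (by omega)]
  · rw [th_right h, st_A hA, add_zero]

/-- Two consecutive vertices are lost: at most one run is lost. -/
theorem th_split {x z : ℤ → ℝ} {s j : ℤ} (hs : s ≤ j) : ∀ e : ℤ, j + 1 ≤ e →
    th x z s e ≤ th x z s j + th x z (j + 1) e + 1 := by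
  refine Int_ind (a := j + 1) (fun e h h' => absurd h' (by omega)) (fun e h ih _ => ?_)
  rcases eq_or_lt_of_le h with h1 | h1
  · subst h1
    have h2 := th_right_le (x := x) (z := z) (s := s) (e := j + 1)
    rw [add_sub_cancel_right] at h2
    omega
  · have ih' := ih (by omega)
    rcases eq_or_lt_of_le (show j + 2 ≤ e by omega) with h2 | h2
    · subst h2
      rw [th_base (s := j + 1) (e := j + 2) (by omega)]
      rcases eq_or_lt_of_le hs with h3 | h3
      · subst h3
        have h4 := th_right_le (x := x) (z := z) (s := s) (e := s + 2)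
        rw [th_base (s := s) (e := s + 2 - 1) (by omega)] at h4
        omega
      · have a1 : j + 2 - 1 = j + 1 := by ring
        have a2 : j + 2 - 2 = j := by ring
        rw [th_right (e := j + 2) (by omega), a1, th_right (e := j + 1) (by omega),
          add_sub_cancel_right]
        have l1 := st_le x z s (j + 1)
        have l2 := st_le x z s (j + 2)
        by_cases hA : tS x z j
        · rw [st_SS (e := j + 2) (by omega) (by rw [a2]; exact hA)]
          omega
        · rw [st_A (e := j + 1) (by rw [add_sub_cancel_right]; exact hA)]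
          omega
    · rw [th_right (e := e) (by omega), th_right (s := j + 1) (e := e) (by omega)]
      have l1 := st_mono (x := x) (z := z) (s := s) (s' := j + 1) (e := e) (by omega)
      omega

/-- Overlapping windows: nothing is lost. -/
theorem th_overlap {x z : ℤ → ℝ} {s a b : ℤ} (hs : s ≤ a) (hab : a + 1 ≤ b) : ∀ e : ℤ, b ≤ e →
    th x z s e ≤ th x z s b + th x z a e := by
  refine Int_ind (a := b) (fun e h h' => absurd h' (by omega)) (fun e h ih _ => ?_)
  rcases eq_or_lt_of_le h with h1 | h1
  · subst h1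
    omega
  · have ih' := ih (by omega)
    rw [th_right (e := e) (by omega), th_right (s := a) (e := e) (by omega)]
    have l1 := st_mono (x := x) (z := z) (s := s) (s' := a) (e := e) (by omega)
    omega

/-- A cut at the vertex `j`: nothing is lost, unless `j` is an isolated vertex of type `S`. -/
theorem th_cut {x z : ℤ → ℝ} {s j : ℤ} (hs : s < j) : ∀ e : ℤ, j + 1 ≤ e →
    (¬ tS x z j ∨ (s + 2 ≤ j ∧ tS x z (j - 1)) ∨ (j + 2 ≤ e ∧ tS x z (j + 1))) →
    th x z s e ≤ th x z s j + th x z j e := by
  refine Int_ind (a := j + 1) (fun e h h' => absurd h' (by omega)) (fun e h ih _ hH => ?_)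
  rcases eq_or_lt_of_le h with h1 | h1
  · subst h1
    have a1 : j + 1 - 2 = j - 1 := by ring
    rw [th_right (by omega), add_sub_cancel_right]
    rcases hH with h2 | h2 | h2
    · rw [st_A (by rw [add_sub_cancel_right]; exact h2)]
      omega
    · rw [st_SS (by omega) (by rw [a1]; exact h2.2)]
      omega
    · omega
  · rcases eq_or_lt_of_le (show j + 2 ≤ e by omega) with h2 | h2
    · subst h2
      have a1 : j + 2 - 1 = j + 1 := by ring
      have a2 : j + 2 - 2 = j := by ring
      have a3 : j + 1 - 2 = j - 1 := by ring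
      rw [th_right (s := s) (e := j + 2) (by omega), th_right (s := j) (e := j + 2) le_rfl, a1,
        th_base (s := j) (e := j + 1) (by omega), th_right (s := s) (e := j + 1) (by omega),
        add_sub_cancel_right]
      have l1 := st_le x z s (j + 1)
      have l2 := st_le x z s (j + 2)
      have l3 := st_mono (x := x) (z := z) (s := s) (s' := j) (e := j + 2) (by omega)
      by_cases hA : tS x z j
      · rw [st_SS (s := s) (e := j + 2) (by omega) (by rw [a2]; exact hA)]
        rcases hH with h3 | h3 | h3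
        · exact absurd hA h3
        · rw [st_SS (s := s) (e := j + 1) (by omega) (by rw [a3]; exact h3.2)]
          omega
        · rw [st_one (s := j) (e := j + 2) (by rw [a1]; exact h3.2) (Or.inl rfl)]
          omega
      · rw [st_A (s := s) (e := j + 1) (by rw [add_sub_cancel_right]; exact hA)]
        omega
    · have ih' := ih (by omega) (by
        rcases hH with h3 | h3 | h3
        · exact Or.inl h3
        · exact Or.inr (Or.inl h3)
        · exact Or.inr (Or.inr ⟨by omega, h3.2⟩))
      rw [th_right (e := e) (by omega), th_right (s := j) (e := e) (by omega)]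
      have l1 := st_mono (x := x) (z := z) (s := s) (s' := j) (e := e) (by omega)
      omega

open Classical in
/-- `1` for a vertex of type `A`, `0` for a vertex of type `S`. -/
noncomputable def tA (x z : ℤ → ℝ) (t : ℤ) : ℕ := if tS x z t then 0 else 1

theorem tA_S {x z : ℤ → ℝ} {t : ℤ} (h : tS x z t) : tA x z t = 0 := if_pos h

theorem tA_A {x z : ℤ → ℝ} {t : ℤ} (h : ¬ tS x z t) : tA x z t = 1 := if_neg h

theorem tA_le (x z : ℤ → ℝ) (t : ℤ) : tA x z t ≤ 1 := by
  unfold tA
  split_ifs <;> omega

/-- One vertex of type `S` is added at the right end. -/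
theorem th_one {x z : ℤ → ℝ} {s e : ℤ} (h : s + 3 ≤ e) (hS : tS x z (e - 1)) :
    th x z s e + tA x z (e - 1) ≤ th x z s (e - 1) + tA x z (e - 2) := by
  rw [th_right (by omega), tA_S hS]
  by_cases hB : tS x z (e - 2)
  · rw [st_SS (by omega) hB]
    omega
  · rw [tA_A hB]
    have := st_le x z s e
    omega

/-- Two vertices are added at the right end. -/
theorem th_two {x z : ℤ → ℝ} {s e : ℤ} (h : s + 4 ≤ e) :
    th x z s e + tA x z (e - 1) ≤ th x z s (e - 2) + tA x z (e - 3) + 1 := by
  have a1 : e - 1 - 1 = e - 2 := by ring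
  have a2 : e - 1 - 2 = e - 3 := by ring
  rw [th_right (by omega), th_right (e := e - 1) (by omega), a1]
  have l1 := st_le x z s e
  have l2 := st_le x z s (e - 1)
  by_cases hA : tS x z (e - 1)
  · rw [tA_S hA]
    by_cases hB : tS x z (e - 2)
    · rw [st_SS (s := s) (e := e) (by omega) hB]
      omega
    · rw [st_A (s := s) (e := e - 1) (by rw [a1]; exact hB)]
      omega
  · rw [tA_A hA, st_A (s := s) (e := e) hA]
    by_cases hC : tS x z (e - 3)
    · rw [st_SS (s := s) (e := e - 1) (by omega) (by rw [a2]; exact hC)]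
      omega
    · rw [tA_A hC]
      omega

/-- Few interior vertices. -/
theorem th_small {x z : ℤ → ℝ} {s e : ℤ} (h : e ≤ s + 3) : th x z s e ≤ 1 := by
  have h1 := th_split (x := x) (z := z) (le_refl s) e
  rcases lt_or_ge e (s + 1) with h2 | h2
  · rw [th_base (by omega)]
    omega
  · have h3 := h1 h2
    rw [th_base (s := s) (e := s) (by omega)] at h3
    rcases lt_or_ge e (s + 3) with h4 | h4
    · rw [th_base (s := s + 1) (e := e) (by omega)] at h3
      omega
    · have h5 : e = s + 3 := by omega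
      subst h5
      have h6 := th_split (x := x) (z := z) (s := s) (j := s + 1) (by omega) (s + 3) (by omega)
      rw [th_base (s := s) (e := s + 1) (by omega), th_base (s := s + 1 + 1) (by omega)] at h6
      omega

end Pool.Agent.SulK
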