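import Pool.Agent.SulK.LS

/-!
# MP_109285_co, K-law, module VS: windows whose left end has an unseen vertex
-/

set_option autoImplicit false

namespace Pool.Agent.SulK

theorem al_anti {x z : ℤ → ℝ} {s e e' : ℤ} (h : e ≤ e') : al x z s e' ≤ al x z s e := af_anti h

theorem al_le {x z : ℤ → ℝ} {s e : ℤ} : al x z s e ≤ x s := af_le_cap

theorem be_le {x z : ℤ → ℝ} {s e : ℤ} : be x z s e ≤ z e := Be_le_cap

theorem al_eq {x z : ℤ → ℝ} {s e : ℤ} (h : s ≤ e) :
    al x z s e = af x (fun t => G x z s t) (x s) (s + 1) e := by
  unfold al
  rw [Al_first h, min_self]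

/-- The last seen strict prefix minimum. -/
theorem lastdrop {x z : ℤ → ℝ} {p q : ℤ} (h : p ≤ q) : ∃ g, p ≤ g ∧ g ≤ q ∧
    (p = g ∨ G x z p g) ∧ al x z p q = al x z p g ∧ x g ≤ al x z p g ∧
    (∀ t, p ≤ t → t < g → x g < x t) := by
  obtain ⟨g, h1, h2, h3, h4⟩ := af_last (f := x) (R := fun t => G x z p t) (X := x p) (a := p + 1) q
    (by omega)
  rw [add_sub_cancel_right] at h1 h4
  refine ⟨g, h1, h2, ?_, ?_, ?_, ?_⟩
  · rcases h4 with h4 | h4
    · exact Or.inl h4.symm
    · exact Or.inr h4.1
  · rw [al_eq h, al_eq h1]
    exact h3.symm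
  · rw [al_eq h1]
    rcases h4 with h4 | h4
    · rw [h4, af_base (by omega)]
    · refine le_trans ?_ (mn_le_af g)
      have h5 := h4.1.lt
      refine le_mn (le_trans h4.2.le mn_le_cap) fun t ht1 ht2 => ?_
      rcases eq_or_lt_of_le ht2 with h6 | h6
      · rw [h6]
      · exact le_trans h4.2.le (mn_le ht1 (by omega))
  · intro t ht1 ht2
    rcases h4 with h4 | h4
    · omega
    · rcases eq_or_lt_of_le ht1 with h6 | h6
      · rw [← h6]
        exact lt_of_lt_of_le h4.2 mn_le_cap
      · exact lt_of_lt_of_le h4.2 (mn_le (by omega) (by omega))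

/-- The least element. -/
theorem exists_least {p : ℤ → Prop} {v g : ℤ} (hvg : v < g) (hg : p g) :
    ∃ F, v < F ∧ F ≤ g ∧ p F ∧ ∀ t, v < t → t < F → ¬ p t := by
  classical
  have hex : ∃ n : ℕ, p (v + 1 + n) := ⟨(g - v - 1).toNat, by
    rw [Int.toNat_of_nonneg (by omega), show v + 1 + (g - v - 1) = g by ring]
    exact hg⟩
  have h1 := Nat.find_spec hex
  have h2 := fun m (hm : m < Nat.find hex) => Nat.find_min hex hm
  set n := Nat.find hex with hn
  refine ⟨v + 1 + n, by omega, ?_, h1, ?_⟩
  · by_contra hc
    have h3 := h2 (g - v - 1).toNat (by omega)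
    rw [Int.toNat_of_nonneg (by omega), show v + 1 + (g - v - 1) = g by ring] at h3
    exact h3 hg
  · intro t ht1 ht2 ht3
    have h3 := h2 (t - v - 1).toNat (by omega)
    rw [Int.toNat_of_nonneg (by omega), show v + 1 + (t - v - 1) = t by ring] at h3
    exact h3 ht3

/-- Claim F: not all of `[s, v]` see the same `g` beyond `v`. -/
theorem claimF {x z : ℤ → ℝ} {s e v g : ℤ} (hf : Feas x z s e)
    (IHD : ∀ p q : ℤ, s < p → p ≤ q → q ≤ e → PD x z p q)
    (hsv : s + 2 ≤ v) (hvg : v < g) (hge : g ≤ e) (hb : Bad x z s v)
    (hz : ∀ t, s ≤ t → t < v → z s - 2 ≤ z t)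
    (H : (∀ t, s ≤ t → t ≤ e → z s - 2 ≤ z t) ∨
      ∃ P, v ≤ P ∧ P ≤ e ∧ (∀ t, s ≤ t → t < P → z s - 2 ≤ z t) ∧
        (∀ t, P ≤ t → t < e → x e < x t) ∧ ∃ Q, s ≤ Q ∧ Q < e ∧ x Q < x e - 2)
    (hall : ∀ t, s ≤ t → t ≤ v → G x z t g) : False := by
  obtain ⟨F, hF1, hF2, hF3, hF4⟩ := exists_least (p := fun F => ∀ t, s ≤ t → t ≤ v → G x z t F)
    hvg hall
  have hFv : v + 2 ≤ F := by
    by_contra hc
    have hFv : F = v + 1 := by omega
    subst hFv
    have h1 := hf s (v + 1) le_rfl (by omega) (hF3 s le_rfl (by omega)) v (by omega) (by omega)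
    have h2 := hb s le_rfl (by omega)
    have h3 := hz (s + 1) (by omega) (by omega)
    linarith
  have hxF : ∀ t, s ≤ t → t ≤ v → x (F - 1) ≤ x t + 1 := by
    intro t h1 h2
    have h3 := hf t F h1 (by omega) (hF3 t h1 h2) (F - 1) (by omega) (by omega)
    rw [sub_add_cancel] at h3
    linarith
  have star : ∀ e', v < e' → e' < F → (∀ t, v < t → t ≤ e' → z s - 2 ≤ z t) →
      x (F - 1) + 17 ≤ x e' := by
    intro e' he1 he2 hze
    have hD := IHD (v + 1) e' (by omega) (by omega) (by omega) (by omega)
      (hf.mono (by omega) (by omega))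
    unfold D at hD
    have hth : (0 : ℝ) ≤ th x z (v + 1) e' := Nat.cast_nonneg _
    have hbe : z s - 2 ≤ be x z (v + 1) e' := le_Be (hze e' he1 le_rfl)
      fun t h1 h2 => hze t (by omega) h2
    obtain ⟨g', hg1, hg2, hg3, hg4, hg5, hg6⟩ := lastdrop (x := x) (z := z) (p := v + 1) (q := e')
      (by omega)
    have hnot : ∃ t, s ≤ t ∧ t ≤ v ∧ ¬ G x z t g' := by
      have h1 := hF4 g' (by omega) (by omega)
      push Not at h1
      exact h1
    obtain ⟨u, hu1, hu2, hu3, hu4, hu5⟩ := last_nonseer (b := v) hg3 hnot
    have h1 := hu5 v hu2 (by omega)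
    rcases eq_or_lt_of_le hu1 with h2 | h2
    · subst h2
      have h3 := hxF v (by omega) le_rfl
      linarith
    · have h3 := hb (u - 1) (by omega) (by omega)
      rw [sub_add_cancel] at h3
      have h4 := hxF (u - 1) (by omega) (by omega)
      linarith
  rcases H with H | ⟨P, hP1, hP2, hP3, hP4, Q, hQ1, hQ2, hQ3⟩
  · have h1 := star (F - 1) (by omega) (by omega) fun t h1 h2 => H t (by omega) (by omega)
    linarith
  · rcases lt_or_ge (F - 1) P with h1 | h1
    · have h2 := star (F - 1) (by omega) (by omega) fun t h2 h3 => hP3 t (by omega) (by omega)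
      linarith
    · have h2 := hP4 (F - 1) h1 (by omega)
      have hQP : Q < P := by
        by_contra hc
        have h3 := hP4 Q (by omega) hQ2
        linarith
      rcases le_or_gt Q v with h3 | h3
      · have h4 := hxF Q hQ1 h3
        linarith
      · have h4 := star Q h3 (by omega) fun t h5 h6 => hP3 t (by omega) (by omega)
        linarith

/-- Case (5): the vertex `v - 1` is at least as high as `v`. -/
theorem case5 (l : ℕ)
    (IHD : ∀ (x z : ℤ → ℝ) (s e : ℤ), e - s ≤ l → PD x z s e)
    (HL : ∀ (x z : ℤ → ℝ) (s e c : ℤ), e - s ≤ l + 1 → PL x z s e c)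
    (x z : ℤ → ℝ) (s e v : ℤ) (hes : e - s ≤ l + 1) (hf : Feas x z s e)
    (hsv : s + 2 ≤ v) (hve : v < e) (hb : Bad x z s v)
    (hz : ∀ t, s ≤ t → t < v → z s - 2 ≤ z t) (h5 : x v < x (v - 1) + 2) :
    (th x z s e : ℝ) + 1 ≤ D x z s e := by
  have hD := IHD x z v e (by omega) hve.le (hf.mono (by omega) le_rfl)
  unfold D at hD ⊢
  have hbe : be x z s e ≤ be x z v e := be_anti (by omega)
  have hbv := hb (v - 1) (by omega) (by omega)
  rw [sub_add_cancel] at hbv
  rcases eq_or_lt_of_le hsv with h1 | h1
  · -- v = s + 2
    subst h1
    have e1 : s + 2 - 1 = s + 1 := by ring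
    rw [e1] at hbv h5
    have hb0 := hb s le_rfl (by omega)
    have hz1 := hz (s + 1) (by omega) (by omega)
    have hth : (th x z s e : ℝ) ≤ th x z (s + 2) e + 1 := by
      have h2 := th_split (x := x) (z := z) (s := s) (j := s + 1) (by omega) e (by omega)
      rw [th_base (s := s) (e := s + 1) (by omega), show s + 1 + 1 = s + 2 by ring] at h2
      have h3 : th x z s e ≤ th x z (s + 2) e + 1 := by omega
      exact_mod_cast h3
    have hal : al x z s e ≤ al x z (s + 2) e + max 0 (z s - z (s + 2) - 18) := by
      rw [al_eq (by omega), al_eq (by omega), af_left_nodrop (by linarith),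
        af_left_nodrop (a := s + 1 + 1) (by
          rw [show s + 1 + 1 = s + 2 by ring]
          linarith)]
      rw [show s + 1 + 1 + 1 = s + 2 + 1 by ring]
      have e2 : af x (fun t => G x z (s + 2) t) (x s) (s + 2 + 1) e ≤
          af x (fun t => G x z (s + 2) t) (x (s + 2)) (s + 2 + 1) e := af_mono_cap (by linarith)
      refine le_trans (af_compare (R' := fun t => G x z (s + 2) t) (le_max_left _ _) ?_)
        (by linarith)
      intro t h2 h3 h4 h6 h7
      refine le_trans ?_ (le_max_right _ _)
      by_cases h8 : G x z (s + 1) t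
      · rcases G_or_bad_left h8 with h9 | h9
        · exact absurd h9 h6
        · have h10 := h9 (s + 1) (by omega) (by omega)
          rw [show s + 1 + 1 = s + 2 by ring] at h10
          linarith
      · rcases G_or_bad_left (i := s + 1) (by rw [show s + 1 + 1 = s + 2 by ring]; exact h4) with
          h9 | h9
        · exact absurd h9 h8
        · have h10 := h9 (s + 1) (by omega) (by omega)
          rw [show s + 1 + 1 = s + 2 by ring] at h10
          linarith
    rw [max_eq_right (by linarith)] at hal
    linarith
  · have hm := PLm_of_PL (HL (rv z) (rv x) (-e) (-s) (-(v - 1)) (by omega)) (z s - 2)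
      (by omega) (by omega) hf
      (fun t h2 h3 => by
        have h4 := hb t h2 (by omega)
        have h6 := hz (t + 1) (by omega) (by omega)
        linarith)
      (fun t h2 h3 => hz t h2 (by omega))
    rw [sub_add_cancel] at hm
    have hAl := Al_le_al (x := x) (z := z) (p := v) (e := e) (X := x (v - 1)) (by omega)
    have hW := bad_W hb (by omega)
    have hW1 : W x z s (v - 1) ≤ W x z s v := W_mono le_rfl (by omega) (by omega)
    have hmax : max 0 (W x z s (v - 1) - w x z (v - 1)) ≤ z s - z v - 18 := by
      refine max_le (by linarith) ?_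
      unfold w
      rw [sub_add_cancel]
      linarith
    have hth : (th x z s e : ℝ) ≤ th x z s (v - 1) + th x z v e + 1 := by
      have h2 := th_split (x := x) (z := z) (s := s) (j := v - 1) (by omega) e (by omega)
      rw [sub_add_cancel] at h2
      exact_mod_cast h2
    linarith

/-- Windows whose left end has an unseen vertex. -/
theorem V_step (l : ℕ)
    (IHD : ∀ (x z : ℤ → ℝ) (s e : ℤ), e - s ≤ l → PD x z s e)
    (HL : ∀ (x z : ℤ → ℝ) (s e c : ℤ), e - s ≤ l + 1 → PL x z s e c)
    (HLL : ∀ (x z : ℤ → ℝ) (s n c v : ℤ), n - s ≤ l + 1 → PLL x z s n c v)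
    (x z : ℤ → ℝ) (s e v : ℤ) (hes : e - s ≤ l + 1) (hf : Feas x z s e)
    (hsv : s + 2 ≤ v) (hve : v ≤ e) (hb : Bad x z s v)
    (hz : ∀ t, s ≤ t → t < v → z s - 2 ≤ z t)
    (H : (∀ t, s ≤ t → t ≤ e → z s - 2 ≤ z t) ∨
      ∃ P, v ≤ P ∧ P ≤ e ∧ (∀ t, s ≤ t → t < P → z s - 2 ≤ z t) ∧
        (∀ t, P ≤ t → t < e → x e < x t) ∧ ∃ Q, s ≤ Q ∧ Q < e ∧ x Q < x e - 2) :
    (th x z s e : ℝ) + 1 ≤ D x z s e := by
  have hbz : ∀ t, s ≤ t → t < v → z s - 2 ≤ be x z s t := fun t h1 h2 =>
    le_Be (hz t h1 h2) fun u h3 h4 => hz u h3 (by omega)
  rcases eq_or_lt_of_le hve with hve' | hve'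
  · -- v = e
    subst hve'
    have h1 := hb (v - 1) (by omega) (by omega)
    rw [sub_add_cancel] at h1
    have hD := IHD x z s (v - 1) (by omega) (by omega) (hf.mono le_rfl (by omega))
    unfold D at hD ⊢
    have h2 : al x z s v ≤ al x z s (v - 1) := al_anti (by omega)
    have h3 : be x z s v ≤ z v := be_le
    have h4 := hbz (v - 1) (by omega) (by omega)
    have h5 : (th x z s v : ℝ) ≤ th x z s (v - 1) + 1 := by
      exact_mod_cast th_right_le (x := x) (z := z) (s := s) (e := v)
    linarith
  by_cases h5 : x (v - 1) + 2 ≤ x v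
  swap
  · exact case5 l IHD HL x z s e v hes hf hsv hve' hb hz (not_le.1 h5)
  obtain ⟨g, hg1, hg2, hg3, hg4, hg5, hg6⟩ := lastdrop (x := x) (z := z) (p := v + 1) (q := e)
    (by omega)
  have hnot : ∃ t, s ≤ t ∧ t ≤ v ∧ ¬ G x z t g := by
    by_contra hc
    push Not at hc
    exact claimF hf (fun p q h1 h2 h3 => IHD x z p q (by omega)) hsv (by omega) hg2 hb hz H hc
  obtain ⟨u, hu1, hu2, hu3, hu4, hu5⟩ := last_nonseer (b := v) hg3 hnot
  have hD1 := IHD x z (v + 1) e (by omega) (by omega) (hf.mono (by omega) le_rfl)
  have hbe : be x z s e ≤ be x z (v + 1) e := be_anti (by omega)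
  have hvu := hu5 v hu2 (by omega)
  have htwo : ∀ u : ℤ, s + 1 ≤ u → v - 1 ≤ u → u ≤ v →
      (th x z s e : ℝ) ≤ th x z s (u - 1) + th x z (v + 1) e + 2 := by
    intro u h1 h2 h3
    have h4 : th x z s e ≤ th x z s (u - 1) + th x z (v + 1) e + 2 := by
      have h6 := th_split (x := x) (z := z) (s := s) (j := u - 1) (by omega) e (by omega)
      rw [sub_add_cancel] at h6
      rcases eq_or_lt_of_le h3 with h7 | h7
      · subst h7
        have h8 := th_left_le (x := x) (z := z) (s := u) (e := e)
        omega
      · have h9 : u = v - 1 := by omega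
        subst h9
        have h8 := th_split (x := x) (z := z) (s := v - 1) (j := v) (by omega) e (by omega)
        rw [th_base (s := v - 1) (e := v) (by omega)] at h8
        omega
    exact_mod_cast h4
  rcases eq_or_lt_of_le hu1 with hus | hus
  · -- u = s
    subst hus
    have h1 := hb (v - 2) (by omega) (by omega)
    have h2 := hz (v - 2 + 1) (by omega) (by omega)
    have hD2 := IHD x z s (v - 2) (by omega) (by omega) (hf.mono le_rfl (by omega))
    have h3 := hbz (v - 2) (by omega) (by omega)
    have h4 : al x z s e ≤ al x z s (v - 2) := al_anti (by omega)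
    have h6 := htwo (v - 1) (by omega) le_rfl (by omega)
    rw [show v - 1 - 1 = v - 2 by ring] at h6
    unfold D at hD1 hD2 ⊢
    linarith
  · rcases lt_or_ge u (v - 1) with huv | huv
    swap
    · have h1 := hb (u - 1) (by omega) (by omega)
      rw [sub_add_cancel] at h1
      have hD2 := IHD x z s (u - 1) (by omega) (by omega) (hf.mono le_rfl (by omega))
      have h3 := hbz (u - 1) (by omega) (by omega)
      have h4 : al x z s e ≤ al x z s (u - 1) := al_anti (by omega)
      have h6 := htwo u (by omega) huv hu2
      unfold D at hD1 hD2 ⊢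
      linarith
    · -- u ≤ v - 2
      have hgv : v + 2 ≤ g := by
        by_contra hc
        have hgv : g = v + 1 := by omega
        subst hgv
        have h1 := hf (v - 1) (v + 1) (by omega) (by omega) (hu3 (v - 1) (by omega) (by omega)) v
          (by omega) (by omega)
        linarith
      have hPr : ∀ t, s ≤ t → t < v → x t + 2 ≤ x v := by
        intro t h1 h2
        rcases eq_or_lt_of_le (show t ≤ v - 1 by omega) with h3 | h3
        · rw [h3]
          exact h5
        · have h4 := hb t h1 h2
          have h6 := hz (t + 1) (by omega) (by omega)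
          linarith
      have hxg : ∀ t, u < t → t ≤ v → x g - 1 ≤ x t := by
        intro t h1 h2
        have h3 := hf t g (by omega) (by omega) (hu3 t h1 h2) (g - 1) (by omega) (by omega)
        rw [sub_add_cancel] at h3
        have h4 := hg6 (g - 1) (by omega) (by omega)
        linarith
      have hξ : ∀ t, u < t → t ≤ g → x g - 1 ≤ x t := by
        intro t h1 h2
        rcases le_or_gt t v with h3 | h3
        · exact hxg t h1 h3
        · rcases eq_or_lt_of_le h2 with h4 | h4
          · rw [h4]
            linarith
          · have := hg6 t (by omega) h4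
            linarith
      have hzu : ∀ t, u + 1 < t → t ≤ v → z t + 19 ≤ z u := by
        intro t h1 h2
        have h3 := hu5 (t - 1) (by omega) (by omega)
        rw [sub_add_cancel] at h3
        have h4 := hxg (t - 1) (by omega) (by omega)
        linarith
      have hWs := bad_W hb (by omega)
      have hWu := bad_W hu5 (by omega)
      have hAl : Al x z (v + 1) g (x v) ≤ al x z (v + 1) g := Al_le_al (by omega)
      rcases le_or_gt (z (u + 1) + 2) (z u) with hzz | hzz
      · -- wall at `u`
        have hL := HLL x z s g u v (by omega) (x g - 1) (z s - 2) (by omega) (by omega) (by omega)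
          (hf.mono le_rfl hg2)
          (fun t h1 h2 => by
            rcases eq_or_lt_of_le (show u + 1 ≤ t by omega) with h3 | h3
            · rw [← h3]
              exact hzz
            · have := hzu t h3 h2
              linarith)
          (fun t h1 h2 => hPr t (by omega) h2) hξ (fun t h1 h2 => hz t h1 (by omega))
          (fun t h1 h2 => by
            have := hz t (by omega) h2
            linarith)
        have hBe : Be x z s (u - 1) (z u) ≤ be x z s (u - 1) := Be_le_be (by omega)
        have hD2 := IHD x z s (u - 1) (by omega) (by omega) (hf.mono le_rfl (by omega))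
        have h4 : al x z s e ≤ al x z s (u - 1) := al_anti (by omega)
        have m1 : w x z (u - 1) + max 0 (W x z u v - w x z (u - 1)) ≤ W x z s v := by
          rcases le_total (W x z u v - w x z (u - 1)) 0 with h6 | h6
          · rw [max_eq_left h6]
            have := le_W (x := x) (z := z) (i := s) (j := v) (k := u - 1) (by omega) (by omega)
            linarith
          · rw [max_eq_right h6]
            have := W_mono (x := x) (z := z) (i := u) (j := v) (i' := s) (j' := v) (by omega)
              (by omega) le_rfl
            linarith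
        have m2 : w x z v + max 0 (W x z u v - w x z v) ≤ W x z u g := by
          rcases le_total (W x z u v - w x z v) 0 with h6 | h6
          · rw [max_eq_left h6]
            have := le_W (x := x) (z := z) (i := u) (j := g) (k := v) (by omega) (by omega)
            linarith
          · rw [max_eq_right h6]
            have := W_mono (x := x) (z := z) (i := u) (j := v) (i' := u) (j' := g) le_rfl
              (by omega) (by omega)
            linarith
        have hw1 : w x z (u - 1) = x (u - 1) + z u := by
          unfold w
          rw [sub_add_cancel]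
        have hw2 : w x z v = x v + z (v + 1) := rfl
        have hth : (th x z s e : ℝ) ≤ th x z s (u - 1) + th x z u v + th x z (v + 1) e + 2 := by
          have h6 := th_split (x := x) (z := z) (s := s) (j := u - 1) (by omega) e (by omega)
          rw [sub_add_cancel] at h6
          have h7 := th_split (x := x) (z := z) (s := u) (j := v) (by omega) e (by omega)
          have h8 : th x z s e ≤ th x z s (u - 1) + th x z u v + th x z (v + 1) e + 2 := by omega
          exact_mod_cast h8
        have h9 : (0 : ℝ) ≤ tA x z (v - 1) := Nat.cast_nonneg _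
        unfold D at hD1 hD2 ⊢
        linarith
      · -- wall at `u + 1`
        have hD2 := IHD x z s u (by omega) (by omega) (hf.mono le_rfl (by omega))
        have h4 : al x z s e ≤ al x z s u := al_anti (by omega)
        have hw1 : w x z u = x u + z (u + 1) := rfl
        have hw2 : w x z v = x v + z (v + 1) := rfl
        rcases lt_or_ge v (u + 3) with h6 | h6
        · -- v = u + 2
          have h7 : w x z u ≤ W x z s v := le_W (by omega) (by omega)
          have h8 : w x z v ≤ W x z u g := le_W (by omega) (by omega)
          have h9 := hbz u (by omega) (by omega)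
          have hth : (th x z s e : ℝ) ≤ th x z s u + th x z (v + 1) e + 2 := by
            have h10 := th_split (x := x) (z := z) (s := s) (j := u) (by omega) e (by omega)
            have h11 := th_split (x := x) (z := z) (s := u + 1) (j := v) (by omega) e (by omega)
            rw [th_base (s := u + 1) (e := v) (by omega)] at h11
            have h12 : th x z s e ≤ th x z s u + th x z (v + 1) e + 2 := by omega
            exact_mod_cast h12
          unfold D at hD1 hD2 ⊢
          linarith
        · have hL := HLL x z s g (u + 1) v (by omega) (x g - 1) (z s - 2) (by omega) (by omega)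
            (by omega) (hf.mono le_rfl hg2)
            (fun t h1 h2 => by
              have := hzu t (by omega) h2
              linarith)
            (fun t h1 h2 => hPr t (by omega) h2) (fun t h1 h2 => hξ t (by omega) h2)
            (fun t h1 h2 => hz t h1 (by omega))
            (fun t h1 h2 => by
              have := hz t (by omega) h2
              linarith)
          rw [add_sub_cancel_right] at hL
          have hBe : Be x z s u (z (u + 1)) ≤ be x z s u := Be_le_be (by omega)
          have m1 : w x z u + max 0 (W x z (u + 1) v - w x z u) ≤ W x z s v := by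
            rcases le_total (W x z (u + 1) v - w x z u) 0 with h7 | h7
            · rw [max_eq_left h7]
              have := le_W (x := x) (z := z) (i := s) (j := v) (k := u) (by omega) (by omega)
              linarith
            · rw [max_eq_right h7]
              have := W_mono (x := x) (z := z) (i := u + 1) (j := v) (i' := s) (j' := v) (by omega)
                (by omega) le_rfl
              linarith
          have m2 : w x z v + max 0 (W x z (u + 1) v - w x z v) ≤ W x z u g := by
            rcases le_total (W x z (u + 1) v - w x z v) 0 with h7 | h7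
            · rw [max_eq_left h7]
              have := le_W (x := x) (z := z) (i := u) (j := g) (k := v) (by omega) (by omega)
              linarith
            · rw [max_eq_right h7]
              have := W_mono (x := x) (z := z) (i := u + 1) (j := v) (i' := u) (j' := g) (by omega)
                (by omega) (by omega)
              linarith
          have hth : (th x z s e : ℝ) ≤ th x z s u + th x z (u + 1) v + th x z (v + 1) e + 2 := by
            have h10 := th_split (x := x) (z := z) (s := s) (j := u) (by omega) e (by omega)
            have h11 := th_split (x := x) (z := z) (s := u + 1) (j := v) (by omega) e (by omega)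
            have h12 : th x z s e ≤ th x z s u + th x z (u + 1) v + th x z (v + 1) e + 2 := by
              omega
            exact_mod_cast h12
          have h9 : (0 : ℝ) ≤ tA x z (v - 1) := Nat.cast_nonneg _
          unfold D at hD1 hD2 ⊢
          linarith

end Pool.Agent.SulK
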